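import Pool.Agent.Lib.MP_9cc2ee_lc.Sep
import Pool.Agent.Lib.MP_9cc2ee_lc.Step

/-!
Definable subgroups of the free solvable group of class three, and the coding of the integers.
-/

set_option autoImplicit false
set_option linter.unusedSectionVars false

namespace Pool.Agent.Lib.MP_9cc2ee_lc

open FirstOrder Set
open scoped commutatorElement

theorem exists_geom {Q : Type} [CommGroup Q] (q : Q) (k : ℤ) :
    ∃ s r : ZR Q, (o q - 1) * s = o (q ^ k) - 1 ∧ s = (k : ZR Q) + (o q - 1) * r := by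
  induction k using Int.induction_on with
  | zero => exact ⟨0, 0, by simp, by simp⟩
  | succ k ih =>
    obtain ⟨s, r, h1, h2⟩ := ih
    refine ⟨o q * s + 1, s + r, ?_, ?_⟩
    · rw [zpow_add_one, o_mul]
      linear_combination (o q) * h1
    · push_cast at h2 ⊢
      linear_combination h2
  | pred k ih =>
    obtain ⟨s, r, h1, h2⟩ := ih
    have h3 : o q⁻¹ * o q = 1 := by rw [← o_mul, inv_mul_cancel, o_one]
    refine ⟨o q⁻¹ * (s - 1), r - o q⁻¹ * (s - 1), ?_, ?_⟩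
    · rw [zpow_sub_one, o_mul]
      linear_combination (o q⁻¹) * h1 - h3
    · push_cast at h2 ⊢
      linear_combination h2 + (s - 1) * h3

variable {n : ℕ}

/-- The first Magnus map on the solvable group. -/
noncomputable def d1 (n : ℕ) : Der (GG n) (Q1 n) (Fin (n + 2)) :=
  Aff.der (QuotientGroup.lift _ (magnus (π1 n)) fun w hw => by
    have h := (fox1_ker w).mpr ((fox2_ker w).mpr (pG_eq_one.mpr hw)).1
    exact (Aff.eq_one_iff _ _).mpr ⟨by rw [← fox_π (π1 n)] at h; exact h.1, h.2⟩)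

/-- The second Magnus map on the solvable group. -/
noncomputable def d2 (n : ℕ) : Der (GG n) (Q2 n) (Fin (n + 2)) :=
  Aff.der (QuotientGroup.lift _ (magnus (π2 n)) fun w hw => by
    have h := (fox2_ker w).mpr (pG_eq_one.mpr hw)
    exact (Aff.eq_one_iff _ _).mpr ⟨by rw [← fox_π (π2 n)] at h; exact h.1, h.2⟩)

theorem d1_π (w : FG n) : (d1 n).π (pG n w) = π1 n w := by
  rw [← fox_π (π1 n)]; rfl

theorem d2_π (w : FG n) : (d2 n).π (pG n w) = π2 n w := by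
  rw [← fox_π (π2 n)]; rfl

theorem d1_D (w : FG n) : (d1 n).D (pG n w) = (fox (π1 n)).D w := rfl

theorem d2_D (w : FG n) : (d2 n).D (pG n w) = (fox (π2 n)).D w := rfl

theorem d1_comp : (d1 n).π.comp (pG n) = π1 n := MonoidHom.ext d1_π

theorem d2_comp : (d2 n).π.comp (pG n) = π2 n := MonoidHom.ext d2_π

theorem d1_surj : Function.Surjective (d1 n).π := fun q => by
  obtain ⟨w, rfl⟩ := π1_surj q
  exact ⟨_, d1_π w⟩

theorem d2_surj : Function.Surjective (d2 n).π := fun q => by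
  obtain ⟨w, rfl⟩ := π2_surj q
  exact ⟨_, d2_π w⟩

theorem d1_ker (g : GG n) : ((d1 n).π g = 1 ∧ (d1 n).D g = 0) ↔ (d2 n).π g = 1 := by
  obtain ⟨w, rfl⟩ := pG_surj g
  rw [d1_π, d1_D, d2_π, fox1_ker]

theorem d2_ker (g : GG n) : ((d2 n).π g = 1 ∧ (d2 n).D g = 0) ↔ g = 1 := by
  obtain ⟨w, rfl⟩ := pG_surj g
  rw [d2_π, d2_D, fox2_ker]

theorem d2_not_fin {g : GG n} (h : (d2 n).π g ≠ 1) : ¬ IsOfFinOrder ((d2 n).π g) := by
  obtain ⟨w, rfl⟩ := pG_surj g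
  rw [d2_π] at h ⊢
  exact Q2_not_fin h

theorem d1_comm (g h : GG n) : (d1 n).π ⁅g, h⁆ = 1 := by
  rw [map_commutatorElement, commutatorElement_eq_one_iff_commute]
  exact mul_comm _ _

theorem d12_eq_iff (g h : GG n) :
    (d2 n).π g = (d2 n).π h ↔ (d1 n).π g = (d1 n).π h ∧ (d1 n).D g = (d1 n).D h := by
  rw [(d1 n).eq_iff, d1_ker, map_mul, map_inv, mul_inv_eq_one]

theorem d2_eq_iff (g h : GG n) :
    g = h ↔ (d2 n).π g = (d2 n).π h ∧ (d2 n).D g = (d2 n).D h := by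
  rw [(d2 n).eq_iff, d2_ker, mul_inv_eq_one]

theorem exists_cent : ∃ a : GG n, ∀ g, (d2 n).π g = 1 ↔ ⁅g, a⁆ = 1 := by
  obtain ⟨a, h1, h2⟩ := exists_a0 (n := n)
  rw [← d2_π] at h1
  rw [← d2_D] at h2
  refine ⟨pG n a, fun g => ⟨fun h => ?_, fun h => ?_⟩⟩
  · have h3 : (d2 n).π ⁅g, pG n a⁆ = 1 := by rw [map_commutatorElement, h]; simp
    refine (d2_ker _).mp ⟨h3, ?_⟩
    rw [(d2 n).D_comm' h3, h, h1]
    simp
  · by_contra h3
    exact h2 ((d2 n).D_eq_zero_of_commute (d2_not_fin h3) h1 (by rw [h, (d2 n).D_one]))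

theorem d1_iff (g : GG n) : (d1 n).π g = 1 ↔ (d2 n).π ⁅g, pG n (zz n)⁆ = 1 := by
  have h1 : (d1 n).π (pG n (zz n)) = 1 := by rw [d1_π, π1_zz]
  constructor
  · intro h
    refine (d1_ker _).mp ⟨d1_comm _ _, ?_⟩
    rw [(d1 n).D_comm' (d1_comm _ _), h, h1]
    simp
  · intro h
    by_contra h3
    have := (d1 n).D_eq_zero_of_commute (Q1_not_fin h3) h1 ((d1_ker _).mpr h).2
    rw [d1_D, zz_def] at this
    exact D1_comm_X_ne (by simp) this

instance : Nontrivial (GG n) :=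
  ⟨⟨pG n (X 0), 1, fun h => π1_X_ne_one 0 (by rw [← d1_π, h, map_one])⟩⟩

theorem cent {y g : GG n} {j : Fin (n + 2)} (hy : (d1 n).D y j = 1)
    (h : (d2 n).π ⁅g, y⁆ = 1) : ∃ k : ℤ, (d1 n).π g = (d1 n).π y ^ k := by
  have h1 := congrFun ((d1_ker _).mpr h).2 j
  rw [(d1 n).D_comm' (d1_comm _ _)] at h1
  simp only [Pi.add_apply, Pi.smul_apply, smul_eq_mul, hy, mul_one, Pi.zero_apply] at h1
  have h2 : o ((d1 n).π g) - 1 = (o ((d1 n).π y) - 1) * (d1 n).D g j := by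
    linear_combination h1
  have h3 := cosetSum_sub_one_mul (Subgroup.mem_zpowers ((d1 n).π y)) ((d1 n).D g j)
  rw [← h2, map_sub, ← o_one, o, o, cosetSum_single, cosetSum_single, sub_eq_zero,
    Finsupp.single_left_inj one_ne_zero] at h3
  have h4 := QuotientGroup.rightRel_apply.mp (Quotient.exact h3.symm)
  rw [inv_one, mul_one] at h4
  obtain ⟨k, hk⟩ := h4
  exact ⟨k, hk.symm⟩

theorem cent_pow (y : GG n) (k : ℤ) : (d2 n).π ⁅y ^ k, y⁆ = 1 := by
  rw [commutatorElement_eq_one_iff_commute.mpr ((Commute.refl y).zpow_left k), map_one]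

/-- The images of the generators in the solvable group. -/
def xx (i : Fin (n + 2)) : GG n := pG n (X i)

/-- The images of the generators in the free abelian group. -/
def xb (i : Fin (n + 2)) : Q1 n := Multiplicative.ofAdd (Pi.single i 1)

theorem d1_xx (i : Fin (n + 2)) : (d1 n).π (xx i) = xb i := by rw [xx, d1_π, π1_X, xb]

theorem D_xx (i : Fin (n + 2)) : (d1 n).D (xx i) = Pi.single i 1 := by rw [xx, d1_D, fox_of]

theorem xb_pow (i j : Fin (n + 2)) (k : ℤ) : (xb i ^ k).toAdd j = if j = i then k else 0 := by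
  simp [xb, Pi.single_apply]

theorem xb_not_fin (i : Fin (n + 2)) : ¬ IsOfFinOrder (xb i) := by
  rw [← d1_xx, xx, d1_π]
  exact Q1_not_fin (π1_X_ne_one i)

theorem cent_xx {g : GG n} {i : Fin (n + 2)} (h : (d2 n).π ⁅g, xx i⁆ = 1) :
    (d1 n).π g = xb i ^ (((d1 n).π g).toAdd i) := by
  obtain ⟨k, hk⟩ := cent (j := i) (by rw [D_xx]; simp) h
  rw [d1_xx] at hk
  rw [hk, xb_pow]
  simp

theorem int_mul_iff (k l m : ℤ) (a : (d1 n).im d1_surj) (ha : a.1 = (d1 n).D (pG n (zz n))) :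
    (∃ u v w t : (d1 n).im d1_surj,
      (o (xb (0 : Fin (n + 2))) - 1) • u = (o (xb (0 : Fin (n + 2)) ^ l) - 1) • a ∧
      (o (xb (0 : Fin (n + 2))) - 1) • v = (o (xb (0 : Fin (n + 2)) ^ k) - 1) • u ∧
      (o (xb (0 : Fin (n + 2))) - 1) • w = (o (xb (0 : Fin (n + 2)) ^ m) - 1) • a ∧
      v = w + (o (xb (0 : Fin (n + 2))) - 1) • t) ↔ k * l = m := by
  obtain ⟨sk, rk, hk1, hk2⟩ := exists_geom (xb (0 : Fin (n + 2))) k
  obtain ⟨sl, rl, hl1, hl2⟩ := exists_geom (xb (0 : Fin (n + 2))) l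
  obtain ⟨sm, rm, hm1, hm2⟩ := exists_geom (xb (0 : Fin (n + 2))) m
  have hι : Function.Injective ((d1 n).im d1_surj).subtype := Subtype.val_injective
  have hc := fun v w => N_cancel ((d1 n).im d1_surj).subtype hι (xb_not_fin 0) (v := v) (w := w)
  set x := o (xb (0 : Fin (n + 2))) with hx
  constructor
  · rintro ⟨u, v, w, t, h1, h2, h3, h4⟩
    rw [← hl1, mul_smul] at h1
    rw [← hk1, mul_smul] at h2
    rw [← hm1, mul_smul] at h3
    rw [hc _ _ h2, hc _ _ h3, hc _ _ h1] at h4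
    have h5 := congrFun (congrArg Subtype.val h4) 0
    have h6 : a.1 0 = 1 - o (xb 1) := by
      rw [ha, d1_D, zz_def, D1_comm_X, π1_X]
      simp [xb]
    simp only [SetLike.val_smul, Pi.smul_apply, smul_eq_mul, Submodule.coe_add, Pi.add_apply,
      h6] at h5
    have h7 : ((k * l - m : ℤ) : ZR (Q1 n)) * (1 - o (xb 1)) = (x - 1) *
        (t.1 0 + (rm - (k : ZR (Q1 n)) * rl - rk * (l : ZR (Q1 n)) - (x - 1) * rk * rl) * (1 - o (xb 1))) := by
      rw [hk2, hl2, hm2] at h5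
      push_cast
      linear_combination h5
    have h8 := cosetSum_sub_one_mul (Subgroup.mem_zpowers (xb (0 : Fin (n + 2))))
      (t.1 0 + (rm - (k : ZR (Q1 n)) * rl - rk * (l : ZR (Q1 n)) - (x - 1) * rk * rl) * (1 - o (xb 1)))
    rw [← h7, ← zsmul_eq_mul, map_zsmul, map_sub, ← o_one, o, o, cosetSum_single,
      cosetSum_single] at h8
    have h9 : (Quotient.mk (QuotientGroup.rightRel (Subgroup.zpowers (xb (0 : Fin (n + 2)))))
        (xb 1)) ≠ Quotient.mk _ 1 := by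
      intro h
      have h4 := QuotientGroup.rightRel_apply.mp (Quotient.exact h.symm)
      rw [inv_one, mul_one] at h4
      obtain ⟨j, hj⟩ := h4
      have := congrFun (congrArg Multiplicative.toAdd hj) 1
      simp [xb] at this
    have h10 := DFunLike.congr_fun h8 (Quotient.mk _ 1)
    simp only [Finsupp.coe_smul, Finsupp.coe_sub, Pi.smul_apply, Pi.sub_apply,
      Finsupp.single_eq_same, Finsupp.single_eq_of_ne h9.symm, sub_zero, smul_eq_mul, mul_one,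
      Finsupp.coe_zero, Pi.zero_apply] at h10
    exact sub_eq_zero.mp h10
  · rintro rfl
    refine ⟨sl • a, sk • sl • a, sm • a, 
      ((k : ZR (Q1 n)) * rl + rk * (l : ZR (Q1 n)) + (x - 1) * rk * rl - rm) • a,
      by rw [← hl1, mul_smul], by rw [← hk1, mul_smul], by rw [← hm1, mul_smul], ?_⟩
    rw [smul_smul, smul_smul, ← add_smul]
    congr 1
    rw [hk2, hl2, hm2]
    push_cast
    ring

theorem nonneg_iff (k : ℤ) : (∃ a b c d : ℤ, a * a + b * b + c * c + d * d = k) ↔ 0 ≤ k := by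
  constructor
  · rintro ⟨a, b, c, d, rfl⟩
    nlinarith [mul_self_nonneg a, mul_self_nonneg b, mul_self_nonneg c, mul_self_nonneg d]
  · intro h
    obtain ⟨m, rfl⟩ := Int.eq_ofNat_of_zero_le h
    obtain ⟨a, b, c, d, rfl⟩ := Nat.sum_four_squares m
    exact ⟨a, b, c, d, by push_cast; ring⟩

section Defs

variable {L : FirstOrder.Language.{0, 0}} [L.Structure (GG n)] [DefMul L (GG n) (GG n)]

theorem def_N2 : DefFun L (GG n) (fun g : GG n => (d2 n).π g = 1) := by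
  obtain ⟨a, ha⟩ := exists_cent (n := n)
  exact DefFun.congr_iff (P := fun g : GG n => ⁅g, a⁆ = 1) (by fun_prop) fun g => (ha g).symm

theorem def_N1 : DefFun L (GG n) (fun g : GG n => (d1 n).π g = 1) :=
  DefFun.congr_iff (P := fun g : GG n => (d2 n).π ⁅g, pG n (zz n)⁆ = 1)
    (def_N2.comp (by fun_prop)) fun g => (d1_iff g).symm

theorem def_eq1 {S : Type} [Enc L (GG n) S] {f g : S → GG n} (hf : DefFun L (GG n) f)
    (hg : DefFun L (GG n) g) : DefFun L (GG n) (fun s => (d1 n).π (f s) = (d1 n).π (g s)) :=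
  DefFun.congr_iff (P := fun s => (d1 n).π (f s * (g s)⁻¹) = 1) (def_N1.comp (by fun_prop))
    fun s => by rw [map_mul, map_inv, mul_inv_eq_one]

theorem def_cent {S : Type} [Enc L (GG n) S] {f : S → GG n} (hf : DefFun L (GG n) f) (y : GG n) :
    DefFun L (GG n) (fun s => (d2 n).π ⁅f s, y⁆ = 1) := def_N2.comp (by fun_prop)

theorem exists_encInt : ∃ _ : Enc L (GG n) ℤ, DefAdd L (GG n) ℤ ∧ DefMul L (GG n) ℤ ∧
    DefFun L (GG n) (fun p : GG n × ℤ => (d1 n).π p.1 = xb 0 ^ p.2) := by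
  have hs : ∀ t : ℤ, ∃ s : GG n, (d2 n).π ⁅s, xx 0⁆ = 1 ∧ ((d1 n).π s).toAdd 0 = t := fun t =>
    ⟨xx 0 ^ t, cent_pow _ _, by rw [map_zpow, d1_xx, xb_pow]; simp⟩
  have hD : DefFun L (GG n) (fun s : GG n => (d2 n).π ⁅s, xx 0⁆ = 1) := def_cent DefFun.id _
  have hE : DefFun L (GG n) (fun p : GG n × GG n => (d2 n).π ⁅p.1, xx 0⁆ = 1 ∧
      (d2 n).π ⁅p.2, xx 0⁆ = 1 ∧ ((d1 n).π p.1).toAdd 0 = ((d1 n).π p.2).toAdd 0) := by
    refine DefFun.congr_iff (P := fun p : GG n × GG n => (d2 n).π ⁅p.1, xx 0⁆ = 1 ∧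
      (d2 n).π ⁅p.2, xx 0⁆ = 1 ∧ (d1 n).π p.1 = (d1 n).π p.2)
      (DefFun.and (def_cent (by fun_prop) _) (DefFun.and (def_cent (by fun_prop) _)
        (def_eq1 (by fun_prop) (by fun_prop)))) fun p => ?_
    refine and_congr_right fun h1 => and_congr_right fun h2 => ⟨fun h => by rw [h], fun h => ?_⟩
    rw [cent_xx h1, cent_xx h2, h]
  let e := Enc.sub (fun s : GG n => (d2 n).π ⁅s, xx 0⁆ = 1) (fun s => ((d1 n).π s).toAdd 0) hs hD hE
  have hgr0 := Enc.sub_graph (fun s : GG n => (d2 n).π ⁅s, xx 0⁆ = 1)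
    (fun s => ((d1 n).π s).toAdd 0) hs hD hE
  have hgr : DefFun L (GG n) (fun p : GG n × ℤ => (d1 n).π p.1 = xb 0 ^ p.2) := by
    refine DefFun.congr_iff (P := fun p : GG n × ℤ => ∃ g : GG n,
      ((d2 n).π ⁅g, xx 0⁆ = 1 ∧ ((d1 n).π g).toAdd 0 = p.2) ∧ (d1 n).π p.1 = (d1 n).π g)
      (DefFun.ex (DefFun.and (DefFun.comp₂ (fun (g : GG n) (k : ℤ) =>
        (d2 n).π ⁅g, xx 0⁆ = 1 ∧ ((d1 n).π g).toAdd 0 = k) hgr0 (by fun_prop) (by fun_prop))
        (def_eq1 (by fun_prop) (by fun_prop)))) fun p => ?_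
    constructor
    · rintro ⟨g, ⟨h1, h2⟩, h3⟩
      rw [h3, cent_xx h1, h2]
    · intro h
      exact ⟨xx 0 ^ p.2, ⟨cent_pow _ _, by rw [map_zpow, d1_xx, xb_pow]; simp⟩,
        by rw [h, map_zpow, d1_xx]⟩
  have hgr' : ∀ {S : Type} [Enc L (GG n) S] {x : S → GG n} {y : S → ℤ}, DefFun L (GG n) x →
      DefFun L (GG n) y → DefFun L (GG n) (fun s => (d1 n).π (x s) = xb 0 ^ y s) := by
    intro S _ x y hx hy
    exact DefFun.comp₂ (fun (g : GG n) (k : ℤ) => (d1 n).π g = xb 0 ^ k) hgr hx hy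
  have hinj : Function.Injective fun k : ℤ => xb (0 : Fin (n + 2)) ^ k :=
    injective_zpow_iff_not_isOfFinOrder.mpr (xb_not_fin 0)
  refine ⟨e, ⟨?_⟩, ⟨?_⟩, hgr⟩
  · refine DefFun.of_graph (R := fun p m => ∃ a b : GG n, (d1 n).π a = xb 0 ^ p.1 ∧
      (d1 n).π b = xb 0 ^ p.2 ∧ (d1 n).π (a * b) = xb 0 ^ m) ?_ ?_
    · refine DefFun.ex (DefFun.ex (DefFun.and (hgr' ?_ ?_) (DefFun.and (hgr' ?_ ?_)
        (hgr' ?_ ?_)))) <;> fun_prop
    rintro ⟨k, l⟩ m
    constructor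
    · rintro ⟨a, b, h1, h2, h3⟩
      rw [map_mul, h1, h2, ← zpow_add] at h3
      exact hinj h3
    · rintro rfl
      exact ⟨xx 0 ^ k, xx 0 ^ l, by rw [map_zpow, d1_xx], by rw [map_zpow, d1_xx],
        by rw [← zpow_add, map_zpow, d1_xx]⟩
  · obtain ⟨e1, hadd, -, hact⟩ := exists_enc (L := L) (d1 n) d1_surj def_N1
      (def_N2.congr_iff fun g => (d1_ker g).symm)
    have hact' : ∀ {S : Type} [Enc L (GG n) S] {x : S → GG n} {y : S → (d1 n).im d1_surj},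
        DefFun L (GG n) x → DefFun L (GG n) y →
        DefFun L (GG n) (fun s => (o ((d1 n).π (x s)) - 1) • y s) := by
      intro S _ x y hx hy
      exact def_act_sub hact hx hy
    let a : (d1 n).im d1_surj := ⟨_, pG n (zz n), by rw [d1_π, π1_zz], rfl⟩
    refine DefFun.of_graph (R := fun p m => ∃ gk gl gm : GG n, (d1 n).π gk = xb 0 ^ p.1 ∧
      (d1 n).π gl = xb 0 ^ p.2 ∧ (d1 n).π gm = xb 0 ^ m ∧ ∃ u v w t : (d1 n).im d1_surj,
      (o ((d1 n).π (xx 0)) - 1) • u = (o ((d1 n).π gl) - 1) • a ∧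
      (o ((d1 n).π (xx 0)) - 1) • v = (o ((d1 n).π gk) - 1) • u ∧
      (o ((d1 n).π (xx 0)) - 1) • w = (o ((d1 n).π gm) - 1) • a ∧
      v = w + (o ((d1 n).π (xx 0)) - 1) • t) ?_ ?_
    · refine DefFun.ex (DefFun.ex (DefFun.ex (DefFun.and (hgr' ?_ ?_) (DefFun.and (hgr' ?_ ?_)
        (DefFun.and (hgr' ?_ ?_) (DefFun.ex (DefFun.ex (DefFun.ex (DefFun.ex
          (DefFun.and (DefFun.eq (hact' ?_ ?_) (hact' ?_ ?_))
          (DefFun.and (DefFun.eq (hact' ?_ ?_) (hact' ?_ ?_))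
          (DefFun.and (DefFun.eq (hact' ?_ ?_) (hact' ?_ ?_))
          (DefFun.eq ?_ (DefFun.add ?_ (hact' ?_ ?_))))))))))))))) <;> fun_prop
    rintro ⟨k, l⟩ m
    rw [← int_mul_iff k l m a rfl, d1_xx]
    constructor
    · rintro ⟨gk, gl, gm, h1, h2, h3, h4⟩
      rw [h1, h2, h3] at h4
      exact h4
    · intro h
      exact ⟨xx 0 ^ k, xx 0 ^ l, xx 0 ^ m, by rw [map_zpow, d1_xx], by rw [map_zpow, d1_xx],
        by rw [map_zpow, d1_xx], by simpa only [map_zpow, d1_xx] using h⟩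

theorem exists_encNat : ∃ _ : Enc L (GG n) ℕ, DefAdd L (GG n) ℕ ∧ DefMul L (GG n) ℕ ∧
    DefFun L (GG n) (fun p : GG n × ℕ => (d1 n).π p.1 = xb 0 ^ p.2) := by
  obtain ⟨e, hadd, hmul, hgr⟩ := exists_encInt (L := L) (n := n)
  have hD : DefFun L (GG n) (fun k : ℤ => 0 ≤ k) :=
    DefFun.congr_iff (P := fun k : ℤ => ∃ a b c d : ℤ, a * a + b * b + c * c + d * d = k)
      (by fun_prop) nonneg_iff
  have hs : ∀ t : ℕ, ∃ s : ℤ, 0 ≤ s ∧ s.toNat = t := fun t => ⟨t, by simp, by simp⟩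
  have hE : DefFun L (GG n) (fun p : ℤ × ℤ => 0 ≤ p.1 ∧ 0 ≤ p.2 ∧ p.1.toNat = p.2.toNat) :=
    DefFun.congr_iff (P := fun p : ℤ × ℤ => 0 ≤ p.1 ∧ p.1 = p.2)
      (DefFun.and (hD.comp (by fun_prop)) (by fun_prop)) fun p => by omega
  let e' := Enc.sub (fun k : ℤ => 0 ≤ k) Int.toNat hs hD hE
  have hc : DefFun L (GG n) (fun k : ℕ => (k : ℤ)) := by
    refine DefFun.of_graph (R := fun k s => 0 ≤ s ∧ s.toNat = k)
      (DefFun.comp₂ (fun (s : ℤ) (k : ℕ) => 0 ≤ s ∧ s.toNat = k)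
        (Enc.sub_graph (fun k : ℤ => 0 ≤ k) Int.toNat hs hD hE) (by fun_prop) (by fun_prop))
      fun k s => by omega
  refine ⟨e', ⟨?_⟩, ⟨?_⟩, ?_⟩
  · exact DefFun.of_graph (R := fun p m => (p.1 : ℤ) + p.2 = (m : ℕ)) (by fun_prop)
      fun p m => by omega
  · exact DefFun.of_graph (R := fun p m => (p.1 : ℤ) * p.2 = (m : ℕ)) (by fun_prop)
      fun p m => by rw [← Nat.cast_mul, Nat.cast_inj]
  · exact (DefFun.comp₂ (fun (g : GG n) (k : ℤ) => (d1 n).π g = xb 0 ^ k) hgr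
      (g := fun p : GG n × ℕ => p.1) (h := fun p : GG n × ℕ => (p.2 : ℤ)) (by fun_prop)
      (by fun_prop)).congr_iff fun p => by rw [zpow_natCast]

end Defs

end Pool.Agent.Lib.MP_9cc2ee_lc
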