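import Mathlib

/-!
Languages of groups and of arithmetic, interpretations with parameters, bi-interpretability.
-/

set_option autoImplicit false

namespace Pool.Agent.Lib.MP_9cc2ee_lc

open FirstOrder

/-- Function symbols of the language of groups. -/
inductive GrpFunc : ℕ → Type
  | one : GrpFunc 0
  | inv : GrpFunc 1
  | mul : GrpFunc 2

/-- The language of groups: `1`, inverse, product; no relation symbols. -/
def Lgrp : FirstOrder.Language.{0, 0} := ⟨GrpFunc, fun _ => Empty⟩

/-- A group as a structure in the language of groups. -/
instance grpStructure (G : Type) [Group G] : Lgrp.Structure G where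
  funMap := fun {_} f v =>
    match f with
    | GrpFunc.one => 1
    | GrpFunc.inv => (v 0)⁻¹
    | GrpFunc.mul => v 0 * v 1
  RelMap := fun {_} r _ => Empty.elim r

/-- Function symbols of the language of arithmetic. -/
inductive ArFunc : ℕ → Type
  | add : ArFunc 2
  | mul : ArFunc 2

/-- The language of arithmetic: sum and product; no relation symbols. -/
def Lar : FirstOrder.Language.{0, 0} := ⟨ArFunc, fun _ => Empty⟩

/-- The standard model of arithmetic. -/
instance natStructure : Lar.Structure ℕ where
  funMap := fun {_} f v =>
    match f with
    | ArFunc.add => v 0 + v 1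
    | ArFunc.mul => v 0 * v 1
  RelMap := fun {_} r _ => Empty.elim r

/-- An interpretation, with parameters, of the `L'`-structure `B` in the `L`-structure `A`:
a definable set `D` of `k`-tuples and a coordinate map `c` from `D` onto `B` such that the
pull-backs of equality, of the graphs of the operations and of the relations are definable. -/
structure Interp (L L' : FirstOrder.Language.{0, 0}) (A B : Type) [L.Structure A]
    [L'.Structure B] where
  k : ℕ
  D : Set (Fin k → A)
  c : (Fin k → A) → B
  surj : ∀ b : B, ∃ v ∈ D, c v = b
  def_D : (Set.univ : Set A).Definable L D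
  def_E : (Set.univ : Set A).Definable L {v : Fin 2 × Fin k → A |
    (∀ i, (fun j => v (i, j)) ∈ D) ∧ c (fun j => v (0, j)) = c (fun j => v (1, j))}
  def_fun : ∀ (m : ℕ) (f : L'.Functions m), (Set.univ : Set A).Definable L
    {v : Option (Fin m) × Fin k → A | (∀ i, (fun j => v (i, j)) ∈ D) ∧
      Language.Structure.funMap f (fun i => c (fun j => v (some i, j))) =
        c (fun j => v (none, j))}
  def_rel : ∀ (m : ℕ) (r : L'.Relations m), (Set.univ : Set A).Definable L
    {v : Fin m × Fin k → A | (∀ i, (fun j => v (i, j)) ∈ D) ∧
      Language.Structure.RelMap r (fun i => c (fun j => v (i, j)))}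

/-- The coordinate map of the composite interpretation of `A` in itself is definable in `A`. -/
def CompDefinable {L L' : FirstOrder.Language.{0, 0}} {A B : Type} [L.Structure A]
    [L'.Structure B] (I : Interp L L' A B) (J : Interp L' L B A) : Prop :=
  (Set.univ : Set A).Definable L {v : Option (Fin J.k × Fin I.k) → A |
    (∀ i, (fun j => v (some (i, j))) ∈ I.D) ∧
    (fun i => I.c (fun j => v (some (i, j)))) ∈ J.D ∧
    J.c (fun i => I.c (fun j => v (some (i, j)))) = v none}

/-- Bi-interpretability with parameters. -/
def BiInterpretable (L L' : FirstOrder.Language.{0, 0}) (A B : Type) [L.Structure A]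
    [L'.Structure B] : Prop :=
  ∃ (I : Interp L L' A B) (J : Interp L' L B A), CompDefinable I J ∧ CompDefinable J I

end Pool.Agent.Lib.MP_9cc2ee_lc
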