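import Pool.Agent.Lib.MP_9cc2ee_lc.Code
import Pool.Agent.Lib.MP_9cc2ee_lc.Defs

/-!
The two interpretations and the definability of their composites.
-/

set_option autoImplicit false
set_option linter.unusedSectionVars false

namespace Pool.Agent.Lib.MP_9cc2ee_lc

open FirstOrder Set
open scoped commutatorElement

section General

variable {L : FirstOrder.Language.{0, 0}} {M : Type} [L.Structure M] [Nontrivial M]

theorem definable_of_defFun {κ : Type} [Finite κ] {P : (κ → M) → Prop} (h : DefFun L M P) :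
    (univ : Set M).Definable L {v | P v} := by
  have h1 := (defFun_iff.mp h).preimage_comp (β := κ) (Prod.fst : κ × Fin 1 → κ)
  exact defn_congr h1 fun v => ⟨fun hv => ⟨fun _ => trivial, hv⟩, fun hv => hv.2⟩

theorem DefFun.forall_fin {S : Type} [Enc L M S] {κ : Type} [Finite κ] {P : κ → S → Prop}
    (h : ∀ i, DefFun L M (P i)) : DefFun L M (fun s => ∀ i, P i s) := by
  classical
  have := Fintype.ofFinite κ
  have key : ∀ u : Finset κ, DefFun L M (fun s => ∀ i ∈ u, P i s) := by
    intro u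
    induction u using Finset.induction_on with
    | empty => exact (DefFun.const True).congr_iff fun p => by simp
    | insert i u _ ih => exact ((h i).and ih).congr_iff fun p => by simp
  exact (key Finset.univ).congr_iff fun s => by simp

theorem defFun_binop (φ : L.Functions 2) (op : M → M → M)
    (h : ∀ v : Fin 2 → M, Language.Structure.funMap φ v = op (v 0) (v 1)) :
    DefFun L M (fun p : M × M => op p.1 p.2) := by
  have h1 : (univ : Set M).DefinableFun L
      (fun v : (Fin 1 ⊕ Fin 1) ⊕ Fin 1 → M => Language.Structure.funMap φ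
        (fun i => v (![Sum.inl (Sum.inl 0), Sum.inl (Sum.inr 0)] i))) :=
    DefinableFun.comp (fun _ => DefinableFun.proj L) (DefinableFun.fun_symbol φ).of_empty
  have h2 := h1.ofPred_eq (DefinableFun.proj L (i := Sum.inr 0))
  unfold DefFun Def
  refine defn_congr h2 fun v => ?_
  exact ⟨fun hv => (h _).trans hv.2,
    fun hv => ⟨⟨⟨trivial, trivial⟩, trivial⟩, (h _).symm.trans hv⟩⟩

variable {L' : FirstOrder.Language.{0, 0}} {T : Type} [L'.Structure T] [Enc L M T]

/-- A one-dimensional interpretation built from a definable decoding relation. -/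
noncomputable def mkInterp (D : M → Prop) (f : M → T) (hs : ∀ t, ∃ m, D m ∧ f m = t)
    (hgr : DefFun L M (fun p : M × T => D p.1 ∧ f p.1 = p.2))
    (hfun : ∀ m (φ : L'.Functions m),
      DefFun L M (fun w : Fin m → T => Language.Structure.funMap φ w))
    (hrel : ∀ m, IsEmpty (L'.Relations m)) : Interp L L' M T where
  k := 1
  D := {v | D (v 0)}
  c v := f (v 0)
  surj t := by
    obtain ⟨m, h1, h2⟩ := hs t
    exact ⟨fun _ => m, h1, h2⟩
  def_D := by
    refine definable_of_defFun (DefFun.congr_iff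
      (P := fun v : Fin 1 → M => ∃ t, D (v 0) ∧ f (v 0) = t) (DefFun.ex (DefFun.comp₂
        (fun (m : M) (t : T) => D m ∧ f m = t) hgr ((DefFun.eval 0).comp DefFun.fst')
          DefFun.snd')) fun v => by simp)
  def_E := by
    refine definable_of_defFun (DefFun.congr_iff
      (P := fun v : Fin 2 × Fin 1 → M => ∃ t, ∀ i, D (v (i, 0)) ∧ f (v (i, 0)) = t)
      (DefFun.ex (DefFun.forall_fin fun i => DefFun.comp₂
        (fun (m : M) (t : T) => D m ∧ f m = t) hgr ((DefFun.eval (i, 0)).comp DefFun.fst')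
          DefFun.snd')) fun v => ?_)
    constructor
    · rintro ⟨t, ht⟩
      exact ⟨fun i => (ht i).1, (ht 0).2.trans (ht 1).2.symm⟩
    · rintro ⟨h1, h2⟩
      exact ⟨_, Fin.forall_fin_two.mpr ⟨⟨h1 0, h2⟩, h1 1, rfl⟩⟩
  def_fun m φ := by
    refine definable_of_defFun (DefFun.congr_iff
      (P := fun v : Option (Fin m) × Fin 1 → M => ∃ w : Fin m → T,
        (∀ i, D (v (some i, 0)) ∧ f (v (some i, 0)) = w i) ∧
        (D (v (none, 0)) ∧ f (v (none, 0)) = Language.Structure.funMap φ w))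
      (DefFun.ex (DefFun.and (DefFun.forall_fin fun i => DefFun.comp₂
        (fun (m : M) (t : T) => D m ∧ f m = t) hgr ((DefFun.eval (some i, 0)).comp DefFun.fst')
          ((DefFun.eval i).comp DefFun.snd'))
        (DefFun.comp₂ (fun (m : M) (t : T) => D m ∧ f m = t) hgr
          ((DefFun.eval (none, 0)).comp DefFun.fst') ((hfun m φ).comp DefFun.snd')))) fun v => ?_)
    constructor
    · rintro ⟨w, h1, h2, h3⟩
      have : w = fun i => f (v (some i, 0)) := funext fun i => (h1 i).2.symm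
      subst this
      refine ⟨fun i => ?_, h3.symm⟩
      cases i with
      | none => exact h2
      | some i => exact (h1 i).1
    · rintro ⟨h1, h2⟩
      exact ⟨_, fun i => ⟨h1 (some i), rfl⟩, h1 none, h2.symm⟩
  def_rel m r := (hrel m).elim r

end General

instance defMulGrp (G : Type) [Group G] [Nontrivial G] : DefMul Lgrp G G :=
  ⟨defFun_binop GrpFunc.mul (· * ·) fun _ => rfl⟩

instance defAddNat : DefAdd Lar ℕ ℕ := ⟨defFun_binop ArFunc.add (· + ·) fun _ => rfl⟩

instance defMulNat : DefMul Lar ℕ ℕ := ⟨defFun_binop ArFunc.mul (· * ·) fun _ => rfl⟩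

theorem biInterp (n : ℕ) : BiInterpretable Lgrp Lar (GG n) ℕ := by
  -- the natural numbers inside the group
  obtain ⟨e, hadd, hmul, hgr⟩ := exists_encNat (L := Lgrp) (n := n)
  let DI : GG n → Prop := fun g => ∃ k : ℕ, (d1 n).π g = xb 0 ^ k
  let fI : GG n → ℕ := fun g => (((d1 n).π g).toAdd 0).toNat
  have hI : ∀ g k, (DI g ∧ fI g = k) ↔ (d1 n).π g = xb 0 ^ k := by
    have key : ∀ g (k : ℕ), (d1 n).π g = xb 0 ^ k → fI g = k := by
      intro g k h
      simp only [fI]
      rw [h, ← zpow_natCast, xb_pow]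
      simp
    intro g k
    constructor
    · rintro ⟨⟨l, h1⟩, h2⟩
      rw [h1, ← h2, key g l h1]
    · intro h
      exact ⟨⟨k, h⟩, key g k h⟩
  have hgrI : DefFun Lgrp (GG n) (fun p : GG n × ℕ => DI p.1 ∧ fI p.1 = p.2) :=
    hgr.congr_iff fun p => (hI _ _).symm
  let I : Interp Lgrp Lar (GG n) ℕ := mkInterp DI fI
    (fun k => ⟨xx 0 ^ k, (hI _ _).mpr (by rw [map_pow, d1_xx])⟩) hgrI
    (by
      intro m φ
      cases φ
      · exact DefFun.add (DefFun.eval 0) (DefFun.eval 1)
      · exact DefFun.mul (DefFun.eval 0) (DefFun.eval 1))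
    (fun _ => inferInstanceAs (IsEmpty Empty))
  -- the group inside the natural numbers
  let fJ : ℕ → GG n := fun m => pG n (NDec.nd m)
  have hsJ : ∀ g, ∃ m, True ∧ fJ m = g := by
    intro g
    obtain ⟨w, rfl⟩ := pG_surj g
    obtain ⟨m, rfl⟩ := NDec.surj w
    exact ⟨m, trivial, rfl⟩
  have hEJ : DefFun Lar ℕ (fun p : ℕ × ℕ => True ∧ True ∧ fJ p.1 = fJ p.2) := by
    refine DefFun.congr_iff (P := fun p : ℕ × ℕ =>
      (NDec.nd p.1 : FG n) * (NDec.nd p.2)⁻¹ ∈ derivedSeries (FG n) 3)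
      ((DefFun.derived (T := FG n) 3).comp (by fun_prop)) fun p => ?_
    simp only [← pG_eq_one, map_mul, map_inv, mul_inv_eq_one, fJ, true_and]
  let eJ := Enc.sub (L := Lar) (M := ℕ) (fun _ : ℕ => True) fJ hsJ (DefFun.const True) hEJ
  have hgrJ : DefFun Lar ℕ (fun p : ℕ × GG n => True ∧ fJ p.1 = p.2) :=
    Enc.sub_graph (fun _ : ℕ => True) fJ hsJ (DefFun.const True) hEJ
  have hfJ : DefFun Lar ℕ fJ := DefFun.of_graph (R := fun s t => True ∧ fJ s = t) hgrJ (by simp)
  have hpG : DefFun Lar ℕ (pG n : FG n → GG n) := by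
    refine DefFun.of_graph (R := fun w g => ∃ m : ℕ, NDec.nd m = w ∧ fJ m = g) (by fun_prop)
      fun w g => ?_
    constructor
    · rintro ⟨m, rfl, rfl⟩
      rfl
    · rintro rfl
      obtain ⟨m, rfl⟩ := NDec.surj w
      exact ⟨m, rfl, rfl⟩
  have hmulJ : DefMul Lar ℕ (GG n) := by
    refine ⟨DefFun.of_graph (R := fun p g => ∃ u v : FG n, pG n u = p.1 ∧ pG n v = p.2 ∧
      pG n (u * v) = g) ?_ ?_⟩
    · refine DefFun.ex (DefFun.ex (DefFun.and (DefFun.eq (hpG.comp ?_) ?_)
        (DefFun.and (DefFun.eq (hpG.comp ?_) ?_) (DefFun.eq (hpG.comp ?_) ?_)))) <;> fun_prop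
    rintro ⟨a, b⟩ g
    constructor
    · rintro ⟨u, v, h1, h2, rfl⟩
      rw [map_mul, h1, h2]
    · rintro rfl
      obtain ⟨u, rfl⟩ := pG_surj a
      obtain ⟨v, rfl⟩ := pG_surj b
      exact ⟨u, v, rfl, rfl, map_mul _ _ _⟩
  let J : Interp Lar Lgrp ℕ (GG n) := mkInterp (fun _ => True) fJ hsJ hgrJ
    (by
      intro m φ
      cases φ
      · exact DefFun.const (1 : GG n)
      · exact DefFun.inv (DefFun.eval 0)
      · exact DefFun.mul (DefFun.eval 0) (DefFun.eval 1))
    (fun _ => inferInstanceAs (IsEmpty Empty))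
  refine ⟨I, J, ?_, ?_⟩
  · have h1 := def_pG hgr
    refine definable_of_defFun (κ := Option (Fin 1 × Fin 1)) (DefFun.congr_iff
      (P := fun v : Option (Fin 1 × Fin 1) → GG n => ∃ k : ℕ,
        (DI (v (some (0, 0))) ∧ fI (v (some (0, 0))) = k) ∧ pG n (NDec.nd k) = v none)
      (DefFun.ex (DefFun.and (DefFun.comp₂ (fun (g : GG n) (k : ℕ) => DI g ∧ fI g = k) hgrI
        ((DefFun.eval _).comp DefFun.fst') DefFun.snd')
        (DefFun.eq (h1.comp (by fun_prop)) ((DefFun.eval _).comp DefFun.fst')))) fun v => ?_)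
    constructor
    · rintro ⟨k, ⟨h2, rfl⟩, h3⟩
      exact ⟨Fin.forall_fin_one.mpr h2, trivial, h3⟩
    · rintro ⟨h2, -, h3⟩
      exact ⟨_, ⟨h2 (0 : Fin 1), rfl⟩, h3⟩
  · refine definable_of_defFun (κ := Option (Fin 1 × Fin 1)) (DefFun.congr_iff
      (P := fun v : Option (Fin 1 × Fin 1) → ℕ =>
        (NDec.nd (v (some (0, 0))) : FG n) * (X 0 ^ v none)⁻¹ ∈ derivedSeries (FG n) 1)
      ((DefFun.derived (T := FG n) 1).comp (DefFun.mul (DefFun.nd (DefFun.eval _))
        (DefFun.inv (DefFun.pow (DefFun.const _) (DefFun.eval _))))) fun v => ?_)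
    rw [← π1_eq_one, map_mul, map_inv, mul_inv_eq_one, map_pow, π1_X, ← d1_π]
    refine ((hI _ _).symm.trans ?_)
    exact ⟨fun h => ⟨fun _ => trivial, h⟩, fun h => h.2⟩

end Pool.Agent.Lib.MP_9cc2ee_lc
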