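import Pool.Agent.Lib.MP_9cc2ee_lc.Frame

/-!
Arithmetic, lists and free groups over a structure in which arithmetic is coded.
-/

set_option autoImplicit false
set_option linter.unusedSectionVars false

namespace Pool.Agent.Lib.MP_9cc2ee_lc

open FirstOrder Set
open scoped commutatorElement

section Ops

variable (L : FirstOrder.Language.{0, 0}) (M : Type) [L.Structure M]

/-- Addition is definable. -/
class DefAdd (T : Type) [Enc L M T] [Add T] : Prop where
  out : DefFun L M (fun p : T × T => p.1 + p.2)

/-- Multiplication is definable. -/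
class DefMul (T : Type) [Enc L M T] [Mul T] : Prop where
  out : DefFun L M (fun p : T × T => p.1 * p.2)

variable {L M} [Nontrivial M] {S T : Type} [Enc L M S] [Enc L M T]

@[fun_prop]
theorem DefFun.add [Add T] [h : DefAdd L M T] {f g : S → T} (hf : DefFun L M f)
    (hg : DefFun L M g) : DefFun L M (fun s => f s + g s) :=
  DefFun.comp (g := fun s => (f s, g s)) h.out (hf.prodMk hg)

@[fun_prop]
theorem DefFun.mul [Mul T] [h : DefMul L M T] {f g : S → T} (hf : DefFun L M f)
    (hg : DefFun L M g) : DefFun L M (fun s => f s * g s) :=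
  DefFun.comp (g := fun s => (f s, g s)) h.out (hf.prodMk hg)

@[fun_prop]
theorem DefFun.inv [Group T] [DefMul L M T] {f : S → T} (hf : DefFun L M f) :
    DefFun L M (fun s => (f s)⁻¹) :=
  DefFun.of_graph (R := fun s t => f s * t = 1) (by fun_prop) fun s t => by
    rw [mul_eq_one_iff_inv_eq]

@[fun_prop]
theorem DefFun.neg [AddGroup T] [DefAdd L M T] {f : S → T} (hf : DefFun L M f) :
    DefFun L M (fun s => -(f s)) :=
  DefFun.of_graph (R := fun s t => f s + t = 0) (by fun_prop) fun s t => by
    rw [add_eq_zero_iff_neg_eq]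

theorem DefFun.gsub [AddGroup T] [DefAdd L M T] {f g : S → T} (hf : DefFun L M f)
    (hg : DefFun L M g) : DefFun L M (fun s => f s - g s) :=
  DefFun.congr (f := fun s => f s + -(g s)) (by fun_prop) fun s => (sub_eq_add_neg _ _).symm

@[fun_prop]
theorem DefFun.bracket [Group T] [DefMul L M T] {f g : S → T} (hf : DefFun L M f)
    (hg : DefFun L M g) : DefFun L M (fun s => (⁅f s, g s⁆ : T)) :=
  DefFun.congr (f := fun s => f s * g s * (f s)⁻¹ * (g s)⁻¹) (by fun_prop) fun _ => rfl

end Ops

/-- A surjection from the natural numbers. -/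
class NDec (T : Type) where
  nd : ℕ → T
  surj : Function.Surjective nd

instance : NDec ℕ := ⟨id, Function.surjective_id⟩

instance {S T : Type} [NDec S] [NDec T] : NDec (S × T) where
  nd n := (NDec.nd n.unpair.1, NDec.nd n.unpair.2)
  surj := by
    rintro ⟨s, t⟩
    obtain ⟨a, rfl⟩ := NDec.surj s
    obtain ⟨b, rfl⟩ := NDec.surj t
    exact ⟨Nat.pair a b, by simp⟩

/-- Decoding lists by the beta function. -/
def decList {T : Type} [NDec T] (n : ℕ) : List T :=
  (List.range n.unpair.1).map fun i => NDec.nd (Nat.beta n.unpair.2 i)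

theorem decList_surj {T : Type} [NDec T] : Function.Surjective (decList : ℕ → List T) := by
  intro l
  choose g hg using (NDec.surj : Function.Surjective (NDec.nd : ℕ → T))
  refine ⟨Nat.pair l.length (Nat.unbeta (l.map g)), ?_⟩
  apply List.ext_getElem
  · simp [decList]
  · intro i h1 h2
    have := Nat.beta_unbeta_coe (l.map g) ⟨i, by simpa using h2⟩
    simp only [decList, Nat.unpair_pair, List.getElem_map, List.getElem_range]
    simp only [Fin.getElem_fin, List.getElem_map] at this
    rw [this, hg]

instance {T : Type} [NDec T] : NDec (List T) := ⟨decList, decList_surj⟩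

instance {n : ℕ} : NDec (Fin (n + 1)) where
  nd j := ⟨j % (n + 1), Nat.mod_lt _ n.succ_pos⟩
  surj i := ⟨i, Fin.ext (Nat.mod_eq_of_lt i.2)⟩

instance : NDec Bool where
  nd j := decide (j = 0)
  surj b := by
    cases b
    · exact ⟨1, rfl⟩
    · exact ⟨0, rfl⟩

instance {α : Type} [NDec α] : NDec (FreeGroup α) where
  nd j := FreeGroup.mk (NDec.nd j)
  surj w := by
    obtain ⟨l⟩ := w
    obtain ⟨j, rfl⟩ := NDec.surj l
    exact ⟨j, rfl⟩

theorem list_eq_iff {T : Type} [Inhabited T] (l l' : List T) :
    l = l' ↔ l.length = l'.length ∧ ∀ i, i < l.length → l.getI i = l'.getI i := by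
  constructor
  · rintro rfl
    simp
  · rintro ⟨h1, h2⟩
    apply List.ext_getElem h1
    intro i hi hi'
    have := h2 i hi
    rwa [List.getI_eq_getElem _ hi, List.getI_eq_getElem _ hi'] at this

theorem getI_map_range {T : Type} [Inhabited T] (f : ℕ → T) {n i : ℕ} (h : i < n) :
    ((List.range n).map f).getI i = f i := by
  rw [List.getI_eq_getElem _ (by simpa using h)]
  simp

section Arith

variable (L : FirstOrder.Language.{0, 0}) (M : Type) [L.Structure M] [Enc L M ℕ]

/-- The decoding map from the natural numbers is definable. -/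
class NDef (T : Type) [Enc L M T] [NDec T] : Prop where
  out : DefFun L M (NDec.nd : ℕ → T)

variable {L M} [Nontrivial M] [DefAdd L M ℕ] [DefMul L M ℕ]
variable {S T U : Type} [Enc L M S] [Enc L M T] [Enc L M U]

@[fun_prop]
theorem DefFun.nd [NDec T] [h : NDef L M T] {f : S → ℕ} (hf : DefFun L M f) :
    DefFun L M (fun s => (NDec.nd (f s) : T)) := h.out.comp hf

@[fun_prop]
theorem DefFun.le {f g : S → ℕ} (hf : DefFun L M f) (hg : DefFun L M g) :
    DefFun L M (fun s => f s ≤ g s) :=
  DefFun.congr_iff (P := fun s => ∃ c, f s + c = g s) (by fun_prop) fun s =>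
    ⟨fun ⟨c, hc⟩ => by omega, fun h => ⟨g s - f s, by omega⟩⟩

@[fun_prop]
theorem DefFun.lt {f g : S → ℕ} (hf : DefFun L M f) (hg : DefFun L M g) :
    DefFun L M (fun s => f s < g s) :=
  DefFun.congr_iff (P := fun s => f s + 1 ≤ g s) (by fun_prop) fun _ => Iff.rfl

@[fun_prop]
theorem DefFun.nsub {f g : S → ℕ} (hf : DefFun L M f) (hg : DefFun L M g) :
    DefFun L M (fun s => f s - g s) :=
  DefFun.of_graph (R := fun s t => (f s ≤ g s ∧ t = 0) ∨ g s + t = f s) (by fun_prop)
    fun s t => by omega

@[fun_prop]
theorem DefFun.mod {f g : S → ℕ} (hf : DefFun L M f) (hg : DefFun L M g) :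
    DefFun L M (fun s => f s % g s) := by
  refine DefFun.of_graph (R := fun s t => (g s = 0 ∧ t = f s) ∨
    (t < g s ∧ ∃ q, f s = g s * q + t)) (by fun_prop) fun s t => ?_
  constructor
  · rintro (⟨h1, h2⟩ | ⟨h1, q, h2⟩)
    · simp [h1, h2]
    · rw [h2, Nat.mul_add_mod, Nat.mod_eq_of_lt h1]
  · rintro rfl
    rcases Nat.eq_zero_or_pos (g s) with h | h
    · left; simp [h]
    · right
      exact ⟨Nat.mod_lt _ h, f s / g s, (Nat.div_add_mod _ _).symm⟩

@[fun_prop]
theorem DefFun.pair {f g : S → ℕ} (hf : DefFun L M f) (hg : DefFun L M g) :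
    DefFun L M (fun s => Nat.pair (f s) (g s)) :=
  DefFun.congr (f := fun s => if f s < g s then g s * g s + f s else f s * f s + f s + g s)
    (by fun_prop) fun _ => rfl

@[fun_prop]
theorem DefFun.unpair {f : S → ℕ} (hf : DefFun L M f) :
    DefFun L M (fun s => Nat.unpair (f s)) := by
  refine DefFun.of_graph (R := fun s t => Nat.pair t.1 t.2 = f s) (by fun_prop) fun s t => ?_
  constructor
  · intro h
    rw [← h, Nat.unpair_pair]
  · rintro rfl
    exact Nat.pair_unpair _

@[fun_prop]
theorem DefFun.beta {f g : S → ℕ} (hf : DefFun L M f) (hg : DefFun L M g) :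
    DefFun L M (fun s => Nat.beta (f s) (g s)) :=
  DefFun.congr (f := fun s => (f s).unpair.1 % ((g s + 1) * (f s).unpair.2 + 1))
    (by fun_prop) fun _ => rfl

instance : NDef L M ℕ := ⟨DefFun.id⟩

instance [NDec S] [NDec T] [NDef L M S] [NDef L M T] : NDef L M (S × T) :=
  ⟨show DefFun L M (fun n : ℕ => ((NDec.nd n.unpair.1 : S), (NDec.nd n.unpair.2 : T))) by
    fun_prop⟩

theorem decList_ker [NDec T] [NDef L M T] :
    DefFun L M (fun p : ℕ × ℕ => True ∧ True ∧ (decList p.1 : List T) = decList p.2) := by
  refine DefFun.congr_iff (P := fun p : ℕ × ℕ => p.1.unpair.1 = p.2.unpair.1 ∧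
    All fun i => Imp (i < p.1.unpair.1)
      ((NDec.nd (Nat.beta p.1.unpair.2 i) : T) = NDec.nd (Nat.beta p.2.unpair.2 i)))
    (by fun_prop) fun p => ?_
  let : Inhabited T := ⟨NDec.nd 0⟩
  simp only [true_and, list_eq_iff, All, Imp, decList, List.length_map, List.length_range]
  refine and_congr_right fun h => forall_congr' fun i => forall_congr' fun hi => ?_
  rw [getI_map_range _ hi, getI_map_range _ (h ▸ hi)]

instance encList [NDec T] [NDef L M T] : Enc L M (List T) :=
  Enc.sub (fun _ : ℕ => True) decList (fun t => by simpa using decList_surj t)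
    (DefFun.const True) decList_ker

instance [NDec T] [NDef L M T] : NDef L M (List T) :=
  ⟨DefFun.of_graph (R := fun s t => True ∧ decList s = t)
    (Enc.sub_graph (fun _ : ℕ => True) decList (fun t => by simpa using decList_surj t)
      (DefFun.const True) decList_ker) fun _ _ => by simp [NDec.nd]⟩

variable [NDec T] [NDef L M T] [NDec U] [NDef L M U]

@[fun_prop]
theorem DefFun.length {f : S → List T} (hf : DefFun L M f) :
    DefFun L M (fun s => (f s).length) := by
  refine DefFun.of_graph (R := fun s t => ∃ c : ℕ, (NDec.nd c : List T) = f s ∧ c.unpair.1 = t)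
    (by fun_prop) fun s t => ?_
  constructor
  · rintro ⟨c, h1, rfl⟩
    simp [← h1, NDec.nd, decList]
  · rintro rfl
    obtain ⟨c, hc⟩ := decList_surj (f s)
    exact ⟨c, hc, by simp [← hc, decList]⟩

@[fun_prop]
theorem DefFun.getI [Inhabited T] {f : S → List T} {g : S → ℕ} (hf : DefFun L M f)
    (hg : DefFun L M g) : DefFun L M (fun s => (f s).getI (g s)) := by
  refine DefFun.of_graph (R := fun s t => ∃ c : ℕ, (NDec.nd c : List T) = f s ∧
    (if g s < c.unpair.1 then NDec.nd (Nat.beta c.unpair.2 (g s)) else default) = t)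
    (by fun_prop) fun s t => ?_
  have key : ∀ c : ℕ, (decList c : List T).getI (g s) =
      if g s < c.unpair.1 then NDec.nd (Nat.beta c.unpair.2 (g s)) else default := by
    intro c
    split_ifs with h
    · exact getI_map_range _ h
    · exact List.getI_eq_default _ (by simpa [decList] using h)
  constructor
  · rintro ⟨c, h1, rfl⟩
    rw [← h1, ← key]
    rfl
  · rintro rfl
    obtain ⟨c, hc⟩ := decList_surj (f s)
    exact ⟨c, hc, by rw [← key, hc]⟩

theorem DefFun.mapRange {f : S → ℕ → T} {g : S → ℕ}
    (hf : DefFun L M (fun p : S × ℕ => f p.1 p.2)) (hg : DefFun L M g) :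
    DefFun L M (fun s => (List.range (g s)).map (f s)) := by
  let : Inhabited T := ⟨NDec.nd 0⟩
  refine DefFun.of_graph (R := fun s t => g s = t.length ∧
    All fun i => Imp (i < g s) (f s i = t.getI i)) (by fun_prop) fun s t => ?_
  simp only [list_eq_iff, All, Imp, List.length_map, List.length_range]
  refine and_congr_right fun h => forall_congr' fun i => forall_congr' fun hi => ?_
  rw [getI_map_range _ hi]

@[fun_prop]
theorem DefFun.range {g : S → ℕ} (hg : DefFun L M g) :
    DefFun L M (fun s => List.range (g s)) :=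
  (DefFun.mapRange (f := fun _ i => i) (by fun_prop) hg).congr fun s => by simp

@[fun_prop]
theorem DefFun.map {f : S → U → T} {g : S → List U}
    (hf : DefFun L M (fun p : S × U => f p.1 p.2)) (hg : DefFun L M g) :
    DefFun L M (fun s => List.map (f s) (g s)) := by
  let : Inhabited U := ⟨NDec.nd 0⟩
  refine (DefFun.mapRange (f := fun s i => f s ((g s).getI i)) (g := fun s => (g s).length)
    (by fun_prop) (by fun_prop)).congr fun s => ?_
  apply List.ext_getElem (by simp)
  intro i h1 h2
  simp only [List.getElem_map, List.getElem_range]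
  rw [List.getI_eq_getElem]

@[fun_prop]
theorem DefFun.cons {f : S → T} {g : S → List T} (hf : DefFun L M f) (hg : DefFun L M g) :
    DefFun L M (fun s => f s :: g s) := by
  let : Inhabited T := ⟨NDec.nd 0⟩
  refine (DefFun.mapRange (f := fun s i => if i = 0 then f s else (g s).getI (i - 1))
    (g := fun s => (g s).length + 1) (by fun_prop) (by fun_prop)).congr fun s => ?_
  apply List.ext_getElem (by simp)
  intro i h1 h2
  simp only [List.getElem_map, List.getElem_range]
  cases i with
  | zero => simp
  | succ i =>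
    simp only [Nat.add_eq_zero_iff, one_ne_zero, and_false, if_false, Nat.add_sub_cancel,
      List.getElem_cons_succ]
    rw [List.getI_eq_getElem]

@[fun_prop]
theorem DefFun.append {f g : S → List T} (hf : DefFun L M f) (hg : DefFun L M g) :
    DefFun L M (fun s => f s ++ g s) := by
  let : Inhabited T := ⟨NDec.nd 0⟩
  refine (DefFun.mapRange
    (f := fun s i => if i < (f s).length then (f s).getI i else (g s).getI (i - (f s).length))
    (g := fun s => (f s).length + (g s).length) (by fun_prop) (by fun_prop)).congr fun s => ?_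
  apply List.ext_getElem (by simp)
  intro i h1 h2
  simp only [List.getElem_map, List.getElem_range, List.getElem_append]
  split_ifs with h
  · rw [List.getI_eq_getElem]
  · rw [List.getI_eq_getElem]

@[fun_prop]
theorem DefFun.tail {g : S → List T} (hg : DefFun L M g) :
    DefFun L M (fun s => (g s).tail) := by
  let : Inhabited T := ⟨NDec.nd 0⟩
  refine (DefFun.mapRange (f := fun s i => (g s).getI (i + 1))
    (g := fun s => (g s).length - 1) (by fun_prop) (by fun_prop)).congr fun s => ?_
  apply List.ext_getElem (by simp)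
  intro i h1 h2
  simp only [List.getElem_map, List.getElem_range, List.getElem_tail]
  rw [List.getI_eq_getElem]

@[fun_prop]
theorem DefFun.mem {f : S → T} {g : S → List T} (hf : DefFun L M f) (hg : DefFun L M g) :
    DefFun L M (fun s => f s ∈ g s) := by
  let : Inhabited T := ⟨NDec.nd 0⟩
  refine DefFun.congr_iff (P := fun s => ∃ i, i < (g s).length ∧ (g s).getI i = f s)
    (by fun_prop) fun s => ?_
  rw [List.mem_iff_getElem]
  constructor
  · rintro ⟨i, h1, h2⟩
    exact ⟨i, h1, by rwa [List.getI_eq_getElem _ h1] at h2⟩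
  · rintro ⟨i, h1, h2⟩
    exact ⟨i, h1, by rwa [List.getI_eq_getElem _ h1]⟩

@[fun_prop]
theorem DefFun.foldr {f : S → U → T → T} {b : S → T} {g : S → List U}
    (hf : DefFun L M (fun p : S × U × T => f p.1 p.2.1 p.2.2)) (hb : DefFun L M b)
    (hg : DefFun L M g) : DefFun L M (fun s => List.foldr (f s) (b s) (g s)) := by
  let : Inhabited T := ⟨NDec.nd 0⟩
  let : Inhabited U := ⟨NDec.nd 0⟩
  have hf' : ∀ {V : Type} [Enc L M V] {x : V → S} {y : V → U} {z : V → T}, DefFun L M x →
      DefFun L M y → DefFun L M z → DefFun L M (fun v => f (x v) (y v) (z v)) := by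
    intro V _ x y z hx hy hz
    exact DefFun.comp (g := fun v => (x v, y v, z v)) hf (by fun_prop)
  refine DefFun.of_graph (R := fun s y => ∃ t : List T, t.getI (g s).length = b s ∧
    (All fun i => Imp (i < (g s).length) (t.getI i = f s ((g s).getI i) (t.getI (i + 1)))) ∧
    t.getI 0 = y) ?_ fun s y => ?_
  · refine DefFun.ex (DefFun.and (by fun_prop) (DefFun.and (DefFun.all (DefFun.imp (by fun_prop)
      (DefFun.eq (by fun_prop) (hf' ?_ ?_ ?_)))) (by fun_prop))) <;> fun_prop
  have hdrop : ∀ i, i < (g s).length → List.foldr (f s) (b s) ((g s).drop i) =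
      f s ((g s).getI i) (List.foldr (f s) (b s) ((g s).drop (i + 1))) := by
    intro i hi
    rw [List.drop_eq_getElem_cons hi, List.foldr_cons, List.getI_eq_getElem _ hi]
  constructor
  · rintro ⟨t, h1, h2, rfl⟩
    have key : ∀ j i, i + j = (g s).length →
        List.foldr (f s) (b s) ((g s).drop i) = t.getI i := by
      intro j
      induction j with
      | zero =>
        intro i hi
        have : i = (g s).length := by omega
        subst this
        simp [h1]
      | succ j ih =>
        intro i hi
        rw [hdrop i (by omega), ih (i + 1) (by omega), h2 i (by omega)]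
    simpa using key (g s).length 0 (by simp)
  · rintro rfl
    refine ⟨(List.range ((g s).length + 1)).map fun i => List.foldr (f s) (b s) ((g s).drop i),
      ?_, ?_, ?_⟩
    · rw [getI_map_range _ (by omega)]
      simp
    · intro i hi
      rw [getI_map_range _ (by omega), getI_map_range _ (by omega), hdrop i hi]
    · rw [getI_map_range _ (by omega)]
      simp

@[fun_prop]
theorem DefFun.prod [Monoid T] [DefMul L M T] {g : S → List T} (hg : DefFun L M g) :
    DefFun L M (fun s => (g s).prod) :=
  DefFun.congr (f := fun s => List.foldr (fun a b => a * b) 1 (g s)) (by fun_prop)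
    fun _ => List.prod_eq_foldr.symm

@[fun_prop]
theorem DefFun.sum [AddMonoid T] [DefAdd L M T] {g : S → List T} (hg : DefFun L M g) :
    DefFun L M (fun s => (g s).sum) :=
  DefFun.congr (f := fun s => List.foldr (fun a b => a + b) 0 (g s)) (by fun_prop)
    fun _ => List.sum_eq_foldr.symm

@[fun_prop]
theorem DefFun.pow [Monoid T] [DefMul L M T] {f : S → T} {g : S → ℕ} (hf : DefFun L M f)
    (hg : DefFun L M g) : DefFun L M (fun s => f s ^ g s) :=
  DefFun.congr (f := fun s => ((List.range (g s)).map fun _ => f s).prod) (by fun_prop)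
    fun s => by simp

theorem DefFun.closure [Group T] [DefMul L M T] {P : S → T → Prop} {g : S → T}
    (hP : DefFun L M (fun p : S × T => P p.1 p.2)) (hg : DefFun L M g) :
    DefFun L M (fun s => g s ∈ Subgroup.closure {y | P s y}) := by
  refine DefFun.congr_iff (P := fun s => ∃ l : List T,
    (All fun y => Imp (y ∈ l) (P s y ∨ P s y⁻¹)) ∧ l.prod = g s) (by fun_prop) fun s => ?_
  constructor
  · rintro ⟨l, h1, h2⟩
    rw [← h2]
    refine Subgroup.list_prod_mem _ fun y hy => ?_
    rcases h1 y hy with h | h
    · exact Subgroup.subset_closure h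
    · exact (Subgroup.inv_mem_iff _).mp (Subgroup.subset_closure h)
  · intro h
    have h' : g s ∈ (Subgroup.closure {y | P s y}).toSubmonoid := h
    rw [Subgroup.closure_toSubmonoid] at h'
    obtain ⟨l, h1, h2⟩ := Submonoid.exists_list_of_mem_closure h'
    exact ⟨l, fun y hy => h1 y hy, h2⟩

theorem DefFun.derived [Group T] [DefMul L M T] (k : ℕ) :
    DefFun L M (fun t : T => t ∈ derivedSeries T k) := by
  induction k with
  | zero => exact (DefFun.const True).congr_iff fun t => by simp
  | succ k ih =>
    have := DefFun.closure (L := L) (M := M) (S := T) (P := fun _ y => ∃ g₁ : T,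
      g₁ ∈ derivedSeries T k ∧ ∃ g₂ : T, g₂ ∈ derivedSeries T k ∧ ⁅g₁, g₂⁆ = y)
      (g := fun t => t) (by fun_prop) (by fun_prop)
    exact this.congr_iff fun t => by rw [derivedSeries_succ, Subgroup.commutator_def]

theorem fin_ker (n : ℕ) : DefFun L M (fun p : ℕ × ℕ =>
    True ∧ True ∧ (NDec.nd p.1 : Fin (n + 1)) = NDec.nd p.2) :=
  DefFun.congr_iff (P := fun p : ℕ × ℕ => p.1 % (n + 1) = p.2 % (n + 1)) (by fun_prop)
    fun p => by simp [NDec.nd]

instance encFin (n : ℕ) : Enc L M (Fin (n + 1)) :=
  Enc.sub (fun _ : ℕ => True) NDec.nd (fun t => by simpa using NDec.surj t)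
    (DefFun.const True) (fin_ker n)

instance (n : ℕ) : NDef L M (Fin (n + 1)) :=
  ⟨DefFun.of_graph (R := fun s t => True ∧ NDec.nd s = t)
    (Enc.sub_graph (fun _ : ℕ => True) NDec.nd (fun t => by simpa using NDec.surj t)
      (DefFun.const True) (fin_ker n)) fun _ _ => by simp⟩

theorem bool_ker : DefFun L M (fun p : ℕ × ℕ =>
    True ∧ True ∧ (NDec.nd p.1 : Bool) = NDec.nd p.2) :=
  DefFun.congr_iff (P := fun p : ℕ × ℕ => (p.1 = 0 ↔ p.2 = 0)) (by fun_prop)
    fun p => by simp [NDec.nd]

instance encBool : Enc L M Bool :=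
  Enc.sub (fun _ : ℕ => True) NDec.nd (fun t => by simpa using NDec.surj t)
    (DefFun.const True) bool_ker

instance : NDef L M Bool :=
  ⟨DefFun.of_graph (R := fun s t => True ∧ NDec.nd s = t)
    (Enc.sub_graph (fun _ : ℕ => True) NDec.nd (fun t => by simpa using NDec.surj t)
      (DefFun.const True) bool_ker) fun _ _ => by simp⟩

@[fun_prop]
theorem DefFun.bnot {f : S → Bool} (hf : DefFun L M f) : DefFun L M (fun s => !(f s)) :=
  (DefFun.of_finite Bool.not).comp hf

theorem DefFun.reduce [DecidableEq T] :
    DefFun L M (fun l : List (T × Bool) => FreeGroup.reduce l) := by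
  let : Inhabited T := ⟨NDec.nd 0⟩
  refine DefFun.congr (f := fun l : List (T × Bool) => List.foldr (fun a ih =>
    if ih = [] then [a] else if a.1 = (ih.getI 0).1 ∧ a.2 = !(ih.getI 0).2 then ih.tail
      else a :: ih) [] l) (by fun_prop) fun l => ?_
  induction l with
  | nil => rfl
  | cons a l ih =>
    rw [List.foldr_cons, ih, FreeGroup.reduce.cons]
    cases FreeGroup.reduce l with
    | nil => simp
    | cons b t => simp

theorem free_ker : DefFun L M (fun p : List (T × Bool) × List (T × Bool) =>
    True ∧ True ∧ FreeGroup.mk p.1 = FreeGroup.mk p.2) := by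
  classical
  have := DefFun.reduce (L := L) (M := M) (T := T)
  exact DefFun.congr_iff (P := fun p : List (T × Bool) × List (T × Bool) =>
    FreeGroup.reduce p.1 = FreeGroup.reduce p.2) (by fun_prop)
    fun p => by simpa using ⟨FreeGroup.reduce.exact, FreeGroup.reduce.sound⟩

theorem free_surj {T : Type} (t : FreeGroup T) :
    ∃ s : List (T × Bool), True ∧ FreeGroup.mk s = t := by
  obtain ⟨l⟩ := t
  exact ⟨l, trivial, rfl⟩

instance encFree : Enc L M (FreeGroup T) :=
  Enc.sub (fun _ : List (T × Bool) => True) FreeGroup.mk free_surj (DefFun.const True) free_ker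

@[fun_prop]
theorem DefFun.freeMk {f : S → List (T × Bool)} (hf : DefFun L M f) :
    DefFun L M (fun s => FreeGroup.mk (f s)) :=
  DefFun.comp (DefFun.of_graph (R := fun s t => True ∧ FreeGroup.mk s = t)
    (Enc.sub_graph (fun _ : List (T × Bool) => True) FreeGroup.mk free_surj
      (DefFun.const True) free_ker) fun _ _ => by simp) hf

instance : NDef L M (FreeGroup T) :=
  ⟨show DefFun L M (fun j : ℕ => FreeGroup.mk (NDec.nd j : List (T × Bool))) by fun_prop⟩

instance : DefMul L M (FreeGroup T) := by
  refine ⟨DefFun.of_graph (R := fun p z => ∃ l l' : List (T × Bool), FreeGroup.mk l = p.1 ∧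
    FreeGroup.mk l' = p.2 ∧ FreeGroup.mk (l ++ l') = z) (by fun_prop) fun p z => ?_⟩
  constructor
  · rintro ⟨l, l', h1, h2, rfl⟩
    rw [← h1, ← h2, FreeGroup.mul_mk]
  · rintro rfl
    obtain ⟨l, -, h1⟩ := free_surj p.1
    obtain ⟨l', -, h2⟩ := free_surj p.2
    exact ⟨l, l', h1, h2, by rw [← h1, ← h2, FreeGroup.mul_mk]⟩

end Arith

end Pool.Agent.Lib.MP_9cc2ee_lc
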