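import Pool.Agent.Lib.MP_9cc2ee_lc.Base

/-!
The evaluation of coded words is definable in the free solvable group of class three.
-/

set_option autoImplicit false
set_option linter.unusedSectionVars false

namespace Pool.Agent.Lib.MP_9cc2ee_lc

open FirstOrder Set
open scoped commutatorElement

variable {n : ℕ} {L : FirstOrder.Language.{0, 0}} [L.Structure (GG n)] [DefMul L (GG n) (GG n)]
  [Enc L (GG n) ℕ] [DefAdd L (GG n) ℕ] [DefMul L (GG n) ℕ]

theorem def_xb (hgr : DefFun L (GG n) (fun p : GG n × ℕ => (d1 n).π p.1 = xb 0 ^ p.2))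
    (i : Fin (n + 2)) : DefFun L (GG n) (fun p : GG n × ℕ => (d1 n).π p.1 = xb i ^ p.2) := by
  by_cases hi : i = 0
  · subst hi
    exact hgr
  refine DefFun.congr_iff (P := fun p : GG n × ℕ => ∃ g v h : GG n, (d1 n).π g = xb 0 ^ p.2 ∧
    (d2 n).π ⁅v, xx i⁆ = 1 ∧ (d2 n).π ⁅h, xx 0 * xx i⁆ = 1 ∧ (d1 n).π h = (d1 n).π (g * v) ∧
    (d1 n).π p.1 = (d1 n).π v) ?_ ?_
  · refine DefFun.ex (DefFun.ex (DefFun.ex (DefFun.and
      (DefFun.comp₂ (fun (g : GG n) (k : ℕ) => (d1 n).π g = xb 0 ^ k) hgr ?_ ?_)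
      (DefFun.and (def_cent ?_ _) (DefFun.and (def_cent ?_ _)
        (DefFun.and (def_eq1 ?_ ?_) (def_eq1 ?_ ?_))))))) <;> fun_prop
  rintro ⟨u, k⟩
  constructor
  · rintro ⟨g, v, h, h1, h2, h3, h4, h5⟩
    obtain ⟨r, hr⟩ := cent (j := 0) (by
      rw [(d1 n).D_mul, D_xx, D_xx]
      simp [Pi.single_eq_of_ne (Ne.symm hi)]) h3
    have h6 := cent_xx h2
    rw [map_mul, h1, h6, hr, map_mul, d1_xx, d1_xx, mul_zpow, ← zpow_natCast] at h4
    have h7 := congrFun (congrArg Multiplicative.toAdd h4) 0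
    have h8 := congrFun (congrArg Multiplicative.toAdd h4) i
    simp only [toAdd_mul, Pi.add_apply, xb_pow, if_true, hi, Ne.symm hi, if_false, add_zero,
      zero_add] at h7 h8
    rw [h5, h6, ← h8, h7, zpow_natCast]
  · intro h
    refine ⟨xx 0 ^ k, xx i ^ k, (xx 0 * xx i) ^ k, by rw [map_pow, d1_xx], ?_, ?_, ?_, ?_⟩
    · simpa using cent_pow (xx i) k
    · simpa only [zpow_natCast] using cent_pow (xx 0 * xx i) k
    · simp only [map_pow, map_mul, mul_pow]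
    · rw [h, map_pow, d1_xx]

theorem def_pp1 (hgr : DefFun L (GG n) (fun p : GG n × ℕ => (d1 n).π p.1 = xb 0 ^ p.2))
    (gs : List (FG n)) (hgs : ∀ g ∈ gs, g ∈ gens n) :
    DefFun L (GG n) (fun p : GG n × List ℕ => (d1 n).π p.1 = π1 n (pp gs p.2)) := by
  induction gs with
  | nil =>
    exact (def_N1.comp (g := fun p : GG n × List ℕ => p.1) (by fun_prop)).congr_iff fun p => by
      simp [pp]
  | cons g gs ih =>
    have ih' := ih fun g' hg' => hgs g' (List.mem_cons_of_mem _ hg')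
    have hg : DefFun L (GG n) (fun p : GG n × ℕ => (d1 n).π p.1 = π1 n g ^ p.2) := by
      obtain ⟨i, rfl | rfl⟩ := mem_gens.mp (hgs g List.mem_cons_self)
      · rw [π1_X]
        exact def_xb hgr i
      · refine (DefFun.comp₂ (fun (g : GG n) (k : ℕ) => (d1 n).π g = xb i ^ k) (def_xb hgr i)
          (g := fun p : GG n × ℕ => p.1⁻¹) (h := fun p : GG n × ℕ => p.2) (by fun_prop)
          (by fun_prop)).congr_iff fun p => ?_
        rw [map_inv, map_inv, π1_X, inv_pow, inv_eq_iff_eq_inv]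
        rfl
    refine DefFun.congr_iff (P := fun p : GG n × List ℕ => ∃ a b : GG n,
      (d1 n).π a = π1 n g ^ (p.2.getI 0) ∧ (d1 n).π b = π1 n (pp gs p.2.tail) ∧
      (d1 n).π p.1 = (d1 n).π (a * b)) ?_ ?_
    · refine DefFun.ex (DefFun.ex (DefFun.and
        (DefFun.comp₂ (fun (a : GG n) (k : ℕ) => (d1 n).π a = π1 n g ^ k) hg ?_ ?_)
        (DefFun.and (DefFun.comp₂ (fun (a : GG n) (es : List ℕ) => (d1 n).π a = π1 n (pp gs es))
          ih' ?_ ?_) (def_eq1 ?_ ?_)))) <;> fun_prop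
    rintro ⟨u, es⟩
    constructor
    · rintro ⟨a, b, h1, h2, h3⟩
      rw [h3, map_mul, h1, h2, pp, map_mul, map_pow]
    · intro h
      exact ⟨pG n (g ^ es.getI 0), pG n (pp gs es.tail), by rw [d1_π, map_pow], d1_π _,
        by rw [h, ← map_mul, d1_π, pp]⟩

theorem def_code1 (hgr : DefFun L (GG n) (fun p : GG n × ℕ => (d1 n).π p.1 = xb 0 ^ p.2)) :
    DefFun L (GG n) (fun c : FG n × GG n => (d1 n).π (pG n c.1) = (d1 n).π c.2) := by
  have h1 := def_pp1 hgr (gens n) fun _ h => h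
  have h2 := def_pp (L := L) (M := GG n) (gens n)
  have h3 := DefFun.derived (L := L) (M := GG n) (T := FG n) 1
  refine DefFun.congr_iff (P := fun c : FG n × GG n => ∃ es : List ℕ,
    c.1 * (pp (gens n) es)⁻¹ ∈ derivedSeries (FG n) 1 ∧ (d1 n).π c.2 = π1 n (pp (gens n) es)) ?_ ?_
  · refine DefFun.ex (DefFun.and (h3.comp ?_) (DefFun.comp₂
      (fun (a : GG n) (es : List ℕ) => (d1 n).π a = π1 n (pp (gens n) es)) h1 ?_ ?_)) <;> fun_prop
  rintro ⟨w, g⟩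
  simp only [← π1_eq_one, map_mul, map_inv, mul_inv_eq_one, d1_π]
  constructor
  · rintro ⟨es, h4, h5⟩
    rw [h4, h5]
  · intro h
    obtain ⟨es, h4⟩ := exists_pp_gens w
    exact ⟨es, h4.symm, by rw [h4, h]⟩

theorem def_code2 (hgr : DefFun L (GG n) (fun p : GG n × ℕ => (d1 n).π p.1 = xb 0 ^ p.2)) :
    DefFun L (GG n) (fun c : FG n × GG n => (d2 n).π (pG n c.1) = (d2 n).π c.2) := by
  have h1 := def_code1 hgr
  have hZ := step (L := L) (d1 n) d1_surj (pG n) pG_surj def_N1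
    (def_N2.congr_iff fun g => (d1_ker g).symm) h1
    ((DefFun.derived (T := FG n) 2).congr_iff fun w => by rw [d1_ker, d2_π, π2_eq_one])
    (X 0) (by rw [d1_π]; exact Q1_not_fin (π1_X_ne_one 0))
    (gens n) (fun g hg => by rw [d1_π]; exact gens_not_fin g hg) 0 (by rw [d1_comp]; exact propS1)
    (comms n) (fun a ha => by rw [d1_π]; exact comms_ker a ha)
    (fun u hu => gen1 u (by rw [← d1_π]; exact hu))
  refine DefFun.congr_iff (P := fun c : FG n × GG n => (d1 n).π (pG n c.1) = (d1 n).π c.2 ∧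
    ((d1 n).π (pG n ⁅c.1, X 0⁆) = 1 ∧ (d1 n).π ⁅c.2, xx 0⁆ = 1 ∧
      (d1 n).D (pG n ⁅c.1, X 0⁆) = (d1 n).D ⁅c.2, xx 0⁆)) ?_ ?_
  · refine DefFun.and h1 (DefFun.comp₂ (fun (w : FG n) (g : GG n) => (d1 n).π (pG n w) = 1 ∧
      (d1 n).π g = 1 ∧ (d1 n).D (pG n w) = (d1 n).D g) hZ ?_ ?_) <;> fun_prop
  rintro ⟨w, g⟩
  simp only [map_commutatorElement (pG n)]
  constructor
  · rintro ⟨h2, -, -, h3⟩
    exact (d12_eq_iff _ _).mpr ⟨h2, (d1 n).pin (y := xx 0) (by rw [d1_xx]; exact xb_not_fin 0) h2 h3⟩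
  · intro h
    refine ⟨((d12_eq_iff _ _).mp h).1, d1_comm _ _, d1_comm _ _, ((d12_eq_iff _ _).mp ?_).2⟩
    rw [map_commutatorElement, map_commutatorElement, h]
    rfl

theorem def_pG (hgr : DefFun L (GG n) (fun p : GG n × ℕ => (d1 n).π p.1 = xb 0 ^ p.2)) :
    DefFun L (GG n) (pG n : FG n → GG n) := by
  have h1 := def_code2 hgr
  obtain ⟨q, hq⟩ := propS2 (n := n)
  have hZ := step (L := L) (d2 n) d2_surj (pG n) pG_surj def_N2
    (DefFun.congr_iff (P := fun g : GG n => g = 1) (by fun_prop) fun g => (d2_ker g).symm) h1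
    ((DefFun.derived (T := FG n) 3).congr_iff fun w => by rw [d2_ker, pG_eq_one])
    (X 0) (by rw [d2_π]; exact Q2_not_fin (π2_X_ne_one 0))
    (comms' n) (fun g hg => by rw [d2_π]; exact comms'_not_fin g hg) q
    (by rw [d2_comp]; exact hq)
    (comms2 n) (fun a ha => by rw [d2_π]; exact comms2_ker a ha)
    (fun u hu => gen2 u (by rw [← d2_π]; exact hu))
  refine DefFun.of_graph (R := fun w g => (d2 n).π (pG n w) = (d2 n).π g ∧
    ((d2 n).π (pG n ⁅⁅w, (X 0 : FG n)⁆, zz n⁆) = 1 ∧ (d2 n).π ⁅⁅g, (xx 0 : GG n)⁆, pG n (zz n)⁆ = 1 ∧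
      (d2 n).D (pG n ⁅⁅w, (X 0 : FG n)⁆, zz n⁆) = (d2 n).D ⁅⁅g, (xx 0 : GG n)⁆, pG n (zz n)⁆)) ?_ ?_
  · refine DefFun.and h1 (DefFun.comp₂ (fun (w : FG n) (g : GG n) => (d2 n).π (pG n w) = 1 ∧
      (d2 n).π g = 1 ∧ (d2 n).D (pG n w) = (d2 n).D g) hZ ?_ ?_) <;> fun_prop
  intro w g
  simp only [map_commutatorElement (pG n)]
  constructor
  · rintro ⟨h2, -, -, h3⟩
    have h4 := (d2 n).pin (y := pG n (zz n)) (by rw [d2_π]; exact Q2_not_fin π2_zz)
      (by rw [map_commutatorElement, map_commutatorElement, h2]; rfl) h3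
    exact (d2_eq_iff _ _).mpr ⟨h2, (d2 n).pin (y := xx 0)
      (by rw [xx, d2_π]; exact Q2_not_fin (π2_X_ne_one 0)) h2 h4⟩
  · rintro rfl
    exact ⟨rfl, (d1_iff _).mp (d1_comm _ _), (d1_iff _).mp (d1_comm _ _), rfl⟩

end Pool.Agent.Lib.MP_9cc2ee_lc
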