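import Mathlib

/-!
A small framework for definable sets and functions on types coded in a first-order structure.
-/

set_option autoImplicit false

namespace Pool.Agent.Lib.MP_9cc2ee_lc

open FirstOrder Set

/-- A type `T` coded in the structure `M`. -/
class Enc (L : FirstOrder.Language.{0, 0}) (M : Type) [L.Structure M] (T : Type) where
  ι : Type
  fin : Finite ι
  dom : Set (ι → M)
  dec : (ι → M) → T
  surj : ∀ t, ∃ v ∈ dom, dec v = t
  dom_def : (univ : Set M).Definable L dom
  eq_def : (univ : Set M).Definable L {v : ι ⊕ ι → M |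
    v ∘ Sum.inl ∈ dom ∧ v ∘ Sum.inr ∈ dom ∧ dec (v ∘ Sum.inl) = dec (v ∘ Sum.inr)}

attribute [instance] Enc.fin

section Basic

variable (L : FirstOrder.Language.{0, 0}) (M : Type) [L.Structure M]

/-- Definable predicates on a coded type. -/
def Def {T : Type} [e : Enc L M T] (P : T → Prop) : Prop :=
  (univ : Set M).Definable L {v : e.ι → M | v ∈ e.dom ∧ P (e.dec v)}

instance encBase : Enc L M M where
  ι := Fin 1
  fin := inferInstance
  dom := univ
  dec v := v 0
  surj t := ⟨fun _ => t, trivial, rfl⟩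
  dom_def := definable_univ
  eq_def := by
    have h1 : (univ : Set M).DefinableFun L (fun v : Fin 1 ⊕ Fin 1 → M => v (Sum.inl 0)) :=
      DefinableFun.proj L
    have h2 : (univ : Set M).DefinableFun L (fun v : Fin 1 ⊕ Fin 1 → M => v (Sum.inr 0)) :=
      DefinableFun.proj L
    convert h1.ofPred_eq h2 using 1
    ext v
    simp

instance encProd {S T : Type} [a : Enc L M S] [b : Enc L M T] : Enc L M (S × T) where
  ι := a.ι ⊕ b.ι
  fin := inferInstance
  dom := {v | v ∘ Sum.inl ∈ a.dom ∧ v ∘ Sum.inr ∈ b.dom}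
  dec v := (a.dec (v ∘ Sum.inl), b.dec (v ∘ Sum.inr))
  surj := by
    rintro ⟨s, t⟩
    obtain ⟨u, hu, rfl⟩ := a.surj s
    obtain ⟨w, hw, rfl⟩ := b.surj t
    exact ⟨Sum.elim u w, ⟨hu, hw⟩, rfl⟩
  dom_def := (a.dom_def.preimage_comp Sum.inl).inter (b.dom_def.preimage_comp Sum.inr)
  eq_def := by
    have h1 := a.eq_def.preimage_comp (β := (a.ι ⊕ b.ι) ⊕ (a.ι ⊕ b.ι))
      (Sum.map Sum.inl Sum.inl)
    have h2 := b.eq_def.preimage_comp (β := (a.ι ⊕ b.ι) ⊕ (a.ι ⊕ b.ι))
      (Sum.map Sum.inr Sum.inr)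
    convert h1.inter h2 using 1
    ext v
    simp only [mem_ofPred_eq, Prod.mk.injEq, mem_inter_iff, mem_preimage]
    constructor
    · rintro ⟨⟨h1, h2⟩, ⟨h3, h4⟩, h5, h6⟩
      exact ⟨⟨h1, h3, h5⟩, h2, h4, h6⟩
    · rintro ⟨⟨h1, h3, h5⟩, h2, h4, h6⟩
      exact ⟨⟨h1, h2⟩, ⟨h3, h4⟩, h5, h6⟩

instance encPi {κ T : Type} [Finite κ] [a : Enc L M T] : Enc L M (κ → T) where
  ι := κ × a.ι
  fin := inferInstance
  dom := {v | ∀ i, (fun j => v (i, j)) ∈ a.dom}
  dec v := fun i => a.dec (fun j => v (i, j))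
  surj := by
    intro t
    choose u hu hu' using fun i => a.surj (t i)
    exact ⟨fun p => u p.1 p.2, hu, funext hu'⟩
  dom_def := by
    have := definable_iInter_of_finite (A := (univ : Set M)) (L := L) fun i : κ =>
      a.dom_def.preimage_comp (β := κ × a.ι) (fun j => (i, j))
    convert this using 1
    ext v
    simp only [mem_ofPred_eq, mem_iInter, mem_preimage]
    rfl
  eq_def := by
    have := definable_iInter_of_finite (A := (univ : Set M)) (L := L) fun i : κ =>
      a.eq_def.preimage_comp (β := (κ × a.ι) ⊕ (κ × a.ι))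
        (Sum.map (fun j => (i, j)) (fun j => (i, j)))
    convert this using 1
    ext v
    simp only [mem_ofPred_eq, mem_iInter, mem_preimage, funext_iff]
    constructor
    · rintro ⟨h1, h2, h3⟩ i
      exact ⟨h1 i, h2 i, h3 i⟩
    · intro h
      exact ⟨fun i => (h i).1, fun i => (h i).2.1, fun i => (h i).2.2⟩

instance encProp [Nontrivial M] : Enc L M Prop where
  ι := Bool
  fin := inferInstance
  dom := univ
  dec v := v true = v false
  surj := by
    intro p
    by_cases hp : p
    · obtain ⟨a, -, -⟩ := exists_pair_ne M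
      exact ⟨fun _ => a, trivial, by simp [hp]⟩
    · obtain ⟨a, b, hab⟩ := exists_pair_ne M
      exact ⟨fun i => if i then a else b, trivial, by simp [hp, hab]⟩
  dom_def := definable_univ
  eq_def := by
    have h : ∀ i j : Bool ⊕ Bool, (univ : Set M).Definable L {v : Bool ⊕ Bool → M | v i = v j} :=
      fun i j => (DefinableFun.proj L).ofPred_eq (DefinableFun.proj L)
    convert ((h (Sum.inl true) (Sum.inl false)).inter (h (Sum.inr true) (Sum.inr false))).union
      ((h (Sum.inl true) (Sum.inl false)).compl.inter (h (Sum.inr true) (Sum.inr false)).compl)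
      using 1
    ext v
    simp only [mem_ofPred_eq, mem_univ, Function.comp_apply, eq_iff_iff, true_and, mem_union,
      mem_inter_iff, mem_compl_iff]
    tauto

/-- Definable functions between coded types. -/
@[fun_prop]
def DefFun {S T : Type} [Enc L M S] [Enc L M T] (f : S → T) : Prop :=
  Def L M (fun p : S × T => f p.1 = p.2)

variable {L M}

theorem defn_congr {α : Type} {s t : Set (α → M)} (h : (univ : Set M).Definable L s)
    (hst : ∀ v, v ∈ t ↔ v ∈ s) : (univ : Set M).Definable L t :=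
  (Set.ext hst : t = s) ▸ h

variable {S T U : Type} [a : Enc L M S] [b : Enc L M T] [c : Enc L M U]

theorem Def.congr {P Q : S → Prop} (h : Def L M P) (hPQ : ∀ s, P s ↔ Q s) : Def L M Q := by
  have : P = Q := funext fun s => propext (hPQ s)
  exact this ▸ h

theorem Def.top : Def L M (fun _ : S => True) := by
  unfold Def
  convert a.dom_def using 1
  ext v; simp

theorem Def.and {P Q : S → Prop} (hP : Def L M P) (hQ : Def L M Q) :
    Def L M (fun s => P s ∧ Q s) := by
  unfold Def at *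
  convert hP.inter hQ using 1
  ext v
  simp only [mem_ofPred_eq, mem_inter_iff]
  tauto

theorem Def.not {P : S → Prop} (hP : Def L M P) : Def L M (fun s => ¬ P s) := by
  unfold Def at *
  convert a.dom_def.inter hP.compl using 1
  ext v
  simp only [mem_ofPred_eq, mem_inter_iff, mem_compl_iff]
  tauto

theorem Def.or {P Q : S → Prop} (hP : Def L M P) (hQ : Def L M Q) :
    Def L M (fun s => P s ∨ Q s) :=
  (hP.not.and hQ.not).not.congr fun s => by tauto

theorem Def.ex {P : S → T → Prop} (h : Def L M (fun p : S × T => P p.1 p.2)) :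
    Def L M (fun s => ∃ t, P s t) := by
  unfold Def at *
  convert Definable.exists_of_finite (α := a.ι) (β := b.ι) h using 1
  ext v
  simp only [mem_ofPred_eq]
  constructor
  · rintro ⟨h1, t, ht⟩
    obtain ⟨w, hw, rfl⟩ := b.surj t
    exact ⟨w, ⟨h1, hw⟩, ht⟩
  · rintro ⟨w, ⟨h1, -⟩, h3⟩
    exact ⟨h1, _, h3⟩

theorem Def.reindex {P : T → Prop} (h : Def L M P) (f : S → T) (σ : b.ι → a.ι)
    (hσ : ∀ v ∈ a.dom, v ∘ σ ∈ b.dom ∧ b.dec (v ∘ σ) = f (a.dec v)) :
    Def L M (fun s => P (f s)) := by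
  unfold Def at *
  convert a.dom_def.inter (h.preimage_comp σ) using 1
  ext v
  simp only [mem_ofPred_eq, mem_inter_iff, mem_preimage]
  constructor
  · rintro ⟨h1, h2⟩
    exact ⟨h1, (hσ v h1).1, (hσ v h1).2 ▸ h2⟩
  · rintro ⟨h1, -, h3⟩
    exact ⟨h1, (hσ v h1).2 ▸ h3⟩

theorem Def.fst {P : S → Prop} (h : Def L M P) : Def L M (fun p : S × T => P p.1) :=
  h.reindex Prod.fst Sum.inl fun _ hv => ⟨hv.1, rfl⟩

theorem Def.snd {P : T → Prop} (h : Def L M P) : Def L M (fun p : S × T => P p.2) :=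
  h.reindex Prod.snd Sum.inr fun _ hv => ⟨hv.2, rfl⟩

theorem Def.eq : Def L M (fun p : S × S => p.1 = p.2) := by
  exact defn_congr a.eq_def fun v => and_assoc

theorem Def.eq_const (t : S) : Def L M (fun s : S => t = s) := by
  obtain ⟨w, hw, rfl⟩ := a.surj t
  unfold Def
  have hF : (univ : Set M).DefinableMap L (fun v : a.ι → M => Sum.elim w v) := by
    rintro (i | i)
    · exact L.definableFun_const _ (mem_univ _)
    · exact DefinableFun.proj L
  convert a.eq_def.preimage_map hF using 1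
  ext v
  simp only [mem_ofPred_eq, mem_preimage, Sum.elim_comp_inl, Sum.elim_comp_inr]
  tauto

theorem DefFun.preimage {f : S → T} (hf : DefFun L M f) {P : T → Prop} (hP : Def L M P) :
    Def L M (fun s => P (f s)) :=
  (Def.ex (P := fun s t => f s = t ∧ P t) (Def.and hf hP.snd)).congr fun s => by simp

@[fun_prop]
theorem DefFun.id : DefFun L M (fun s : S => s) := Def.eq

@[fun_prop]
theorem DefFun.const (t : T) : DefFun L M (fun _ : S => t) := (Def.eq_const t).snd

@[fun_prop]
theorem DefFun.comp {f : T → U} {g : S → T} (hf : DefFun L M f) (hg : DefFun L M g) :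
    DefFun L M (fun s => f (g s)) := by
  have h1 : Def L M (fun q : (S × U) × T => g q.1.1 = q.2) :=
    Def.reindex (P := fun p : S × T => g p.1 = p.2) hg (fun q : (S × U) × T => (q.1.1, q.2))
      (Sum.map Sum.inl _root_.id) fun v hv => ⟨⟨hv.1.1, hv.2⟩, rfl⟩
  have h2 : Def L M (fun q : (S × U) × T => f q.2 = q.1.2) :=
    Def.reindex (P := fun p : T × U => f p.1 = p.2) hf (fun q : (S × U) × T => (q.2, q.1.2))
      (Sum.elim Sum.inr (Sum.inl ∘ Sum.inr)) fun v hv => ⟨⟨hv.2, hv.1.2⟩, rfl⟩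
  exact (Def.ex (P := fun (p : S × U) (t : T) => g p.1 = t ∧ f t = p.2) (h1.and h2)).congr
    fun p => by simp

theorem DefFun.fst' : DefFun L M (fun p : S × T => p.1) :=
  Def.reindex (P := fun p : S × S => p.1 = p.2) Def.eq (fun q : (S × T) × S => (q.1.1, q.2))
    (Sum.map Sum.inl _root_.id) fun _ hv => ⟨⟨hv.1.1, hv.2⟩, rfl⟩

theorem DefFun.snd' : DefFun L M (fun p : S × T => p.2) :=
  Def.reindex (P := fun p : T × T => p.1 = p.2) Def.eq (fun q : (S × T) × T => (q.1.2, q.2))
    (Sum.map Sum.inr _root_.id) fun _ hv => ⟨⟨hv.1.2, hv.2⟩, rfl⟩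

@[fun_prop]
theorem DefFun.fst {f : U → S × T} (hf : DefFun L M f) : DefFun L M (fun u => (f u).1) :=
  DefFun.comp DefFun.fst' hf

@[fun_prop]
theorem DefFun.snd {f : U → S × T} (hf : DefFun L M f) : DefFun L M (fun u => (f u).2) :=
  DefFun.comp DefFun.snd' hf

@[fun_prop]
theorem DefFun.prodMk {f : U → S} {g : U → T} (hf : DefFun L M f) (hg : DefFun L M g) :
    DefFun L M (fun u => (f u, g u)) := by
  have h1 : Def L M (fun q : U × (S × T) => f q.1 = q.2.1) :=
    Def.reindex (P := fun p : U × S => f p.1 = p.2) hf (fun q : U × (S × T) => (q.1, q.2.1))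
      (Sum.map _root_.id Sum.inl) fun v hv => ⟨⟨hv.1, hv.2.1⟩, rfl⟩
  have h2 : Def L M (fun q : U × (S × T) => g q.1 = q.2.2) :=
    Def.reindex (P := fun p : U × T => g p.1 = p.2) hg (fun q : U × (S × T) => (q.1, q.2.2))
      (Sum.map _root_.id Sum.inr) fun v hv => ⟨⟨hv.1, hv.2.2⟩, rfl⟩
  exact (h1.and h2).congr fun q => by simp [Prod.ext_iff]

theorem DefFun.comp₂ {V : Type} [Enc L M V] (f : S → T → U) {g : V → S} {h : V → T}
    (hf : DefFun L M (fun p : S × T => f p.1 p.2)) (hg : DefFun L M g) (hh : DefFun L M h) :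
    DefFun L M (fun v => f (g v) (h v)) :=
  DefFun.comp (g := fun v => (g v, h v)) hf (hg.prodMk hh)

theorem DefFun.graph {f : S → T} (hf : DefFun L M f) : Def L M (fun p : S × T => f p.1 = p.2) := hf

theorem DefFun.eval {κ : Type} [Finite κ] (i : κ) : DefFun L M (fun w : κ → T => w i) :=
  Def.reindex (P := fun p : T × T => p.1 = p.2) Def.eq (fun q : (κ → T) × T => (q.1 i, q.2))
    (Sum.map (fun j => (i, j)) _root_.id) fun _ hv => ⟨⟨hv.1 i, hv.2⟩, rfl⟩

theorem DefFun.congr {f g : S → T} (h : DefFun L M f) (hfg : ∀ s, f s = g s) : DefFun L M g := by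
  have : f = g := funext hfg
  exact this ▸ h

variable [Nontrivial M]

theorem defFun_iff {P : S → Prop} : DefFun L M P ↔ Def L M P := by
  have hid : Def L M (fun p : Prop => p) := by
    unfold Def
    have h : (univ : Set M).Definable L {v : Bool → M | v true = v false} :=
      (DefinableFun.proj L).ofPred_eq (DefinableFun.proj L)
    exact defn_congr h fun v => ⟨fun h => h.2, fun h => ⟨trivial, h⟩⟩
  constructor
  · intro h
    exact h.preimage hid
  · intro h
    exact ((h.fst.and hid.snd).or (h.fst.not.and hid.snd.not)).congr fun p => by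
      simp only [eq_iff_iff]; tauto

theorem DefFun.congr_iff {P Q : S → Prop} (h : DefFun L M P) (hPQ : ∀ s, P s ↔ Q s) :
    DefFun L M Q := h.congr fun s => propext (hPQ s)

@[fun_prop]
theorem DefFun.and {P Q : S → Prop} (hP : DefFun L M P) (hQ : DefFun L M Q) :
    DefFun L M (fun s => P s ∧ Q s) :=
  defFun_iff.mpr ((defFun_iff.mp hP).and (defFun_iff.mp hQ))

@[fun_prop]
theorem DefFun.or {P Q : S → Prop} (hP : DefFun L M P) (hQ : DefFun L M Q) :
    DefFun L M (fun s => P s ∨ Q s) :=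
  defFun_iff.mpr ((defFun_iff.mp hP).or (defFun_iff.mp hQ))

@[fun_prop]
theorem DefFun.not {P : S → Prop} (hP : DefFun L M P) : DefFun L M (fun s => ¬ P s) :=
  defFun_iff.mpr (defFun_iff.mp hP).not

@[fun_prop]
theorem DefFun.iff {P Q : S → Prop} (hP : DefFun L M P) (hQ : DefFun L M Q) :
    DefFun L M (fun s => (P s ↔ Q s)) :=
  ((hP.and hQ).or (hP.not.and hQ.not)).congr_iff fun s => by tauto

@[fun_prop]
theorem DefFun.eq {f g : S → T} (hf : DefFun L M f) (hg : DefFun L M g) :
    DefFun L M (fun s => f s = g s) :=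
  defFun_iff.mpr ((hf.prodMk hg).preimage Def.eq)

@[fun_prop]
theorem DefFun.ne {f g : S → T} (hf : DefFun L M f) (hg : DefFun L M g) :
    DefFun L M (fun s => f s ≠ g s) := (hf.eq hg).not

@[fun_prop]
theorem DefFun.ex {P : S → T → Prop} (h : DefFun L M (fun p : S × T => P p.1 p.2)) :
    DefFun L M (fun s => Exists (P s)) :=
  defFun_iff.mpr (Def.ex (defFun_iff.mp h))

/-- Universal quantifier as a constant. -/
def All {T : Type} (P : T → Prop) : Prop := ∀ t, P t

/-- Implication as a constant. -/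
def Imp (p q : Prop) : Prop := p → q

@[fun_prop]
theorem DefFun.all {P : S → T → Prop} (h : DefFun L M (fun p : S × T => P p.1 p.2)) :
    DefFun L M (fun s => All (P s)) :=
  (DefFun.ex (P := fun s t => ¬ P s t) h.not).not.congr_iff fun s => by simp [All]

@[fun_prop]
theorem DefFun.imp {P Q : S → Prop} (hP : DefFun L M P) (hQ : DefFun L M Q) :
    DefFun L M (fun s => Imp (P s) (Q s)) :=
  (hP.not.or hQ).congr_iff fun s => by simp only [Imp]; tauto

/-- A function is definable when its graph is. -/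
theorem DefFun.of_graph {f : S → T} {R : S → T → Prop}
    (h : DefFun L M (fun p : S × T => R p.1 p.2)) (hR : ∀ s t, R s t ↔ f s = t) :
    DefFun L M f :=
  (defFun_iff.mp h).congr fun p => hR p.1 p.2

@[fun_prop]
theorem DefFun.ite {P : S → Prop} [DecidablePred P] {f g : S → T} (hP : DefFun L M P)
    (hf : DefFun L M f) (hg : DefFun L M g) : DefFun L M (fun s => ite (P s) (f s) (g s)) := by
  refine DefFun.of_graph (R := fun s t => (P s ∧ f s = t) ∨ (¬ P s ∧ g s = t)) (by fun_prop) ?_
  intro s t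
  by_cases h : P s <;> simp [h]

theorem DefFun.of_finite [Finite S] (f : S → T) : DefFun L M f := by
  classical
  have := Fintype.ofFinite S
  have key : ∀ u : Finset S, DefFun L M (fun p : S × T => ∃ s ∈ u, p.1 = s ∧ f s = p.2) := by
    intro u
    induction u using Finset.induction_on with
    | empty => exact (DefFun.const False).congr_iff fun p => by simp
    | insert s u hs ih =>
      refine DefFun.congr_iff (P := fun p : S × T => (p.1 = s ∧ f s = p.2) ∨
        ∃ s ∈ u, p.1 = s ∧ f s = p.2) (DefFun.or (by fun_prop) ih) fun p => by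
          simp only [Finset.mem_insert, exists_eq_or_imp]
  exact DefFun.of_graph (R := fun s' t => ∃ s ∈ Finset.univ, s' = s ∧ f s = t)
    (key Finset.univ) fun s t => by simp

/-- Coding a type through a definable subset of a coded type. -/
@[reducible] def Enc.sub {V : Type} (D : S → Prop) (f : S → V) (hs : ∀ t, ∃ s, D s ∧ f s = t)
    (hD : DefFun L M D)
    (hE : DefFun L M (fun p : S × S => D p.1 ∧ D p.2 ∧ f p.1 = f p.2)) : Enc L M V where
  ι := a.ι
  fin := a.fin
  dom := {v | v ∈ a.dom ∧ D (a.dec v)}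
  dec v := f (a.dec v)
  surj := by
    intro t
    obtain ⟨s, h1, rfl⟩ := hs t
    obtain ⟨v, hv, rfl⟩ := a.surj s
    exact ⟨v, ⟨hv, h1⟩, rfl⟩
  dom_def := defFun_iff.mp hD
  eq_def := by
    refine defn_congr (defFun_iff.mp hE) fun v => ?_
    constructor
    · rintro ⟨⟨h1, h2⟩, ⟨h3, h4⟩, h5⟩
      exact ⟨⟨h1, h3⟩, h2, h4, h5⟩
    · rintro ⟨⟨h1, h3⟩, h2, h4, h5⟩
      exact ⟨⟨h1, h2⟩, ⟨h3, h4⟩, h5⟩

/-- The decoding relation of a type coded through a definable subset is definable. -/
theorem Enc.sub_graph {V : Type} (D : S → Prop) (f : S → V) (hs : ∀ t, ∃ s, D s ∧ f s = t)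
    (hD : DefFun L M D)
    (hE : DefFun L M (fun p : S × S => D p.1 ∧ D p.2 ∧ f p.1 = f p.2)) :
    letI := Enc.sub D f hs hD hE
    DefFun L M (fun p : S × V => D p.1 ∧ f p.1 = p.2) := by
  have hE' := defFun_iff.mp hE
  let := Enc.sub D f hs hD hE
  rw [defFun_iff]
  refine defn_congr hE' fun v => ?_
  constructor
  · rintro ⟨⟨h1, h2, h3⟩, h4, h5⟩
    exact ⟨⟨h1, h2⟩, h4, h3, h5⟩
  · rintro ⟨⟨h1, h2⟩, h4, h3, h5⟩
    exact ⟨⟨h1, h2, h3⟩, h4, h5⟩

attribute [irreducible] DefFun

end Basic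

end Pool.Agent.Lib.MP_9cc2ee_lc
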