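import Pool.Agent.Lib.MP_9cc2ee_lc.Magnus

/-!
The relation modules are generated by finitely many elements up to cancellable multipliers.
-/

set_option autoImplicit false

namespace Pool.Agent.Lib.MP_9cc2ee_lc

open scoped commutatorElement

/-- Elements of the kernel whose derivative lies in a given submodule. -/
def kerSub {F Q κ : Type} [Group F] [Group Q] (e : Der F Q κ)
    (P : Submodule (ZR Q) (κ → ZR Q)) : Subgroup F where
  carrier := {u | e.π u = 1 ∧ e.D u ∈ P}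
  mul_mem' := by
    rintro a b ⟨h1, h2⟩ ⟨h3, h4⟩
    exact ⟨by simp [h1, h3], by rw [e.D_mul_ker h1]; exact P.add_mem h2 h4⟩
  one_mem' := ⟨by simp, by rw [e.D_one]; exact P.zero_mem⟩
  inv_mem' := by
    rintro a ⟨h1, h2⟩
    exact ⟨by simp [h1], by rw [e.D_inv_ker h1]; exact P.neg_mem h2⟩

instance {F Q κ : Type} [Group F] [Group Q] (e : Der F Q κ)
    (P : Submodule (ZR Q) (κ → ZR Q)) : (kerSub e P).Normal where
  conj_mem := by
    rintro a ⟨h1, h2⟩ y
    exact ⟨by simp [h1], by rw [e.D_conj y h1]; exact P.smul_mem _ h2⟩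

variable {n : ℕ}

/-- All commutators of generators. -/
noncomputable def comms (n : ℕ) : List (FG n) :=
  (Finset.univ : Finset (Fin (n + 2) × Fin (n + 2))).toList.map fun p => ⁅X p.1, X p.2⁆

theorem mem_comms (a b : Fin (n + 2)) : ⁅X a, X b⁆ ∈ comms n :=
  List.mem_map.mpr ⟨(a, b), by simp, rfl⟩

theorem comms_ker : ∀ a ∈ comms n, π1 n a = 1 := by
  intro a ha
  obtain ⟨p, -, rfl⟩ := List.mem_map.mp ha
  exact π1_comm _ _

theorem gen1 (u : FG n) (hu : π1 n u = 1) :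
    ∃ s : ZR (Q1 n), (∀ t : Fin (n + 2) → ZR (Q1 n), s • t = 0 → t = 0) ∧
      s • (fox (π1 n)).D u ∈ Submodule.span (ZR (Q1 n))
        ((fun a => (fox (π1 n)).D a) '' {a | a ∈ comms n}) := by
  refine ⟨1, fun t ht => by simpa using ht, ?_⟩
  rw [one_smul]
  refine (commutator_le_of_gens (kerSub (fox (π1 n)) _) ?_ (π1_eq_one.mp hu)).2
  intro a b
  exact ⟨by rw [fox_π]; exact π1_comm _ _, Submodule.subset_span ⟨_, mem_comms a b, rfl⟩⟩

/-- The commutator of the first two generators. -/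
def zz (n : ℕ) : FG n := ⁅(X 0 : FG n), (X 1 : FG n)⁆

theorem zz_def : zz n = ⁅(X 0 : FG n), (X 1 : FG n)⁆ := rfl

theorem π1_zz : π1 n (zz n) = 1 := π1_comm _ _

theorem π2_zz : π2 n (zz n) ≠ 1 := π2_comm_X_ne (by simp)

theorem π1_conj {c : FG n} (hc : π1 n c = 1) (y : FG n) : π1 n (y * c * y⁻¹) = 1 := by
  simp [hc]

/-- The multiplicative set generated by the conjugates of `z - 1`. -/
noncomputable def S0 (n : ℕ) : Submonoid (ZR (Q2 n)) :=
  Submonoid.closure {r | ∃ y : FG n, r = o (π2 n (y * zz n * y⁻¹)) - 1}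

theorem S0_commute_o {s : ZR (Q2 n)} (hs : s ∈ S0 n) {c : FG n} (hc : π1 n c = 1) :
    Commute s (o (π2 n c)) := by
  induction hs using Submonoid.closure_induction with
  | mem x hx =>
    obtain ⟨y, rfl⟩ := hx
    exact (o_comm (commute_of_mem (π1_conj π1_zz y) hc)).sub_left (Commute.one_left _)
  | one => exact Commute.one_left _
  | mul a b _ _ ha hb => exact ha.mul_left hb

theorem S0_commute {s s' : ZR (Q2 n)} (hs : s ∈ S0 n) (hs' : s' ∈ S0 n) : Commute s s' := by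
  induction hs' using Submonoid.closure_induction with
  | mem x hx =>
    obtain ⟨y, rfl⟩ := hx
    exact (S0_commute_o hs (π1_conj π1_zz y)).sub_right (Commute.one_right _)
  | one => exact Commute.one_right _
  | mul a b _ _ ha hb => exact ha.mul_right hb

theorem S0_conj {s : ZR (Q2 n)} (hs : s ∈ S0 n) (b : FG n) :
    ∃ s' ∈ S0 n, s' * o (π2 n b) = o (π2 n b) * s := by
  induction hs using Submonoid.closure_induction with
  | mem x hx =>
    obtain ⟨y, rfl⟩ := hx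
    refine ⟨_, Submonoid.subset_closure ⟨b * y, rfl⟩, ?_⟩
    rw [sub_mul, mul_sub, one_mul, mul_one, ← o_mul, ← o_mul, ← map_mul, ← map_mul]
    congr 3
    group
  | one => exact ⟨1, Submonoid.one_mem _, by simp⟩
  | mul a c _ _ ha hc =>
    obtain ⟨a', ha', h1⟩ := ha
    obtain ⟨c', hc', h2⟩ := hc
    exact ⟨a' * c', Submonoid.mul_mem _ ha' hc', by rw [mul_assoc, h2, ← mul_assoc, h1, mul_assoc]⟩

theorem S0_inj {s : ZR (Q2 n)} (hs : s ∈ S0 n) (t : Fin (n + 2) → ZR (Q2 n)) (h : s • t = 0) :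
    t = 0 := by
  induction hs using Submonoid.closure_induction generalizing t with
  | mem x hx =>
    obtain ⟨y, rfl⟩ := hx
    funext i
    refine eq_zero_of_sub_one_mul ?_ (congrFun h i)
    rw [map_mul, map_mul, map_inv]
    exact not_fin_conj _ (Q2_not_fin π2_zz)
  | one => simpa using h
  | mul a b _ _ ha hb =>
    rw [mul_smul] at h
    exact hb _ (ha _ h)

/-- The saturation of a submodule. -/
def sat (P : Submodule (ZR (Q2 n)) (Fin (n + 2) → ZR (Q2 n))) :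
    Submodule (ZR (Q2 n)) (Fin (n + 2) → ZR (Q2 n)) where
  carrier := {t | ∃ s ∈ S0 n, s • t ∈ P}
  add_mem' := by
    rintro a b ⟨s, hs, h1⟩ ⟨s', hs', h2⟩
    refine ⟨s * s', Submonoid.mul_mem _ hs hs', ?_⟩
    rw [smul_add]
    refine P.add_mem ?_ ?_
    · rw [(S0_commute hs hs').eq, mul_smul]
      exact P.smul_mem _ h1
    · rw [mul_smul]
      exact P.smul_mem _ h2
  zero_mem' := ⟨1, Submonoid.one_mem _, by simp⟩
  smul_mem' := by
    rintro r t ⟨s, hs, h1⟩
    induction r using MonoidAlgebra.induction_linear with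
    | zero => exact ⟨1, Submonoid.one_mem _, by simp⟩
    | add r r' hr hr' =>
      obtain ⟨s₁, hs₁, h2⟩ := hr
      obtain ⟨s₂, hs₂, h3⟩ := hr'
      refine ⟨s₁ * s₂, Submonoid.mul_mem _ hs₁ hs₂, ?_⟩
      rw [add_smul, smul_add]
      refine P.add_mem ?_ ?_
      · rw [(S0_commute hs₁ hs₂).eq, mul_smul]
        exact P.smul_mem _ h2
      · rw [mul_smul]
        exact P.smul_mem _ h3
    | single q k =>
      obtain ⟨b, rfl⟩ := π2_surj q
      obtain ⟨s', hs', h2⟩ := S0_conj hs b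
      refine ⟨s', hs', ?_⟩
      have e : (MonoidAlgebra.single (π2 n b) k : ZR (Q2 n)) = k • o (π2 n b) := by simp [o]
      rw [e, smul_assoc, smul_comm, smul_smul, h2, mul_smul]
      exact P.smul_of_tower_mem _ (P.smul_mem _ h1)

theorem le_sat (P : Submodule (ZR (Q2 n)) (Fin (n + 2) → ZR (Q2 n))) : P ≤ sat P :=
  fun t ht => ⟨1, Submonoid.one_mem _, by simpa using ht⟩

theorem mem_sat_of_smul {P : Submodule (ZR (Q2 n)) (Fin (n + 2) → ZR (Q2 n))}
    {t : Fin (n + 2) → ZR (Q2 n)} (h : (o (π2 n (zz n)) - 1) • t ∈ sat P) : t ∈ sat P := by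
  obtain ⟨s, hs, h1⟩ := h
  refine ⟨s * (o (π2 n (zz n)) - 1), Submonoid.mul_mem _ hs
    (Submonoid.subset_closure ⟨1, by simp⟩), by rwa [mul_smul]⟩

theorem D2_comm {c c' : FG n} (hc : π1 n c = 1) (hc' : π1 n c' = 1) :
    (fox (π2 n)).D ⁅c, c'⁆ =
      (1 - o (π2 n c')) • (fox (π2 n)).D c + (o (π2 n c) - 1) • (fox (π2 n)).D c' := by
  rw [(fox (π2 n)).D_comm' (by rw [fox_π]; exact comm_of_mem hc hc'), fox_π]

theorem jacobi {P : Submodule (ZR (Q2 n)) (Fin (n + 2) → ZR (Q2 n))} {c c' : FG n}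
    (hc : π1 n c = 1) (hc' : π1 n c' = 1) (h : (fox (π2 n)).D ⁅c, zz n⁆ ∈ sat P)
    (h' : (fox (π2 n)).D ⁅c', zz n⁆ ∈ sat P) : (fox (π2 n)).D ⁅c, c'⁆ ∈ sat P := by
  apply mem_sat_of_smul
  have e : (o (π2 n (zz n)) - 1) • (fox (π2 n)).D ⁅c, c'⁆ =
      (o (π2 n c') - 1) • (fox (π2 n)).D ⁅c, zz n⁆ +
        (1 - o (π2 n c)) • (fox (π2 n)).D ⁅c', zz n⁆ := by
    rw [D2_comm hc hc', D2_comm hc π1_zz, D2_comm hc' π1_zz]
    have h1 := (o_comm (commute_of_mem hc hc')).eq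
    have h2 := (o_comm (commute_of_mem hc π1_zz)).eq
    have h3 := (o_comm (commute_of_mem hc' π1_zz)).eq
    generalize o (π2 n c) = a at *
    generalize o (π2 n c') = b at *
    generalize o (π2 n (zz n)) = z at *
    simp only [smul_add, smul_smul]
    have e1 : (z - 1) * (1 - b) = (b - 1) * (1 - z) := by
      simp only [sub_mul, mul_sub, h3]; noncomm_ring
    have e2 : (z - 1) * (a - 1) = (1 - a) * (1 - z) := by
      simp only [sub_mul, mul_sub, h2]; noncomm_ring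
    have e3 : (1 - a) * (b - 1) = -((b - 1) * (a - 1)) := by
      simp only [sub_mul, mul_sub, h1]; noncomm_ring
    rw [e1, e2, e3, neg_smul]
    abel
  rw [e]
  exact Submodule.add_mem _ (Submodule.smul_mem _ _ h) (Submodule.smul_mem _ _ h')

/-- The finite list of elements of the second derived subgroup. -/
noncomputable def comms2 (n : ℕ) : List (FG n) :=
  (comms n ++ (Finset.univ : Finset (Fin (n + 2))).toList.map (fun i => (X i)⁻¹ * zz n * X i) ++
    (Finset.univ : Finset (Fin (n + 2))).toList.map (fun i => X i * zz n * (X i)⁻¹)).map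
      fun c => ⁅c, zz n⁆

theorem comms2_ker : ∀ a ∈ comms2 n, π2 n a = 1 := by
  intro a ha
  obtain ⟨c, hc, rfl⟩ := List.mem_map.mp ha
  refine comm_of_mem ?_ π1_zz
  simp only [List.mem_append, List.mem_map] at hc
  rcases hc with (hc | ⟨i, -, rfl⟩) | ⟨i, -, rfl⟩
  · exact comms_ker c hc
  · simp [π1_zz]
  · simp [π1_zz]

theorem gen2 (u : FG n) (hu : π2 n u = 1) :
    ∃ s : ZR (Q2 n), (∀ t : Fin (n + 2) → ZR (Q2 n), s • t = 0 → t = 0) ∧
      s • (fox (π2 n)).D u ∈ Submodule.span (ZR (Q2 n))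
        ((fun a => (fox (π2 n)).D a) '' {a | a ∈ comms2 n}) := by
  set P := Submodule.span (ZR (Q2 n)) ((fun a => (fox (π2 n)).D a) '' {a | a ∈ comms2 n}) with hP
  let e := fox (π2 n)
  have hπ : e.π = π2 n := fox_π _
  have hδ : ∀ c c', π1 n c = 1 → π1 n c' = 1 →
      e.D ⁅c * c', zz n⁆ = e.D ⁅c, zz n⁆ + o (π2 n c) • e.D ⁅c', zz n⁆ := by
    intro c c' hc hc'
    have : ⁅c * c', zz n⁆ = (c * ⁅c', zz n⁆ * c⁻¹) * ⁅c, zz n⁆ := by
      simp only [commutatorElement_def]; group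
    have h1 : e.π ⁅c', zz n⁆ = 1 := by rw [hπ]; exact comm_of_mem hc' π1_zz
    rw [this, e.D_mul_ker (by rw [map_mul, map_mul, h1]; simp), e.D_conj c h1, hπ]
    exact add_comm _ _
  let W : Subgroup (FG n) :=
    { carrier := {c | π1 n c = 1 ∧ e.D ⁅c, zz n⁆ ∈ sat P}
      mul_mem' := by
        rintro a b ⟨h1, h2⟩ ⟨h3, h4⟩
        exact ⟨by simp [h1, h3], by
          rw [hδ a b h1 h3]; exact Submodule.add_mem _ h2 (Submodule.smul_mem _ _ h4)⟩
      one_mem' := ⟨by simp, by simp [e.D_one]⟩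
      inv_mem' := by
        rintro a ⟨h1, h2⟩
        have h3 : π1 n a⁻¹ = 1 := by simp [h1]
        refine ⟨h3, ?_⟩
        have := hδ a⁻¹ a h3 h1
        rw [inv_mul_cancel, commutatorElement_one_left, e.D_one] at this
        rw [eq_neg_of_add_eq_zero_left this.symm]
        exact Submodule.neg_mem _ (Submodule.smul_mem _ _ h2) }
  have hconj : ∀ y : FG n, ⁅y⁻¹ * zz n * y, zz n⁆ ∈ comms2 n → ∀ c ∈ W, y * c * y⁻¹ ∈ W := by
    rintro y hy c ⟨h1, h2⟩
    refine ⟨π1_conj h1 y, ?_⟩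
    have h3 : π1 n (y⁻¹ * zz n * y) = 1 := by simp [π1_zz]
    have : ⁅y * c * y⁻¹, zz n⁆ = y * ⁅c, y⁻¹ * zz n * y⁆ * y⁻¹ := by
      simp only [commutatorElement_def]; group
    rw [this, e.D_conj y (by rw [hπ]; exact comm_of_mem h1 h3)]
    exact Submodule.smul_mem _ _ (jacobi h1 h3 h2 (le_sat P (Submodule.subset_span ⟨_, hy, rfl⟩)))
  have : W.Normal := by
    refine normal_of_gens W (fun a => hconj _ ?_) (fun a => hconj _ ?_)
    · exact List.mem_map.mpr ⟨_, by simp, rfl⟩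
    · rw [inv_inv]
      exact List.mem_map.mpr ⟨_, by simp, rfl⟩
  have hW : derivedSeries (FG n) 1 ≤ W := by
    refine commutator_le_of_gens W fun a b => ⟨π1_comm _ _,
      le_sat P (Submodule.subset_span ⟨_, ?_, rfl⟩)⟩
    exact List.mem_map.mpr ⟨_, by simp [mem_comms], rfl⟩
  have h2 : derivedSeries (FG n) 2 ≤ kerSub e (sat P) := by
    show ⁅derivedSeries (FG n) 1, derivedSeries (FG n) 1⁆ ≤ _
    rw [Subgroup.commutator_le]
    intro c hc c' hc'
    exact ⟨by rw [hπ]; exact comm_of_mem (hW hc).1 (hW hc').1,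
      jacobi (hW hc).1 (hW hc').1 (hW hc).2 (hW hc').2⟩
  obtain ⟨s, hs, h3⟩ := (h2 (π2_eq_one.mp hu)).2
  exact ⟨s, S0_inj hs, h3⟩

theorem exists_a0 : ∃ a : FG n, π2 n a = 1 ∧ (fox (π2 n)).D a ≠ 0 := by
  have hz1 : (fox (π2 n)).D (zz n) 1 = o (π2 n (X 0)) - o (π2 n (zz n)) := by
    rw [zz_def, (fox (π2 n)).D_comm, fox_of, fox_of, fox_π]
    simp
  have hx1 : (fox (π2 n)).D (X 0) 1 = 0 := by
    rw [fox_of]
    simp
  have hx : (π1 n (X 0)).toAdd 0 = 1 := by simp [π1_X]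
  generalize (X 0 : FG n) = x at hz1 hx1 hx
  have hz : π1 n (zz n) = 1 := π1_zz
  have hz0 : π2 n (zz n) ≠ 1 := π2_zz
  generalize zz n = z at hz1 hz hz0
  have hz' : π1 n (x * z * x⁻¹) = 1 := π1_conj hz x
  refine ⟨⁅z, x * z * x⁻¹⁆, comm_of_mem hz hz', fun h => ?_⟩
  have h1 := congrFun h 1
  have hz2 : (fox (π2 n)).D (x * z * x⁻¹) 1 = o (π2 n x) * (o (π2 n x) - o (π2 n z)) := by
    rw [(fox (π2 n)).D_mul, (fox (π2 n)).D_mul, (fox (π2 n)).D_inv, fox_π]
    simp [hz1, hx1]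
  rw [D2_comm hz hz'] at h1
  simp only [Pi.add_apply, Pi.smul_apply, smul_eq_mul, hz1, hz2, Pi.zero_apply, sub_mul, mul_sub,
    one_mul, ← o_mul, ← map_mul] at h1
  have h2 := congrArg (fun t : ZR (Q2 n) => t.coeff (π2 n (x * x))) h1
  have hne : ∀ w : FG n, (π1 n w).toAdd 0 ≠ 2 → π2 n w ≠ π2 n (x * x) := by
    intro w hw h3
    apply hw
    have h4 : π1 n (w * (x * x)⁻¹) = 1 := π1_of_π2 (by rw [map_mul, map_inv, h3, mul_inv_cancel])
    rw [map_mul, map_inv, mul_inv_eq_one] at h4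
    rw [h4]
    simp [hx]
  have n1 := hne x (by simp [hx])
  have n2 := hne z (by simp [hz])
  have n3 := hne (x * z * x⁻¹ * x) (by simp [hx, hz])
  have n4 := hne (x * z * x⁻¹ * z) (by simp [hz])
  have n5 := hne (z * (x * z)) (by simp [hx, hz])
  have n6 := hne (x * z) (by simp [hx, hz])
  have n7 : π2 n (z * (x * x)) ≠ π2 n (x * x) := by
    intro h3
    rw [map_mul, mul_eq_right] at h3
    exact hz0 h3
  simp only [o, MonoidAlgebra.coeff_add, MonoidAlgebra.coeff_sub, MonoidAlgebra.coeff_single,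
    Finsupp.coe_add, Finsupp.coe_sub, Pi.add_apply, Pi.sub_apply, Finsupp.single_eq_same,
    Finsupp.single_eq_of_ne n1.symm, Finsupp.single_eq_of_ne n2.symm,
    Finsupp.single_eq_of_ne n3.symm, Finsupp.single_eq_of_ne n4.symm,
    Finsupp.single_eq_of_ne n5.symm, Finsupp.single_eq_of_ne n6.symm,
    Finsupp.single_eq_of_ne n7.symm, MonoidAlgebra.coeff_zero, Finsupp.coe_zero,
    Pi.zero_apply] at h2
  omega

end Pool.Agent.Lib.MP_9cc2ee_lc
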