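import Mathlib

/-!
Separation lemmas in integral group rings, and derivations.
-/

set_option autoImplicit false

namespace Pool.Agent.Lib.MP_9cc2ee_lc

open scoped commutatorElement

/-- The integral group ring. -/
abbrev ZR (Q : Type) [Group Q] := MonoidAlgebra ℤ Q

/-- A group element inside the group ring. -/
noncomputable def o {Q : Type} [Group Q] (q : Q) : ZR Q := MonoidAlgebra.single q 1

section Ring

variable {Q : Type} [Group Q]

@[simp] theorem o_one : o (1 : Q) = 1 := rfl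

theorem o_mul (a b : Q) : o (a * b) = o a * o b := by
  simp [o, MonoidAlgebra.single_mul_single]

theorem o_pow (a : Q) (k : ℕ) : o (a ^ k) = o a ^ k := by
  simp [o, MonoidAlgebra.single_pow]

theorem o_comm {a b : Q} (h : Commute a b) : Commute (o a) (o b) := by
  rw [Commute, SemiconjBy, ← o_mul, ← o_mul, h.eq]

theorem not_fin_conj {a : Q} (b : Q) (h : ¬ IsOfFinOrder a) : ¬ IsOfFinOrder (b * a * b⁻¹) := by
  intro h2
  apply h
  obtain ⟨k, hk, h3⟩ := isOfFinOrder_iff_pow_eq_one.mp h2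
  refine isOfFinOrder_iff_pow_eq_one.mpr ⟨k, hk, ?_⟩
  rw [conj_pow] at h3
  simpa using h3

theorem coeff_o_mul (q b : Q) (r : ZR Q) : (o q * r).coeff b = r.coeff (q⁻¹ * b) := by
  simp [o, MonoidAlgebra.coeff_single_mul_apply]

theorem coeff_nat_mul (m : ℕ) (b : Q) (r : ZR Q) : ((m : ZR Q) * r).coeff b = m * r.coeff b := by
  rw [← nsmul_eq_mul, MonoidAlgebra.coeff_smul]
  simp

theorem exists_edge {q : Q} (hq : ¬ IsOfFinOrder q) {r : ZR Q} (hr : r ≠ 0) :
    ∃ b, r.coeff b ≠ 0 ∧ r.coeff (q⁻¹ * b) = 0 := by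
  by_contra h
  push Not at h
  obtain ⟨b, hb⟩ : ∃ b, r.coeff b ≠ 0 := by
    by_contra h2
    push Not at h2
    exact hr (MonoidAlgebra.coeff_eq_zero.mp (Finsupp.ext h2))
  have key : ∀ j : ℕ, r.coeff ((q⁻¹) ^ j * b) ≠ 0 := by
    intro j
    induction j with
    | zero => simpa using hb
    | succ j ih => rw [pow_succ', mul_assoc]; exact h _ ih
  have hinj : Function.Injective fun j : ℕ => (q⁻¹) ^ j * b := by
    intro i j hij
    have hq' : ¬ IsOfFinOrder q⁻¹ := by simpa using hq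
    exact (injective_pow_iff_not_isOfFinOrder.mpr hq') (mul_right_cancel hij)
  exact Set.infinite_of_injective_forall_mem hinj (s := (r.coeff.support : Set Q))
    (fun j => by simpa using key j) (Finset.finite_toSet _)

theorem eq_zero_of_sub_one_mul {q : Q} (hq : ¬ IsOfFinOrder q) {r : ZR Q}
    (h : (o q - 1) * r = 0) : r = 0 := by
  by_contra hr
  obtain ⟨b, h1, h2⟩ := exists_edge hq hr
  have := congrArg (fun t : ZR Q => t.coeff b) h
  simp only [sub_mul, one_mul, MonoidAlgebra.coeff_sub, Finsupp.coe_sub, Pi.sub_apply,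
    coeff_o_mul, h2, MonoidAlgebra.coeff_zero, Finsupp.coe_zero, Pi.zero_apply] at this
  exact h1 (by linarith)

theorem eq_zero_of_forall_sub_nat {q : Q} (hq : ¬ IsOfFinOrder q) {t : ZR Q}
    (h : ∀ m : ℕ, ∃ r, t = (o q - m) * r) : t = 0 := by
  classical
  obtain ⟨r, hr⟩ := h ((t.coeff.support.sup fun b => (t.coeff b).natAbs) + 1)
  set m := (t.coeff.support.sup fun b => (t.coeff b).natAbs) + 1 with hm
  by_cases hr0 : r = 0
  · rw [hr, hr0, mul_zero]
  exfalso
  obtain ⟨b, h1, h2⟩ := exists_edge hq hr0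
  have e : t.coeff b = -(m * r.coeff b) := by
    rw [hr]
    simp only [sub_mul, MonoidAlgebra.coeff_sub, Finsupp.coe_sub, Pi.sub_apply,
      coeff_o_mul, h2, coeff_nat_mul, zero_sub]
  have h3 : m ≤ (t.coeff b).natAbs := by
    rw [e, Int.natAbs_neg, Int.natAbs_mul, Int.natAbs_natCast]
    exact Nat.le_mul_of_pos_right _ (Int.natAbs_pos.mpr h1)
  have h4 : b ∈ t.coeff.support := by
    rw [Finsupp.mem_support_iff]
    intro h0
    rw [h0] at h3
    simp only [Int.natAbs_zero] at h3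
    omega
  have h5 := Finset.le_sup (f := fun b => (t.coeff b).natAbs) h4
  omega

/-- Sums of coefficients over right cosets. -/
noncomputable def cosetSum (H : Subgroup Q) :
    ZR Q →+ (Quotient (QuotientGroup.rightRel H) →₀ ℤ) :=
  (Finsupp.mapDomain.addMonoidHom (Quotient.mk _)).comp
    (MonoidAlgebra.coeffAddEquiv (R := ℤ) (M := Q)).toAddMonoidHom

theorem cosetSum_single (H : Subgroup Q) (b : Q) (z : ℤ) :
    cosetSum H (MonoidAlgebra.single b z) = Finsupp.single (Quotient.mk _ b) z := by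
  simp [cosetSum, Finsupp.mapDomain_single]

theorem cosetSum_sub_one_mul {H : Subgroup Q} {h : Q} (hh : h ∈ H) (r : ZR Q) :
    cosetSum H ((o h - 1) * r) = 0 := by
  induction r using MonoidAlgebra.induction_linear with
  | zero => simp
  | add a b ha hb => rw [mul_add, map_add, ha, hb, add_zero]
  | single b z =>
    rw [sub_mul, one_mul, map_sub, o, MonoidAlgebra.single_mul_single,
      one_mul, cosetSum_single, cosetSum_single, sub_eq_zero]
    congr 1
    apply Quotient.sound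
    show QuotientGroup.rightRel H (h * b) b
    rw [QuotientGroup.rightRel_apply]
    simpa using hh

theorem eq_zero_of_cosetSum {H : Subgroup Q} {t : ZR Q} (h : cosetSum H t = 0)
    (hs : ∀ s ∈ t.coeff.support, ∀ s' ∈ t.coeff.support, s' * s⁻¹ ∈ H → s = s') : t = 0 := by
  have hinj : Set.InjOn (Quotient.mk (QuotientGroup.rightRel H)) (t.coeff.support : Set Q) := by
    intro s h1 s' h2 h3
    exact hs s h1 s' h2 (QuotientGroup.rightRel_apply.mp (Quotient.exact h3))
  have := Finsupp.mapDomain_injOn (M := ℤ) _ hinj (x₁ := t.coeff) (x₂ := 0) (by simp) (by simp)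
    (by rw [Finsupp.mapDomain_zero]; exact h)
  exact MonoidAlgebra.coeff_eq_zero.mp this

theorem eq_zero_of_forall_pow {q : Q} (hq : ¬ IsOfFinOrder q) {t : ZR Q}
    (h : ∀ k : ℕ, ∃ r, t = (o (q ^ (k + 1)) - 1) * r) : t = 0 := by
  classical
  have hinj : Function.Injective fun j : ℤ => q ^ j := injective_zpow_iff_not_isOfFinOrder.mpr hq
  have hfin : ((fun j : ℤ => q ^ j) ⁻¹'
      ((t.coeff.support ×ˢ t.coeff.support).image fun p => p.2 * p.1⁻¹ : Finset Q)).Finite :=
    (Finset.finite_toSet _).preimage hinj.injOn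
  let k := hfin.toFinset.sup Int.natAbs
  obtain ⟨r, hr⟩ := h k
  refine eq_zero_of_cosetSum (H := Subgroup.zpowers (q ^ (k + 1)))
    (hr ▸ cosetSum_sub_one_mul (Subgroup.mem_zpowers _) r) ?_
  rintro s hs s' hs' ⟨i, hi⟩
  simp only at hi
  rw [← zpow_natCast, ← zpow_mul] at hi
  have h1 : ((k + 1 : ℕ) : ℤ) * i ∈ hfin.toFinset := by
    simp only [Set.Finite.mem_toFinset, Set.mem_preimage, Finset.coe_image, Set.mem_image]
    exact ⟨(s, s'), by simp only [Finset.coe_product, Set.mem_prod]; exact ⟨hs, hs'⟩, hi.symm⟩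
  have h2 : (((k + 1 : ℕ) : ℤ) * i).natAbs ≤ k := Finset.le_sup (f := Int.natAbs) h1
  rw [Int.natAbs_mul, Int.natAbs_natCast] at h2
  have h3 : i = 0 := by
    by_contra h0
    have : 1 ≤ i.natAbs := Int.natAbs_pos.mpr h0
    nlinarith
  rw [h3, mul_zero, zpow_zero] at hi
  exact (mul_inv_eq_one.mp hi.symm).symm

variable {N : Type} [AddCommGroup N] [Module (ZR Q) N]

/-- The multiples of a ring element. -/
noncomputable def mults (N : Type) [AddCommGroup N] [Module (ZR Q) N] (r : ZR Q) : AddSubgroup N :=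
  (DistribSMul.toAddMonoidHom N r).range

theorem mem_mults {r : ZR Q} {t : N} : t ∈ mults N r ↔ ∃ v : N, r • v = t := Iff.rfl

/-- The sum of the subgroups `(h - 1) N` over a list. -/
noncomputable def IQ (N : Type) [AddCommGroup N] [Module (ZR Q) N] : List Q → AddSubgroup N
  | [] => ⊥
  | h :: hs => mults N (o h - 1) ⊔ IQ N hs

theorem mem_IQ_cons {h : Q} {hs : List Q} {t : N} :
    t ∈ IQ N (h :: hs) ↔ ∃ v : N, t - (o h - 1) • v ∈ IQ N hs := by
  rw [IQ, AddSubgroup.mem_sup]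
  constructor
  · rintro ⟨y, ⟨v, rfl⟩, z, hz, rfl⟩
    exact ⟨v, by simpa using hz⟩
  · rintro ⟨v, hv⟩
    exact ⟨_, ⟨v, rfl⟩, _, hv, by simp⟩

theorem smul_mem_IQ_of_mem {h : Q} {hs : List Q} (hh : h ∈ hs) (v : N) :
    (o h - 1) • v ∈ IQ N hs := by
  induction hs with
  | nil => simp at hh
  | cons a hs ih =>
    rcases List.mem_cons.mp hh with rfl | h2
    · exact AddSubgroup.mem_sup_left ⟨v, rfl⟩
    · exact AddSubgroup.mem_sup_right (ih h2)

theorem smul_mem_IQ {h : Q} {hs : List Q} (hh : h ∈ Subgroup.closure {y | y ∈ hs}) (v : N) :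
    (o h - 1) • v ∈ IQ N hs := by
  induction hh using Subgroup.closure_induction generalizing v with
  | mem x hx => exact smul_mem_IQ_of_mem hx v
  | one => simp
  | mul x y _ _ hx hy =>
    have : (o (x * y) - 1) • v = (o x - 1) • (o y • v) + (o y - 1) • v := by
      rw [smul_smul, ← add_smul, o_mul]
      congr 1
      noncomm_ring
    rw [this]
    exact AddSubgroup.add_mem _ (hx _) (hy _)
  | inv x _ hx =>
    have : (o x⁻¹ - 1) • v = -((o x - 1) • (o x⁻¹ • v)) := by
      rw [smul_smul, ← neg_smul, sub_mul, ← o_mul, mul_inv_cancel, o_one]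
      congr 1
      noncomm_ring
    rw [this]
    exact AddSubgroup.neg_mem _ (hx _)

theorem cosetSum_of_mem_IQ {κ : Type} (ι : N →ₗ[ZR Q] (κ → ZR Q)) {hs : List Q}
    {H : Subgroup Q} (hH : ∀ h ∈ hs, h ∈ H) {t : N} (ht : t ∈ IQ N hs) (i : κ) :
    cosetSum H (ι t i) = 0 := by
  induction hs generalizing t with
  | nil =>
    have : t = 0 := by simpa [IQ] using ht
    simp [this]
  | cons a hs ih =>
    obtain ⟨v, hv⟩ := mem_IQ_cons.mp ht
    have h1 := ih (fun h hh => hH h (List.mem_cons_of_mem _ hh)) hv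
    have h2 := cosetSum_sub_one_mul (hH a List.mem_cons_self) (ι v i)
    have e : ι t i = ι (t - (o a - 1) • v) i + (o a - 1) * ι v i := by simp
    rw [e, map_add, h1, h2, add_zero]

end Ring

/-- A homomorphism to a group together with a derivation into a free module. -/
structure Der (Γ Q κ : Type) [Group Γ] [Group Q] where
  π : Γ →* Q
  D : Γ → κ → ZR Q
  D_mul : ∀ u v, D (u * v) = D u + o (π u) • D v

namespace Der

variable {Γ Q κ : Type} [Group Γ] [Group Q] (d : Der Γ Q κ)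

theorem D_one : d.D 1 = 0 := by
  have := d.D_mul 1 1
  simpa using this

theorem D_inv (u : Γ) : d.D u⁻¹ = -(o (d.π u)⁻¹ • d.D u) := by
  have := d.D_mul u⁻¹ u
  rw [inv_mul_cancel, d.D_one, map_inv] at this
  exact eq_neg_of_add_eq_zero_left this.symm

theorem D_mul_ker {u : Γ} (hu : d.π u = 1) (v : Γ) : d.D (u * v) = d.D u + d.D v := by
  rw [d.D_mul, hu]; simp

theorem D_inv_ker {u : Γ} (hu : d.π u = 1) : d.D u⁻¹ = -d.D u := by
  rw [d.D_inv, hu]; simp

theorem D_conj (y : Γ) {u : Γ} (hu : d.π u = 1) : d.D (y * u * y⁻¹) = o (d.π y) • d.D u := by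
  rw [d.D_mul, d.D_mul, d.D_inv, map_mul, hu, mul_one, smul_neg, smul_smul, ← o_mul,
    mul_inv_cancel, o_one, one_smul]
  abel

theorem D_pow_ker {u : Γ} (hu : d.π u = 1) (k : ℕ) : d.D (u ^ k) = k • d.D u := by
  induction k with
  | zero => simp [d.D_one]
  | succ k ih => rw [pow_succ', d.D_mul_ker hu, ih, succ_nsmul']

theorem D_comm (g y : Γ) : d.D ⁅g, y⁆ =
    (1 - o (d.π (g * y * g⁻¹))) • d.D g + (o (d.π g) - o (d.π ⁅g, y⁆)) • d.D y := by
  rw [commutatorElement_def, d.D_mul, d.D_mul, d.D_mul, d.D_inv, d.D_inv, smul_neg, smul_neg,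
    smul_smul, smul_smul, sub_smul, sub_smul, one_smul]
  simp only [← o_mul, ← map_mul, ← map_inv]
  abel

theorem D_comm' {g y : Γ} (h : d.π ⁅g, y⁆ = 1) : d.D ⁅g, y⁆ =
    (1 - o (d.π y)) • d.D g + (o (d.π g) - 1) • d.D y := by
  have h2 : d.π (g * y * g⁻¹) = d.π y := by
    rw [commutatorElement_def, map_mul, map_inv, mul_inv_eq_one] at h
    exact h
  rw [d.D_comm, h, h2]
  simp

theorem eq_iff {u v : Γ} : (d.π u = d.π v ∧ d.D u = d.D v) ↔
    (d.π (u * v⁻¹) = 1 ∧ d.D (u * v⁻¹) = 0) := by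
  constructor
  · rintro ⟨h1, h2⟩
    refine ⟨by simp [h1], ?_⟩
    rw [d.D_mul, d.D_inv, h1, h2, smul_neg, smul_smul, ← o_mul, mul_inv_cancel, o_one,
      one_smul, add_neg_cancel]
  · rintro ⟨h1, h2⟩
    have e : u = (u * v⁻¹) * v := by simp
    refine ⟨by rw [e, map_mul, h1, one_mul], ?_⟩
    rw [e, d.D_mul_ker h1, h2, zero_add]

/-- The image of the kernel under the derivation. -/
def im (hπ : Function.Surjective d.π) : Submodule (ZR Q) (κ → ZR Q) where
  carrier := {t | ∃ a, d.π a = 1 ∧ d.D a = t}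
  add_mem' := by
    rintro _ _ ⟨a, ha, rfl⟩ ⟨b, hb, rfl⟩
    exact ⟨a * b, by simp [ha, hb], d.D_mul_ker ha b⟩
  zero_mem' := ⟨1, by simp, d.D_one⟩
  smul_mem' := by
    rintro r _ ⟨a, ha, rfl⟩
    induction r using MonoidAlgebra.induction_linear with
    | zero => exact ⟨1, by simp, by simp [d.D_one]⟩
    | add r s hr hs =>
      obtain ⟨b, hb, hb'⟩ := hr
      obtain ⟨c, hc, hc'⟩ := hs
      exact ⟨b * c, by simp [hb, hc], by rw [d.D_mul_ker hb, hb', hc', add_smul]⟩
    | single q z =>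
      obtain ⟨y, rfl⟩ := hπ q
      have h1 : d.π (y * a * y⁻¹) = 1 := by simp [ha]
      have e : (MonoidAlgebra.single (d.π y) z : ZR Q) • d.D a = z • d.D (y * a * y⁻¹) := by
        rw [d.D_conj y ha, ← smul_assoc]
        congr 1
        simp [o]
      rw [e]
      obtain ⟨k, rfl | rfl⟩ := Int.eq_nat_or_neg z
      · exact ⟨(y * a * y⁻¹) ^ k, by rw [map_pow, h1, one_pow], by
          rw [d.D_pow_ker h1, natCast_zsmul]⟩
      · refine ⟨((y * a * y⁻¹) ^ k)⁻¹, by rw [map_inv, map_pow, h1, one_pow, inv_one], ?_⟩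
        rw [d.D_inv_ker (by rw [map_pow, h1, one_pow]), d.D_pow_ker h1, neg_smul, natCast_zsmul]

/-- Pull back along a homomorphism. -/
def comp {F : Type} [Group F] (p : F →* Γ) : Der F Q κ where
  π := d.π.comp p
  D w := d.D (p w)
  D_mul u v := by rw [map_mul, d.D_mul]; rfl

theorem D_eq_zero_of_commute {g a : Γ} (hg : ¬ IsOfFinOrder (d.π g)) (ha : d.π a = 1)
    (h : d.D ⁅g, a⁆ = 0) : d.D a = 0 := by
  rw [d.D_comm' (by rw [map_commutatorElement, ha]; simp), ha] at h
  simp only [o_one, sub_self, zero_smul, zero_add] at h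
  funext i
  exact eq_zero_of_sub_one_mul hg (congrFun h i)

theorem pin {g w y : Γ} (hy : ¬ IsOfFinOrder (d.π y)) (h1 : d.π g = d.π w)
    (h2 : d.D ⁅g, y⁆ = d.D ⁅w, y⁆) : d.D g = d.D w := by
  rw [d.D_comm, d.D_comm] at h2
  simp only [map_mul, map_inv, map_commutatorElement, h1, add_left_inj] at h2
  have hc : ¬ IsOfFinOrder (d.π w * d.π y * (d.π w)⁻¹) := not_fin_conj _ hy
  funext i
  have h3 := congrFun h2 i
  simp only [Pi.smul_apply, smul_eq_mul] at h3
  have h4 : (o (d.π w * d.π y * (d.π w)⁻¹) - 1) * (d.D g i - d.D w i) = 0 := by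
    rw [← neg_sub 1, neg_mul, mul_sub, h3, sub_self, neg_zero]
  exact sub_eq_zero.mp (eq_zero_of_sub_one_mul hc h4)

end Der

end Pool.Agent.Lib.MP_9cc2ee_lc
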