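import Pool.Agent.Lib.MP_9cc2ee_lc.GroupRing

/-!
The Magnus embedding.
-/

set_option autoImplicit false

namespace Pool.Agent.Lib.MP_9cc2ee_lc

open scoped commutatorElement

/-- The semidirect product of a free module and the group. -/
@[ext] structure Aff (Q κ : Type) [Group Q] where
  t : κ → ZR Q
  q : Q

namespace Aff

variable {Q κ : Type} [Group Q]

noncomputable instance : Mul (Aff Q κ) := ⟨fun a b => ⟨a.t + o a.q • b.t, a.q * b.q⟩⟩
noncomputable instance : One (Aff Q κ) := ⟨⟨0, 1⟩⟩
noncomputable instance : Inv (Aff Q κ) := ⟨fun a => ⟨-(o a.q⁻¹ • a.t), a.q⁻¹⟩⟩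

theorem mul_t (a b : Aff Q κ) : (a * b).t = a.t + o a.q • b.t := rfl
theorem mul_q (a b : Aff Q κ) : (a * b).q = a.q * b.q := rfl

noncomputable instance : Group (Aff Q κ) :=
  Group.ofLeftAxioms
    (fun a b c => Aff.ext (by simp only [mul_t, mul_q, o_mul, smul_add, mul_smul, add_assoc])
      (mul_assoc _ _ _))
    (fun a => Aff.ext (by show 0 + o 1 • a.t = a.t; simp) (one_mul _))
    (fun a => Aff.ext (by show -(o a.q⁻¹ • a.t) + o a.q⁻¹ • a.t = 0; simp) (inv_mul_cancel _))

/-- The projection to the group. -/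
noncomputable def proj : Aff Q κ →* Q := MonoidHom.mk' Aff.q fun _ _ => rfl

/-- The derivation attached to a homomorphism into the semidirect product. -/
noncomputable def der {Γ : Type} [Group Γ] (μ : Γ →* Aff Q κ) : Der Γ Q κ where
  π := proj.comp μ
  D g := (μ g).t
  D_mul u v := by rw [map_mul]; rfl

theorem eq_one_iff {Γ : Type} [Group Γ] (μ : Γ →* Aff Q κ) (g : Γ) :
    μ g = 1 ↔ (der μ).π g = 1 ∧ (der μ).D g = 0 :=
  ⟨fun h => ⟨congrArg Aff.q h, congrArg Aff.t h⟩, fun h => Aff.ext h.2 h.1⟩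

end Aff

section Fox

variable {α Q : Type} [Group Q] [DecidableEq α] (π : FreeGroup α →* Q)

/-- The Magnus homomorphism. -/
noncomputable def magnus : FreeGroup α →* Aff Q α :=
  FreeGroup.lift fun i => ⟨Pi.single i 1, π (FreeGroup.of i)⟩

/-- The Fox derivation. -/
noncomputable def fox : Der (FreeGroup α) Q α := Aff.der (magnus π)

theorem fox_π : (fox π).π = π := by
  ext i
  simp [fox, Aff.der, Aff.proj, magnus]

theorem fox_of (i : α) : (fox π).D (FreeGroup.of i) = Pi.single i 1 := by
  simp [fox, Aff.der, magnus]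

theorem fox_ker [Fintype α] (hπ : Function.Surjective π) (w : FreeGroup α) :
    (π w = 1 ∧ (fox π).D w = 0) ↔ w ∈ ⁅π.ker, π.ker⁆ := by
  constructor
  · rintro ⟨hw, hD⟩
    choose s hs using hπ
    have hmem : ∀ (b : Q) (u : FreeGroup α), s b * u * (s (b * π u))⁻¹ ∈ π.ker := by
      intro b u
      simp [MonoidHom.mem_ker, hs]
    let c : Q → FreeGroup α → Additive (Abelianization π.ker) := fun b u =>
      Additive.ofMul (Abelianization.of ⟨_, hmem b u⟩)
    have hc : ∀ b u v, c b (u * v) = c b u + c (b * π u) v := by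
      intro b u v
      simp only [c]
      rw [← ofMul_mul, ← map_mul]
      congr 2
      apply Subtype.ext
      simp [mul_assoc]
    let ψ₀ : α → ZR Q →+ Additive (Abelianization π.ker) := fun i =>
      (Finsupp.liftAddHom fun b => (zmultiplesHom _ (c b (FreeGroup.of i)))).comp
        (MonoidAlgebra.coeffAddEquiv (R := ℤ) (M := Q)).toAddMonoidHom
    have hψ₀ : ∀ i b, ψ₀ i (o b) = c b (FreeGroup.of i) := by
      intro i b
      simp [ψ₀, o]
    let ψ : (α → ZR Q) →+ Additive (Abelianization π.ker) :=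
      ∑ i, (ψ₀ i).comp (Pi.evalAddMonoidHom (fun _ => ZR Q) i)
    have hψ : ∀ i b, ψ (o b • Pi.single i 1) = c b (FreeGroup.of i) := by
      intro i b
      simp only [ψ, AddMonoidHom.finsetSum_apply, AddMonoidHom.comp_apply,
        Pi.evalAddMonoidHom_apply, Pi.smul_apply, smul_eq_mul]
      rw [Finset.sum_eq_single i]
      · simp [hψ₀]
      · intro j _ hj
        simp [Pi.single_eq_of_ne hj]
      · simp
    have hf : ∀ b u v, ψ (o b • (fox π).D (u * v)) =
        ψ (o b • (fox π).D u) + ψ (o (b * π u) • (fox π).D v) := by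
      intro b u v
      rw [(fox π).D_mul, smul_add, map_add, smul_smul, ← o_mul, fox_π]
    have hc1 : ∀ b, c b 1 = 0 := by
      intro b
      have := hc b 1 1
      simpa using this
    have key : ∀ (u : FreeGroup α) (b : Q), ψ (o b • (fox π).D u) = c b u := by
      intro u
      induction u using FreeGroup.induction_on with
      | C1 => intro b; rw [(fox π).D_one, smul_zero, map_zero, hc1]
      | of i => intro b; rw [fox_of, hψ]
      | inv_of i ih =>
        intro b
        have h1 := hf b (FreeGroup.of i)⁻¹ (FreeGroup.of i)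
        have h2 := hc b (FreeGroup.of i)⁻¹ (FreeGroup.of i)
        rw [inv_mul_cancel] at h1 h2
        rw [(fox π).D_one, smul_zero, map_zero, ih] at h1
        rw [hc1] at h2
        exact add_right_cancel (h1.symm.trans h2)
      | mul u v hu hv => intro b; rw [hf, hc, hu, hv]
    have h1 := key w 1
    rw [hD, smul_zero, map_zero] at h1
    have h2 : (⟨_, hmem 1 w⟩ : π.ker) ∈ commutator π.ker := by
      rw [← Abelianization.ker_of, MonoidHom.mem_ker]
      exact Additive.ofMul.injective h1.symm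
    have h3 : s 1 * w * (s (1 * π w))⁻¹ ∈ ⁅π.ker, π.ker⁆ := by
      rw [← Subgroup.map_subtype_commutator]
      exact Subgroup.mem_map_of_mem _ h2
    rw [hw, one_mul] at h3
    have h4 := (inferInstance : (⁅π.ker, π.ker⁆ : Subgroup _).Normal).conj_mem _ h3 (s 1)⁻¹
    simpa [mul_assoc] using h4
  · intro hw
    have : ⁅π.ker, π.ker⁆ ≤ (magnus π).ker := by
      rw [Subgroup.commutator_le]
      intro a ha b hb
      have ha' : (fox π).π a = 1 := by rw [fox_π]; exact ha
      have hb' : (fox π).π b = 1 := by rw [fox_π]; exact hb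
      have h1 : (fox π).π ⁅a, b⁆ = 1 := by rw [map_commutatorElement, ha']; simp
      rw [MonoidHom.mem_ker, Aff.eq_one_iff]
      refine ⟨h1, ?_⟩
      show (fox π).D _ = 0
      rw [(fox π).D_comm' h1, ha', hb']
      simp
    have h2 := (Aff.eq_one_iff _ _).mp (this hw)
    exact ⟨by rw [← fox_π π]; exact h2.1, h2.2⟩

end Fox

/-- A normal subgroup of a free group containing the commutators of generators contains the
commutator subgroup. -/
theorem commutator_le_of_gens {α : Type} (P : Subgroup (FreeGroup α)) [P.Normal]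
    (h : ∀ a b : α, ⁅FreeGroup.of a, FreeGroup.of b⁆ ∈ P) : derivedSeries (FreeGroup α) 1 ≤ P := by
  have h1 : ∀ (a : α) (v : FreeGroup α),
      Commute (QuotientGroup.mk' P (FreeGroup.of a)) (QuotientGroup.mk' P v) := by
    intro a v
    induction v using FreeGroup.induction_on with
    | C1 => simp
    | of b =>
      rw [← commutatorElement_eq_one_iff_commute, ← map_commutatorElement]
      exact (QuotientGroup.eq_one_iff _).mpr (h a b)
    | inv_of b ih => rw [map_inv]; exact ih.inv_right
    | mul u v hu hv => rw [map_mul]; exact hu.mul_right hv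
  have h2 : ∀ u v : FreeGroup α, Commute (QuotientGroup.mk' P u) (QuotientGroup.mk' P v) := by
    intro u v
    induction u using FreeGroup.induction_on with
    | C1 => simp
    | of b => exact h1 b v
    | inv_of b ih => rw [map_inv]; exact ih.inv_left
    | mul u w hu hw => rw [map_mul]; exact hu.mul_left hw
  rw [derivedSeries_succ, Subgroup.commutator_le]
  intro u _ v _
  rw [← QuotientGroup.eq_one_iff]
  exact (map_commutatorElement (QuotientGroup.mk' P) u v).trans
    (commutatorElement_eq_one_iff_commute.mpr (h2 u v))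

/-- A subgroup of a free group stable under conjugation by generators and their inverses is
normal. -/
theorem normal_of_gens {α : Type} (P : Subgroup (FreeGroup α))
    (h : ∀ a, ∀ c ∈ P, FreeGroup.of a * c * (FreeGroup.of a)⁻¹ ∈ P)
    (h' : ∀ a, ∀ c ∈ P, (FreeGroup.of a)⁻¹ * c * (FreeGroup.of a)⁻¹⁻¹ ∈ P) : P.Normal := by
  constructor
  intro c hc y
  induction y using FreeGroup.induction_on generalizing c with
  | C1 => simpa using hc
  | of b => exact h b c hc
  | inv_of b _ => exact h' b c hc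
  | mul u w hu hw =>
    have := hu _ (hw c hc)
    simpa [mul_assoc] using this

section Levels

variable (n : ℕ)

/-- The free group of rank `n + 2`. -/
abbrev FG := FreeGroup (Fin (n + 2))

/-- The free abelian group of rank `n + 2`. -/
abbrev Q1 := Multiplicative (Fin (n + 2) → ℤ)

/-- The free metabelian group of rank `n + 2`. -/
abbrev Q2 := FG n ⧸ derivedSeries (FG n) 2

/-- The free solvable group of class three and rank `n + 2`. -/
abbrev GG := FG n ⧸ derivedSeries (FG n) 3

/-- Abelianisation map. -/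
def π1 : FG n →* Q1 n := FreeGroup.lift fun i => Multiplicative.ofAdd (Pi.single i 1)

/-- Projection to the free metabelian group. -/
def π2 : FG n →* Q2 n := QuotientGroup.mk' _

/-- Projection to the free solvable group. -/
def pG : FG n →* GG n := QuotientGroup.mk' _

variable {n}

/-- Generators. -/
abbrev X (i : Fin (n + 2)) : FG n := FreeGroup.of i

theorem π1_X (i : Fin (n + 2)) : π1 n (X i) = Multiplicative.ofAdd (Pi.single i 1) := by
  simp [π1]

theorem Q1_eq_prod (q : Q1 n) :
    q = ∏ i, (Multiplicative.ofAdd (Pi.single i 1) : Q1 n) ^ (q.toAdd i) := by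
  apply Multiplicative.toAdd.injective
  rw [toAdd_prod]
  funext j
  simp [toAdd_zpow, Finset.sum_apply, Pi.single_apply]

theorem π1_surj : Function.Surjective (π1 n) := by
  intro q
  rw [Q1_eq_prod q, ← MonoidHom.mem_range]
  refine Subgroup.prod_mem _ fun i _ => Subgroup.zpow_mem _ (MonoidHom.mem_range.mpr ⟨X i, π1_X i⟩) _

theorem π1_ker : (π1 n).ker = derivedSeries (FG n) 1 := by
  apply le_antisymm
  · let σ : Q1 n →* Abelianization (FG n) := MonoidHom.mk'
      (fun q => ∏ i, Abelianization.of (X i) ^ (q.toAdd i)) (by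
        intro a b
        simp [zpow_add, Finset.prod_mul_distrib])
    have hσ : σ.comp (π1 n) = Abelianization.of := by
      ext i
      simp only [MonoidHom.comp_apply, π1_X, σ, MonoidHom.mk'_apply, toAdd_ofAdd]
      rw [Finset.prod_eq_single i]
      · simp
      · intro j _ hj
        simp [Pi.single_eq_of_ne hj]
      · simp
    intro w hw
    rw [derivedSeries_one, ← Abelianization.ker_of, MonoidHom.mem_ker, ← hσ,
      MonoidHom.comp_apply, MonoidHom.mem_ker.mp hw, map_one]
  · exact Abelianization.commutator_subset_ker _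

theorem π2_surj : Function.Surjective (π2 n) := QuotientGroup.mk'_surjective _

theorem pG_surj : Function.Surjective (pG n) := QuotientGroup.mk'_surjective _

theorem π2_ker : (π2 n).ker = derivedSeries (FG n) 2 := QuotientGroup.ker_mk' _

theorem pG_ker : (pG n).ker = derivedSeries (FG n) 3 := QuotientGroup.ker_mk' _

theorem π1_eq_one {w : FG n} : π1 n w = 1 ↔ w ∈ derivedSeries (FG n) 1 := by
  rw [← π1_ker, MonoidHom.mem_ker]

theorem π2_eq_one {w : FG n} : π2 n w = 1 ↔ w ∈ derivedSeries (FG n) 2 :=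
  QuotientGroup.eq_one_iff _

theorem pG_eq_one {w : FG n} : pG n w = 1 ↔ w ∈ derivedSeries (FG n) 3 :=
  QuotientGroup.eq_one_iff _

theorem fox1_ker (w : FG n) : (π1 n w = 1 ∧ (fox (π1 n)).D w = 0) ↔ π2 n w = 1 := by
  rw [fox_ker _ π1_surj, π1_ker, π2_eq_one]
  rfl

theorem fox2_ker (w : FG n) : (π2 n w = 1 ∧ (fox (π2 n)).D w = 0) ↔ pG n w = 1 := by
  rw [fox_ker _ π2_surj, π2_ker, pG_eq_one]
  rfl

theorem Q1_not_fin {q : Q1 n} (hq : q ≠ 1) : ¬ IsOfFinOrder q := by
  intro h
  exact hq h.eq_one'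

theorem π1_of_π2 {w : FG n} (h : π2 n w = 1) : π1 n w = 1 := ((fox1_ker w).mpr h).1

theorem Q2_not_fin {w : FG n} (hw : π2 n w ≠ 1) : ¬ IsOfFinOrder (π2 n w) := by
  intro h
  obtain ⟨k, hk, h1⟩ := isOfFinOrder_iff_pow_eq_one.mp h
  rw [← map_pow] at h1
  have h2 := (fox1_ker _).mpr h1
  have h3 : π1 n w = 1 := by
    by_contra h4
    exact Q1_not_fin h4 (isOfFinOrder_iff_pow_eq_one.mpr ⟨k, hk, by rw [← map_pow]; exact h2.1⟩)
  apply hw
  refine (fox1_ker w).mp ⟨h3, ?_⟩
  have h5 := h2.2
  rw [(fox (π1 n)).D_pow_ker (by rw [fox_π]; exact h3)] at h5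
  funext i
  have h6 := congrFun h5 i
  ext b
  have h7 := congrArg (fun t : ZR (Q1 n) => t.coeff b) h6
  simp only [Pi.smul_apply, Pi.zero_apply, coeff_nat_mul,
    MonoidAlgebra.coeff_zero, Finsupp.coe_zero, nsmul_eq_mul, mul_eq_zero, Nat.cast_eq_zero] at h7
  rcases h7 with h7 | h7
  · omega
  · simpa using h7

theorem comm_of_mem {c c' : FG n} (hc : π1 n c = 1) (hc' : π1 n c' = 1) :
    π2 n ⁅c, c'⁆ = 1 :=
  π2_eq_one.mpr (Subgroup.commutator_mem_commutator (π1_eq_one.mp hc) (π1_eq_one.mp hc'))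

theorem commute_of_mem {c c' : FG n} (hc : π1 n c = 1) (hc' : π1 n c' = 1) :
    Commute (π2 n c) (π2 n c') := by
  rw [← commutatorElement_eq_one_iff_commute, ← map_commutatorElement]
  exact comm_of_mem hc hc'

theorem π1_comm (u v : FG n) : π1 n ⁅u, v⁆ = 1 := by
  rw [map_commutatorElement, commutatorElement_eq_one_iff_commute]
  exact mul_comm _ _

theorem D1_comm_X (a b : Fin (n + 2)) : (fox (π1 n)).D ⁅X a, X b⁆ =
    (1 - o (π1 n (X b))) • Pi.single a 1 + (o (π1 n (X a)) - 1) • Pi.single b 1 := by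
  rw [(fox (π1 n)).D_comm' (by rw [fox_π]; exact π1_comm _ _), fox_of, fox_of, fox_π]

theorem π1_X_ne_one (a : Fin (n + 2)) : π1 n (X a) ≠ 1 := by
  rw [π1_X]
  intro h
  have := congrFun (congrArg Multiplicative.toAdd h) a
  simp at this

theorem D1_comm_X_ne {a b : Fin (n + 2)} (h : a ≠ b) : (fox (π1 n)).D ⁅X a, X b⁆ ≠ 0 := by
  intro h0
  have := congrFun h0 b
  rw [D1_comm_X] at this
  simp only [Pi.add_apply, Pi.smul_apply, Pi.single_eq_of_ne h.symm, mul_zero,
    Pi.single_eq_same, smul_eq_mul, zero_add, Pi.zero_apply] at this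
  exact one_ne_zero (eq_zero_of_sub_one_mul (Q1_not_fin (π1_X_ne_one a)) this)

theorem π2_comm_X_ne {a b : Fin (n + 2)} (h : a ≠ b) : π2 n ⁅X a, X b⁆ ≠ 1 := fun h0 =>
  D1_comm_X_ne h ((fox1_ker _).mpr h0).2

theorem π2_X_ne_one (a : Fin (n + 2)) : π2 n (X a) ≠ 1 := fun h => π1_X_ne_one a (π1_of_π2 h)

end Levels

end Pool.Agent.Lib.MP_9cc2ee_lc
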