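import Pool.Agent.Lib.MP_9cc2ee_lc.Arith
import Pool.Agent.Lib.MP_9cc2ee_lc.GroupRing

/-!
Definability of the action of coded group ring elements on a coded module.
-/

set_option autoImplicit false
set_option linter.unusedSectionVars false

namespace Pool.Agent.Lib.MP_9cc2ee_lc

open FirstOrder Set
open scoped commutatorElement

/-- An ordered product of powers. -/
def pp {F : Type} [Group F] : List F → List ℕ → F
  | [], _ => 1
  | g :: gs, es => g ^ (es.getI 0) * pp gs es.tail

/-- A combination of ordered products of powers. -/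
noncomputable def rhoE {F Q : Type} [Group F] [Group Q] (π : F →* Q) (gs : List F)
    (l : List (ℕ × List ℕ)) : ZR Q :=
  (l.map fun c => (c.1 : ZR Q) * o (π (pp gs c.2))).sum

/-- A sum of group elements. -/
noncomputable def rho {F Q : Type} [Group F] [Group Q] (π : F →* Q) (r : List F) : ZR Q :=
  (r.map fun w => o (π w)).sum

/-- Bounded coset separation. -/
def PropS {F Q : Type} [Group F] [Group Q] (π : F →* Q) (gs : List F) (q : ℕ) : Prop :=
  ∀ Y : Set Q, Y.Finite → 1 ∉ Y → ∃ hs : List F, hs.length = q ∧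
    (∀ y ∈ Y, y ∉ Subgroup.closure {y | y ∈ hs.map π}) ∧
    ∀ b : F, ∃ es, π (b * (pp gs es)⁻¹) ∈ Subgroup.closure {y | y ∈ hs.map π}

theorem mem_closure_iff {F Q : Type} [Group F] [Group Q] (π : F →* Q) (hs : List F) (w : F) :
    w ∈ Subgroup.closure {y | y ∈ hs ∨ π y = 1} ↔
      π w ∈ Subgroup.closure {y | y ∈ hs.map π} := by
  have e1 : {y | y ∈ hs.map π} = π '' {y | y ∈ hs} := by
    ext y; simp
  have e2 : {y | y ∈ hs ∨ π y = 1} = {y | y ∈ hs} ∪ (π.ker : Set F) := by
    ext y; simp
  rw [e1, e2, ← MonoidHom.map_closure, ← Subgroup.mem_comap, Subgroup.comap_map_eq,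
    Subgroup.closure_union, Subgroup.closure_eq]

theorem exists_rho {F Q : Type} [Group F] [Group Q] (π : F →* Q) (hπ : Function.Surjective π)
    (s : ZR Q) : ∃ a b : List F, s = rho π a - rho π b := by
  induction s using MonoidAlgebra.induction_linear with
  | zero => exact ⟨[], [], by simp [rho]⟩
  | add r s hr hs =>
    obtain ⟨a, b, rfl⟩ := hr
    obtain ⟨c, d, rfl⟩ := hs
    refine ⟨a ++ c, b ++ d, ?_⟩
    simp only [rho, List.map_append, List.sum_append]
    abel
  | single q z =>
    obtain ⟨y, rfl⟩ := hπ q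
    obtain ⟨k, rfl | rfl⟩ := Int.eq_nat_or_neg z
    · exact ⟨List.replicate k y, [], by simp [rho, o]⟩
    · exact ⟨[], List.replicate k y, by simp [rho, o, MonoidAlgebra.single_neg]⟩

section Mod

variable {L : FirstOrder.Language.{0, 0}} {M : Type} [L.Structure M] [Nontrivial M]
variable {F Q κ : Type} [Group F] [Group Q] [Enc L M F] {π : F →* Q}
variable {N : Type} [AddCommGroup N] [Module (ZR Q) N] [Enc L M N] [DefAdd L M N]

theorem N_ext (ι : N →ₗ[ZR Q] (κ → ZR Q)) (hι : Function.Injective ι) {v : N}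
    (h : ∀ i, ι v i = 0) : v = 0 :=
  hι (by rw [map_zero]; exact funext h)

theorem N_cancel (ι : N →ₗ[ZR Q] (κ → ZR Q)) (hι : Function.Injective ι) {q : Q}
    (hq : ¬ IsOfFinOrder q) {v w : N} (h : (o q - 1) • v = (o q - 1) • w) : v = w := by
  rw [← sub_eq_zero]
  refine N_ext ι hι fun i => eq_zero_of_sub_one_mul hq ?_
  have := congrFun (congrArg ι h) i
  simp only [map_smul, Pi.smul_apply, smul_eq_mul] at this
  rw [map_sub, Pi.sub_apply, mul_sub, this, sub_self]

theorem def_act (hact : DefFun L M (fun p : F × N => o (π p.1) • p.2)) {S : Type} [Enc L M S]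
    {f : S → F} {g : S → N} (hf : DefFun L M f) (hg : DefFun L M g) :
    DefFun L M (fun s => o (π (f s)) • g s) :=
  DefFun.comp₂ (fun (w : F) (t : N) => o (π w) • t) hact hf hg

theorem def_act_sub (hact : DefFun L M (fun p : F × N => o (π p.1) • p.2)) {S : Type} [Enc L M S]
    {f : S → F} {g : S → N} (hf : DefFun L M f) (hg : DefFun L M g) :
    DefFun L M (fun s => (o (π (f s)) - 1) • g s) :=
  (DefFun.gsub (def_act hact hf hg) hg).congr fun s => by rw [sub_smul, one_smul]

variable [Enc L M ℕ] [DefAdd L M ℕ] [DefMul L M ℕ] [NDec F] [NDef L M F] [DefMul L M F]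

theorem def_nsmul (ι : N →ₗ[ZR Q] (κ → ZR Q)) (hι : Function.Injective ι)
    (hact : DefFun L M (fun p : F × N => o (π p.1) • p.2)) (x : F)
    (hx : ¬ IsOfFinOrder (π x)) : DefFun L M (fun p : ℕ × N => p.1 • p.2) := by
  refine DefFun.of_graph (R := fun p u => All fun k : ℕ => ∃ v : N,
    (o (π (x ^ (k + 1))) - 1) • v = (o (π (x ^ ((k + 1) * p.1))) - 1) • p.2 ∧
      ∃ v' : N, (o (π (x ^ (k + 1))) - 1) • v' + v = u) ?_ ?_
  · refine DefFun.all (DefFun.ex (DefFun.and (DefFun.eq (def_act_sub hact ?_ ?_)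
      (def_act_sub hact ?_ ?_)) (DefFun.ex (DefFun.eq (DefFun.add (def_act_sub hact ?_ ?_) ?_)
      ?_)))) <;> fun_prop
  rintro ⟨m, a⟩ u
  have hgeom : ∀ y : Q, (o y - 1) • ((∑ j ∈ Finset.range m, o y ^ j) • a) =
      (o (y ^ m) - 1) • a := by
    intro y
    rw [smul_smul, mul_geom_sum, o_pow]
  have hdiff : ∀ y : Q, (∑ j ∈ Finset.range m, o y ^ j) • a - m • a ∈ mults N (o y - 1) := by
    intro y
    have e : (∑ j ∈ Finset.range m, o y ^ j) • a - m • a =
        ∑ j ∈ Finset.range m, (o (y ^ j) - 1) • a := by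
      simp only [sub_smul, Finset.sum_sub_distrib, one_smul, Finset.sum_const, Finset.card_range,
        Finset.sum_smul, o_pow]
    rw [e]
    refine AddSubgroup.sum_mem _ fun j _ => ?_
    have := smul_mem_IQ (N := N) (hs := [y]) (h := y ^ j)
      (Subgroup.pow_mem _ (Subgroup.subset_closure (by simp)) j) a
    simpa [IQ] using this
  simp only [All]
  constructor
  · intro h
    rw [eq_comm, ← sub_eq_zero]
    refine N_ext ι hι fun i => eq_zero_of_forall_pow hx fun k => ?_
    obtain ⟨v, h1, v', h2⟩ := h k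
    have hy : ¬ IsOfFinOrder (π x ^ (k + 1)) := by
      rw [isOfFinOrder_pow]
      simpa using hx
    rw [map_pow, map_pow, pow_mul, ← hgeom] at h1
    have h3 := N_cancel ι hι hy h1
    obtain ⟨w, hw⟩ := mem_mults.mp (hdiff (π x ^ (k + 1)))
    have h4 : u - m • a = (o (π x ^ (k + 1)) - 1) • (v' + w) := by
      rw [smul_add, hw, ← h2, h3, map_pow]
      abel
    exact ⟨ι (v' + w) i, by rw [h4, map_smul]; rfl⟩
  · rintro rfl k
    obtain ⟨w, hw⟩ := mem_mults.mp (hdiff (π (x ^ (k + 1))))
    refine ⟨(∑ j ∈ Finset.range m, o (π (x ^ (k + 1))) ^ j) • a, ?_, -w, ?_⟩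
    · rw [hgeom, pow_mul, map_pow π (x ^ (k + 1))]
    · rw [smul_neg, hw]
      simp

theorem def_pp (gs : List F) : DefFun L M (fun es : List ℕ => pp gs es) := by
  induction gs with
  | nil => exact DefFun.const (1 : F)
  | cons g gs ih =>
    show DefFun L M (fun es : List ℕ => g ^ (es.getI 0) * pp gs es.tail)
    fun_prop

theorem def_rhoE (ι : N →ₗ[ZR Q] (κ → ZR Q)) (hι : Function.Injective ι)
    (hact : DefFun L M (fun p : F × N => o (π p.1) • p.2))
    (hns : DefFun L M (fun p : ℕ × N => p.1 • p.2)) (gs : List F)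
    (hgs : ∀ g ∈ gs, ¬ IsOfFinOrder (π g)) :
    DefFun L M (fun p : List (ℕ × List ℕ) × N => rhoE π gs p.1 • p.2) := by
  induction gs with
  | nil =>
    refine DefFun.congr (f := fun p : List (ℕ × List ℕ) × N => (p.1.map fun c => c.1).sum • p.2)
      (DefFun.comp₂ (fun (k : ℕ) (t : N) => k • t) hns (by fun_prop) (by fun_prop)) ?_
    rintro ⟨l, a⟩
    simp only [rhoE, pp, map_one, o_one, mul_one]
    induction l with
    | nil => simp
    | cons c l ih => simp only [List.map_cons, List.sum_cons, add_smul, ih, Nat.cast_smul_eq_nsmul]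
  | cons g gs ih =>
    have ih' := ih fun g' hg' => hgs g' (List.mem_cons_of_mem _ hg')
    have hg := hgs g List.mem_cons_self
    refine DefFun.of_graph (R := fun p u => All fun m : ℕ => ∃ v : N,
      rhoE π gs (p.1.map fun c => (c.1 * m ^ (c.2.getI 0), c.2.tail)) • p.2 + o (π g) • v =
        u + m • v) ?_ ?_
    · refine DefFun.all (DefFun.ex (DefFun.eq (DefFun.add ?_ (def_act hact ?_ ?_))
        (DefFun.add ?_ ?_)))
      · exact DefFun.comp₂ (fun (l : List (ℕ × List ℕ)) (t : N) => rhoE π gs l • t) ih'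
          (by fun_prop) (by fun_prop)
      · fun_prop
      · fun_prop
      · fun_prop
      · exact DefFun.comp₂ (fun (k : ℕ) (t : N) => k • t) hns (by fun_prop) (by fun_prop)
    rintro ⟨l, a⟩ u
    have hdiff : ∀ m : ℕ, rhoE π (g :: gs) l • a -
        rhoE π gs (l.map fun c => (c.1 * m ^ (c.2.getI 0), c.2.tail)) • a ∈
          mults N (o (π g) - (m : ZR Q)) := by
      intro m
      induction l with
      | nil => simp [rhoE]
      | cons c l ihl =>
        simp only [rhoE, List.map_cons, List.sum_cons, add_smul] at ihl ⊢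
        rw [add_sub_add_comm]
        refine AddSubgroup.add_mem _ ?_ ihl
        obtain ⟨t, ht⟩ := (Nat.cast_commute m (o (π g))).symm.sub_dvd_pow_sub_pow (c.2.getI 0)
        refine mem_mults.mpr ⟨(t * c.1 * o (π (pp gs c.2.tail))) • a, ?_⟩
        rw [smul_smul, ← sub_smul, ← mul_assoc, ← mul_assoc, ← ht, pp, map_mul, o_mul, map_pow,
          o_pow]
        congr 1
        push_cast
        rw [sub_mul, sub_mul, ← (Nat.cast_commute c.1 _).eq, ← (Nat.cast_commute c.1 _).eq,
          mul_assoc]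
    simp only [All]
    constructor
    · intro h
      rw [← sub_eq_zero]
      refine N_ext ι hι fun i => eq_zero_of_forall_sub_nat hg fun m => ?_
      obtain ⟨v, hv⟩ := h m
      obtain ⟨w, hw⟩ := mem_mults.mp (hdiff m)
      have h4 : rhoE π (g :: gs) l • a - u = (o (π g) - (m : ZR Q)) • (w - v) := by
        rw [smul_sub, hw, sub_smul, Nat.cast_smul_eq_nsmul, eq_sub_of_add_eq hv]
        abel
      exact ⟨ι (w - v) i, by rw [h4, map_smul]; rfl⟩
    · rintro rfl m
      obtain ⟨w, hw⟩ := mem_mults.mp (hdiff m)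
      refine ⟨w, ?_⟩
      rw [sub_smul, Nat.cast_smul_eq_nsmul, sub_eq_sub_iff_add_eq_add] at hw
      rw [add_comm, hw]

theorem def_IQ (hact : DefFun L M (fun p : F × N => o (π p.1) • p.2)) (q : ℕ) :
    DefFun L M (fun p : List F × N => p.1.length = q ∧ p.2 ∈ IQ N (p.1.map π)) := by
  let : Inhabited F := ⟨1⟩
  induction q with
  | zero =>
    refine DefFun.congr_iff (P := fun p : List F × N => p.1 = [] ∧ p.2 = 0) (by fun_prop) ?_
    rintro ⟨hs, t⟩
    cases hs <;> simp [IQ]
  | succ q ih =>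
    refine DefFun.congr_iff (P := fun p : List F × N => p.1.length = q + 1 ∧ ∃ v : N,
      (p.1.tail.length = q ∧ p.2 - (o (π (p.1.getI 0)) - 1) • v ∈ IQ N (p.1.tail.map π))) ?_ ?_
    · refine DefFun.and (by fun_prop) (DefFun.ex ?_)
      exact DefFun.comp₂ (fun (hs : List F) (t : N) => hs.length = q ∧ t ∈ IQ N (hs.map π)) ih
        (by fun_prop) (DefFun.gsub (by fun_prop) (def_act_sub hact (by fun_prop) (by fun_prop)))
    rintro ⟨hs, t⟩
    cases hs with
    | nil => simp
    | cons h hs => simp +contextual [mem_IQ_cons]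

theorem def_rho (ι : N →ₗ[ZR Q] (κ → ZR Q)) (hι : Function.Injective ι)
    (hact : DefFun L M (fun p : F × N => o (π p.1) • p.2))
    (hns : DefFun L M (fun p : ℕ × N => p.1 • p.2)) (hker : DefFun L M (fun w : F => π w = 1))
    (gs : List F) (hgs : ∀ g ∈ gs, ¬ IsOfFinOrder (π g)) (q : ℕ) (hS : PropS π gs q) :
    DefFun L M (fun p : List F × N => rho π p.1 • p.2) := by
  have hE := def_rhoE ι hι hact hns gs hgs
  have hI := def_IQ hact q
  have hpp := def_pp (L := L) (M := M) gs
  refine DefFun.of_graph (R := fun p u => All fun hs : List F => All fun l : List (F × List ℕ) =>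
    Imp (hs.length = q ∧ l.map (fun c => c.1) = p.1 ∧ All fun c : F × List ℕ => Imp (c ∈ l)
      (c.1 * (pp gs c.2)⁻¹ ∈ Subgroup.closure {y | y ∈ hs ∨ π y = 1}))
      (hs.length = q ∧ u - rhoE π gs (l.map fun c => (1, c.2)) • p.2 ∈ IQ N (hs.map π))) ?_ ?_
  · refine DefFun.all (DefFun.all (DefFun.imp (DefFun.and (by fun_prop) (DefFun.and (by fun_prop)
      (DefFun.all (DefFun.imp (by fun_prop) (DefFun.closure (DefFun.or (by fun_prop) (hker.comp (by fun_prop))) (by fun_prop)))))) ?_))
    refine DefFun.comp₂ (fun (hs : List F) (t : N) => hs.length = q ∧ t ∈ IQ N (hs.map π)) hI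
      (by fun_prop) (DefFun.gsub (by fun_prop) ?_)
    exact DefFun.comp₂ (fun (l : List (ℕ × List ℕ)) (t : N) => rhoE π gs l • t) hE
      (by fun_prop) (by fun_prop)
  rintro ⟨r, a⟩ u
  have hdiff : ∀ (hs : List F) (l : List (F × List ℕ)), (∀ c ∈ l,
      π (c.1 * (pp gs c.2)⁻¹) ∈ Subgroup.closure {y | y ∈ hs.map π}) →
      rho π (l.map fun c => c.1) • a - rhoE π gs (l.map fun c => (1, c.2)) • a ∈
        IQ N (hs.map π) := by
    intro hs l hl
    induction l with
    | nil => simp [rho, rhoE]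
    | cons c l ihl =>
      have ihl' := ihl fun c' hc' => hl c' (List.mem_cons_of_mem _ hc')
      simp only [rho, rhoE, List.map_cons, List.sum_cons, add_smul] at ihl' ⊢
      rw [add_sub_add_comm]
      refine AddSubgroup.add_mem _ ?_ ihl'
      have := smul_mem_IQ (N := N) (hl c List.mem_cons_self) (o (π (pp gs c.2)) • a)
      rw [smul_smul, sub_mul, ← o_mul, ← map_mul, inv_mul_cancel_right, sub_smul] at this
      simpa using this
  simp only [All, Imp, mem_closure_iff]
  constructor
  · intro h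
    classical
    rw [← sub_eq_zero]
    refine N_ext ι hι fun i => ?_
    set t : ZR Q := ι (rho π r • a - u) i with ht
    let Y : Set Q := ((fun p : Q × Q => p.2 * p.1⁻¹) ''
      ((t.coeff.support : Set Q) ×ˢ (t.coeff.support : Set Q))) \ {1}
    have hY : Y.Finite :=
      (((Finset.finite_toSet _).prod (Finset.finite_toSet _)).image _).subset sdiff_subset
    obtain ⟨hs, h1, h2, h3⟩ := hS Y hY (by simp [Y])
    choose es hes using h3
    have hl : ∀ c ∈ r.map (fun b => (b, es b)),
        π (c.1 * (pp gs c.2)⁻¹) ∈ Subgroup.closure {y | y ∈ hs.map π} := by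
      intro c hc
      obtain ⟨b, -, rfl⟩ := List.mem_map.mp hc
      exact hes b
    have hr : (r.map (fun b => (b, es b))).map (fun c => c.1) = r := by simp [Function.comp_def]
    have h4 := (h hs (r.map fun b => (b, es b)) ⟨h1, hr, hl⟩).2
    have h5 := hdiff hs _ hl
    rw [hr] at h5
    have h6 : rho π r • a - u ∈ IQ N (hs.map π) := by
      have := AddSubgroup.sub_mem _ h5 h4
      simpa using this
    refine eq_zero_of_cosetSum (H := Subgroup.closure {y | y ∈ hs.map π})
      (cosetSum_of_mem_IQ ι (fun h hh => Subgroup.subset_closure hh) h6 i) ?_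
    intro s hs1 s' hs2 h7
    by_contra hne
    refine h2 _ ⟨⟨(s, s'), ⟨hs1, hs2⟩, rfl⟩, ?_⟩ h7
    intro h8
    exact hne (mul_inv_eq_one.mp h8).symm
  · rintro rfl hs l ⟨h1, h2, h3⟩
    refine ⟨h1, ?_⟩
    have := hdiff hs l h3
    rwa [h2] at this

end Mod

end Pool.Agent.Lib.MP_9cc2ee_lc
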