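import Pool.Agent.Lib.MP_9cc2ee_lc.Gen
import Pool.Agent.Lib.MP_9cc2ee_lc.ModDef

/-!
Bounded coset separation in the free abelian and the free metabelian group.
-/

set_option autoImplicit false

namespace Pool.Agent.Lib.MP_9cc2ee_lc

open scoped commutatorElement

theorem pp_mul_left {F Q : Type} [Group F] [Group Q] (π : F →* Q) (gs : List F)
    (hc : ∀ g ∈ gs, ∀ g' ∈ gs, Commute (π g) (π g')) {g : F} (hg : g ∈ gs) (es : List ℕ) :
    ∃ es', π (pp gs es') = π g * π (pp gs es) := by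
  induction gs generalizing es with
  | nil => simp at hg
  | cons a gs ih =>
    rcases List.mem_cons.mp hg with rfl | h
    · refine ⟨(es.getI 0 + 1) :: es.tail, ?_⟩
      simp [pp, pow_succ', mul_assoc]
    · obtain ⟨es', h1⟩ := ih (fun g hg g' hg' =>
        hc g (List.mem_cons_of_mem _ hg) g' (List.mem_cons_of_mem _ hg')) h es.tail
      refine ⟨es.getI 0 :: es', ?_⟩
      simp only [pp, List.getI_cons_zero, List.tail_cons, map_mul, map_pow, h1]
      rw [← mul_assoc, ← mul_assoc, ((hc a List.mem_cons_self g hg).pow_left _).eq]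

theorem pp_nil {F : Type} [Group F] (gs : List F) : pp gs [] = 1 := by
  induction gs with
  | nil => rfl
  | cons a gs ih => simp [pp, ih]

theorem exists_pp {F Q : Type} [Group F] [Group Q] (π : F →* Q) (gs : List F)
    (hc : ∀ g ∈ gs, ∀ g' ∈ gs, Commute (π g) (π g')) (hi : ∀ g ∈ gs, g⁻¹ ∈ gs) {q : Q}
    (hq : q ∈ Subgroup.closure (π '' {g | g ∈ gs})) : ∃ es, π (pp gs es) = q := by
  have hq' : q ∈ (Subgroup.closure (π '' {g | g ∈ gs})).toSubmonoid := hq
  rw [Subgroup.closure_toSubmonoid] at hq'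
  clear hq
  induction hq' using Submonoid.closure_induction_left with
  | one => exact ⟨[], by rw [pp_nil, map_one]⟩
  | mul_left x hx y _ ih =>
    obtain ⟨es, rfl⟩ := ih
    rcases hx with ⟨g, hg, rfl⟩ | ⟨g, hg, h⟩
    · exact pp_mul_left π gs hc hg es
    · obtain ⟨es', h1⟩ := pp_mul_left π gs hc (hi g hg) es
      exact ⟨es', by rw [h1, map_inv, h, inv_inv]⟩

variable {n : ℕ}

/-- Generators and their inverses. -/
noncomputable def gens (n : ℕ) : List (FG n) :=
  (Finset.univ : Finset (Fin (n + 2))).toList.map X ++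
    (Finset.univ : Finset (Fin (n + 2))).toList.map fun i => (X i)⁻¹

theorem mem_gens {g : FG n} : g ∈ gens n ↔ ∃ i, g = X i ∨ g = (X i)⁻¹ := by
  simp only [gens, List.mem_append, List.mem_map, Finset.mem_toList, Finset.mem_univ, true_and]
  constructor
  · rintro (⟨i, rfl⟩ | ⟨i, rfl⟩)
    · exact ⟨i, Or.inl rfl⟩
    · exact ⟨i, Or.inr rfl⟩
  · rintro ⟨i, rfl | rfl⟩
    · exact Or.inl ⟨i, rfl⟩
    · exact Or.inr ⟨i, rfl⟩

theorem gens_not_fin : ∀ g ∈ gens n, ¬ IsOfFinOrder (π1 n g) := by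
  intro g hg
  obtain ⟨i, rfl | rfl⟩ := mem_gens.mp hg
  · exact Q1_not_fin (π1_X_ne_one i)
  · rw [map_inv, isOfFinOrder_inv_iff]
    exact Q1_not_fin (π1_X_ne_one i)

theorem exists_pp_gens (b : FG n) : ∃ es, π1 n (pp (gens n) es) = π1 n b := by
  refine exists_pp (π1 n) (gens n) (fun _ _ _ _ => mul_comm _ _) ?_ ?_
  · intro g hg
    obtain ⟨i, rfl | rfl⟩ := mem_gens.mp hg
    · exact mem_gens.mpr ⟨i, Or.inr rfl⟩
    · exact mem_gens.mpr ⟨i, Or.inl (inv_inv _)⟩
  · induction b using FreeGroup.induction_on with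
    | C1 => rw [map_one]; exact Subgroup.one_mem _
    | of i => exact Subgroup.subset_closure ⟨_, mem_gens.mpr ⟨i, Or.inl rfl⟩, rfl⟩
    | inv_of i ih => rw [map_inv]; exact Subgroup.inv_mem _ ih
    | mul u v hu hv => rw [map_mul]; exact Subgroup.mul_mem _ hu hv

theorem propS1 : PropS (π1 n) (gens n) 0 := by
  intro Y _ hY
  refine ⟨[], rfl, ?_, fun b => ?_⟩
  · intro y hy h
    simp only [List.map_nil, List.not_mem_nil, Set.ofPred_false, Subgroup.closure_empty,
      Subgroup.mem_bot] at h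
    exact hY (h ▸ hy)
  · obtain ⟨es, h⟩ := exists_pp_gens b
    exact ⟨es, by rw [map_mul, map_inv, h, mul_inv_cancel]; exact Subgroup.one_mem _⟩

theorem exists_char (f : ZR (Q1 n)) (hf : f ≠ 0) (N : ℕ) :
    ∃ l : ℕ, l.Prime ∧ N < l ∧ ∃ χ : Q1 n →* ZMod l, MonoidAlgebra.lift ℤ (ZMod l) (Q1 n) χ f ≠ 0 := by
  classical
  let B := (f.coeff.support ×ˢ f.coeff.support).sup fun p =>
    Finset.univ.sup fun i => (p.1.toAdd i - p.2.toAdd i).natAbs
  let C := f.coeff.support.sup fun s => (f.coeff s).natAbs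
  obtain ⟨l, hl, hp⟩ := Nat.exists_infinite_primes (N + B + C + 2)
  refine ⟨l, hp, by omega, ?_⟩
  have : Fact l.Prime := ⟨hp⟩
  by_contra hcon
  push Not at hcon
  obtain ⟨g, hg⟩ := IsCyclic.exists_generator (α := (ZMod l)ˣ)
  have hord : orderOf g = l - 1 := by
    rw [orderOf_eq_card_of_forall_mem_zpowers hg, Nat.card_eq_fintype_card, ZMod.card_units]
  let φ : f.coeff.support → ((Q1 n →* ZMod l) →* ZMod l) := fun s => MonoidHom.eval s.1
  have hφ : Function.Injective φ := by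
    rintro ⟨s, hs⟩ ⟨s', hs'⟩ h
    apply Subtype.ext
    apply Multiplicative.toAdd.injective
    funext i
    let χ : Q1 n →* (ZMod l)ˣ := MonoidHom.mk' (fun q => g ^ (q.toAdd i)) (by
      intro a b
      simp [zpow_add])
    have h1 := DFunLike.congr_fun h ((Units.coeHom (ZMod l)).comp χ)
    have h2 : g ^ (s.toAdd i) = g ^ (s'.toAdd i) := Units.val_injective h1
    rw [zpow_eq_zpow_iff_modEq, hord] at h2
    have h3 : (s'.toAdd i - s.toAdd i).natAbs ≤ B :=
      le_trans (Finset.le_sup (f := fun i => (s'.toAdd i - s.toAdd i).natAbs) (Finset.mem_univ i))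
        (Finset.le_sup (f := fun p : Q1 n × Q1 n =>
          Finset.univ.sup fun i => (p.1.toAdd i - p.2.toAdd i).natAbs) (b := (s', s))
          (Finset.mem_product.mpr ⟨hs', hs⟩))
    have h4 := Int.eq_zero_of_dvd_of_natAbs_lt_natAbs h2.dvd (by rw [Int.natAbs_natCast]; omega)
    exact (sub_eq_zero.mp h4).symm
  have hli := (linearIndependent_monoidHom (Q1 n →* ZMod l) (ZMod l)).comp φ hφ
  rw [linearIndependent_iff'] at hli
  have h5 := hli Finset.univ (fun s => (f.coeff s.1 : ZMod l)) (by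
    funext χ
    have := hcon χ
    rw [MonoidAlgebra.lift_apply, Finsupp.sum, ← Finset.sum_coe_sort] at this
    simpa [φ] using this)
  obtain ⟨s, hs⟩ : f.coeff.support.Nonempty := by
    rw [Finsupp.support_nonempty_iff]
    exact fun h => hf (MonoidAlgebra.coeff_eq_zero.mp h)
  have h6 := (ZMod.intCast_zmod_eq_zero_iff_dvd _ _).mp (h5 ⟨s, hs⟩ (Finset.mem_univ _))
  have h7 : (f.coeff s).natAbs ≤ C := Finset.le_sup (f := fun s => (f.coeff s).natAbs) hs
  exact Finsupp.mem_support_iff.mp hs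
    (Int.eq_zero_of_dvd_of_natAbs_lt_natAbs h6 (by rw [Int.natAbs_natCast]; omega))

/-- Commutators of distinct generators. -/
noncomputable def comms' (n : ℕ) : List (FG n) :=
  ((Finset.univ : Finset (Fin (n + 2) × Fin (n + 2))).filter fun p => p.1 ≠ p.2).toList.map
    fun p => ⁅X p.1, X p.2⁆

theorem mem_comms' {g : FG n} : g ∈ comms' n ↔ ∃ a b, a ≠ b ∧ g = ⁅X a, X b⁆ := by
  simp only [comms', List.mem_map, Finset.mem_toList, Finset.mem_filter, Finset.mem_univ, true_and]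
  constructor
  · rintro ⟨⟨a, b⟩, h, rfl⟩
    exact ⟨a, b, h, rfl⟩
  · rintro ⟨a, b, h, rfl⟩
    exact ⟨(a, b), h, rfl⟩

theorem comms'_ker {g : FG n} (hg : g ∈ comms' n) : π1 n g = 1 := by
  obtain ⟨a, b, -, rfl⟩ := mem_comms'.mp hg
  exact π1_comm _ _

theorem comms'_not_fin : ∀ g ∈ comms' n, ¬ IsOfFinOrder (π2 n g) := by
  intro g hg
  obtain ⟨a, b, h, rfl⟩ := mem_comms'.mp hg
  exact Q2_not_fin (π2_comm_X_ne h)

theorem cover (H : Subgroup (Q2 n)) (c : Fin (n + 2) → FG n) (hc : ∀ i, π1 n (c i) = 1)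
    (h1 : ∀ i, π2 n (c i * X i) ∈ H)
    (h2 : ∀ y ∈ gens n, ∀ e ∈ comms' n, ∃ k : ℕ, π2 n (y * e * y⁻¹ * (e ^ k)⁻¹) ∈ H) (b : FG n) :
    ∃ es, π2 n (b * (pp (comms' n) es)⁻¹) ∈ H := by
  let A : Subgroup (Q2 n) := (π1 n).ker.map (π2 n)
  have hAn : A.Normal := Subgroup.Normal.map inferInstance _ π2_surj
  have hA : ∀ a ∈ A, ∀ b ∈ A, Commute a b := by
    rintro _ ⟨a, ha, rfl⟩ _ ⟨b, hb, rfl⟩
    exact commute_of_mem ha hb
  let E : Subgroup (Q2 n) := Subgroup.closure (π2 n '' {g | g ∈ comms' n})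
  have hEA : E ≤ A := by
    rw [Subgroup.closure_le]
    rintro _ ⟨g, hg, rfl⟩
    exact ⟨g, comms'_ker hg, rfl⟩
  let P : Subgroup (Q2 n) :=
    { carrier := {q | ∃ h ∈ H, h ∈ A ∧ ∃ e ∈ E, q = h * e}
      mul_mem' := by
        rintro _ _ ⟨h, h1, h2, e, h3, rfl⟩ ⟨h', h1', h2', e', h3', rfl⟩
        refine ⟨h * h', H.mul_mem h1 h1', A.mul_mem h2 h2', e * e', E.mul_mem h3 h3', ?_⟩
        rw [mul_assoc, mul_assoc, ← mul_assoc e, (hA e (hEA h3) h' h2').eq, mul_assoc]
      one_mem' := ⟨1, H.one_mem, A.one_mem, 1, E.one_mem, by simp⟩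
      inv_mem' := by
        rintro _ ⟨h, h1, h2, e, h3, rfl⟩
        refine ⟨h⁻¹, H.inv_mem h1, A.inv_mem h2, e⁻¹, E.inv_mem h3, ?_⟩
        rw [(hA h h2 e (hEA h3)).eq, mul_inv_rev] }
  have hEP : E ≤ P := fun e he => ⟨1, H.one_mem, A.one_mem, e, he, by simp⟩
  have hHP : ∀ h ∈ H, h ∈ A → h ∈ P := fun h h1 h2 => ⟨h, h1, h2, 1, E.one_mem, by simp⟩
  have hconj : ∀ y ∈ gens n, ∀ q ∈ P, π2 n y * q * (π2 n y)⁻¹ ∈ P := by
    rintro y hy _ ⟨h, h3, h4, e, h5, rfl⟩
    have e1 : π2 n y * (h * e) * (π2 n y)⁻¹ =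
        (π2 n y * h * (π2 n y)⁻¹) * (π2 n y * e * (π2 n y)⁻¹) := by group
    rw [e1]
    refine P.mul_mem (hHP _ ?_ (hAn.conj_mem _ h4 _)) ?_
    · obtain ⟨i, rfl | rfl⟩ := mem_gens.mp hy
      · have h6 := H.mul_mem (H.mul_mem (h1 i) h3) (H.inv_mem (h1 i))
        have h7 := (hA _ ⟨c i, hc i, rfl⟩ _ (hAn.conj_mem _ h4 (π2 n (X i)))).eq
        have e2 : π2 n (c i * X i) * h * (π2 n (c i * X i))⁻¹ =
            π2 n (c i) * (π2 n (X i) * h * (π2 n (X i))⁻¹) * (π2 n (c i))⁻¹ := by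
          rw [map_mul]; group
        rwa [e2, h7, mul_inv_cancel_right] at h6
      · have h6 := H.mul_mem (H.mul_mem (H.inv_mem (h1 i)) h3) (h1 i)
        have h7 := (hA _ h4 _ ⟨c i, hc i, rfl⟩).eq
        have e2 : (π2 n (c i * X i))⁻¹ * h * π2 n (c i * X i) =
            (π2 n (X i))⁻¹ * ((π2 n (c i))⁻¹ * (h * π2 n (c i))) * π2 n (X i) := by
          rw [map_mul]; group
        rw [e2, h7, inv_mul_cancel_left] at h6
        rwa [map_inv, inv_inv]
    · have : E ≤ P.comap (MulAut.conj (π2 n y)).toMonoidHom := by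
        rw [Subgroup.closure_le]
        rintro _ ⟨g, hg, rfl⟩
        obtain ⟨k, hk⟩ := h2 y hy g hg
        refine ⟨_, hk, ⟨_, ?_, rfl⟩, π2 n g ^ k,
          E.pow_mem (Subgroup.subset_closure ⟨g, hg, rfl⟩) k, by simp⟩
        simp [comms'_ker hg]
      exact this h5
  have hN : (P.comap (π2 n)).Normal := by
    refine normal_of_gens _ (fun a c hc => ?_) (fun a c hc => ?_)
    · rw [Subgroup.mem_comap, map_mul, map_mul, map_inv]
      exact hconj _ (mem_gens.mpr ⟨a, Or.inl rfl⟩) _ hc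
    · rw [Subgroup.mem_comap, map_mul, map_mul, map_inv]
      exact hconj _ (mem_gens.mpr ⟨a, Or.inr rfl⟩) _ hc
  have hle : derivedSeries (FG n) 1 ≤ P.comap (π2 n) := by
    refine commutator_le_of_gens _ fun a b => ?_
    by_cases hab : a = b
    · rw [hab, commutatorElement_self]
      exact Subgroup.one_mem _
    · exact hEP (Subgroup.subset_closure ⟨_, mem_comms'.mpr ⟨a, b, hab, rfl⟩, rfl⟩)
  obtain ⟨h, h3, h4⟩ : ∃ h : FG n, π2 n h ∈ H ∧ π1 n h = π1 n b := by
    induction b using FreeGroup.induction_on with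
    | C1 => exact ⟨1, by rw [map_one]; exact H.one_mem, rfl⟩
    | of i => exact ⟨c i * X i, h1 i, by rw [map_mul, hc, one_mul]⟩
    | inv_of i ih =>
      obtain ⟨h, h3, h4⟩ := ih
      exact ⟨h⁻¹, by rw [map_inv]; exact H.inv_mem h3, by rw [map_inv, map_inv, h4]⟩
    | mul u v hu hv =>
      obtain ⟨h, h3, h4⟩ := hu
      obtain ⟨h', h3', h4'⟩ := hv
      exact ⟨h * h', by rw [map_mul]; exact H.mul_mem h3 h3', by rw [map_mul, map_mul, h4, h4']⟩
  obtain ⟨h', h5, -, e, h6, h7⟩ := hle (π1_eq_one.mp (show π1 n (h⁻¹ * b) = 1 by simp [h4]))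
  obtain ⟨es, rfl⟩ := exists_pp (π2 n) (comms' n)
    (fun g hg g' hg' => commute_of_mem (comms'_ker hg) (comms'_ker hg')) (by
      intro g hg
      obtain ⟨a, b, hab, rfl⟩ := mem_comms'.mp hg
      exact mem_comms'.mpr ⟨b, a, hab.symm, commutatorElement_inv _ _⟩) h6
  refine ⟨es, ?_⟩
  rw [map_mul, map_inv, inv_mul_eq_iff_eq_mul] at h7
  rw [map_mul, map_inv, h7, ← mul_assoc, mul_inv_cancel_right]
  exact H.mul_mem h3 h5

theorem propS2 : ∃ q, PropS (π2 n) (comms' n) q := by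
  classical
  refine ⟨(Finset.univ : Finset (Fin (n + 2))).toList.length + (gens n ×ˢ comms' n).length, ?_⟩
  intro Y hY hY1
  let d := fox (π1 n)
  have hπ : d.π = π1 n := fox_π _
  have hA : ∀ y : Q2 n, ∃ w : FG n, π2 n w = y ∧ ∃ f : ZR (Q1 n), (y ≠ 1 → f ≠ 0) ∧
      (f = o (π1 n w) - 1 ∨ ∃ i, f = d.D w i) := by
    intro y
    obtain ⟨w, rfl⟩ := π2_surj y
    refine ⟨w, rfl, ?_⟩
    by_cases h1 : π1 n w = 1
    · by_cases h2 : d.D w = 0
      · exact ⟨_, fun h => absurd ((fox1_ker w).mp ⟨h1, h2⟩) h, Or.inl rfl⟩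
      · obtain ⟨i, hi⟩ := Function.ne_iff.mp h2
        exact ⟨_, fun _ => hi, Or.inr ⟨i, rfl⟩⟩
    · refine ⟨_, fun _ h => ?_, Or.inl rfl⟩
      exact one_ne_zero (eq_zero_of_sub_one_mul (Q1_not_fin h1) (r := 1) (by rw [h, zero_mul]))
  choose w hw f hf hf' using hA
  have h0 : (o (π1 n (X 0)) - 1) * ∏ y ∈ hY.toFinset, f y ≠ 0 := by
    refine mul_ne_zero (fun h => ?_) (Finset.prod_ne_zero_iff.mpr fun y hy => hf y ?_)
    · exact one_ne_zero (eq_zero_of_sub_one_mul (Q1_not_fin (π1_X_ne_one 0)) (r := 1)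
        (by rw [h, zero_mul]))
    · rintro rfl
      exact hY1 (by simpa using hy)
  obtain ⟨l, hp, hl, χ, hχ⟩ := exists_char _ h0 hY.toFinset.card
  have : Fact l.Prime := ⟨hp⟩
  set ev := MonoidAlgebra.lift ℤ (ZMod l) (Q1 n) χ with hev
  rw [map_mul, map_prod] at hχ
  have hχ1 := left_ne_zero_of_mul hχ
  have hχ2 := Finset.prod_ne_zero_iff.mp (right_ne_zero_of_mul hχ)
  let μ : FG n → ZMod l := fun w => ev (o (π1 n w))
  let τ : FG n → Fin (n + 2) → ZMod l := fun w i => ev (d.D w i)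
  have hμ1 : ∀ c, π1 n c = 1 → μ c = 1 := by
    intro c hc
    simp [μ, hc]
  have hμmul : ∀ u v, μ (u * v) = μ u * μ v := by
    intro u v
    simp [μ, o_mul]
  have hτmul : ∀ u v, τ (u * v) = τ u + μ u • τ v := by
    intro u v
    funext i
    simp [τ, μ, d.D_mul, hπ]
  have hτpow : ∀ c, π1 n c = 1 → ∀ k : ℕ, τ (c ^ k) = (k : ZMod l) • τ c := by
    intro c hc k
    funext i
    simp [τ, d.D_pow_ker (hπ ▸ hc)]
  have hτinv : ∀ c, π1 n c = 1 → τ c⁻¹ = -τ c := by
    intro c hc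
    funext i
    simp [τ, d.D_inv_ker (hπ ▸ hc)]
  have hτconj : ∀ y c, π1 n c = 1 → τ (y * c * y⁻¹) = μ y • τ c := by
    intro y c hc
    funext i
    simp [τ, μ, d.D_conj y (hπ ▸ hc), hπ]
  have hτX : ∀ a, τ (X a) = Pi.single a 1 := by
    intro a
    funext i
    simp only [τ, d, fox_of]
    by_cases h : i = a
    · simp [h]
    · simp [Pi.single_eq_of_ne h]
  have hτcomm : ∀ a b, τ ⁅X a, X b⁆ = (1 - μ (X b)) • τ (X a) + (μ (X a) - 1) • τ (X b) := by
    intro a b
    funext i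
    simp [τ, μ, d.D_comm' (hπ ▸ π1_comm (X a) (X b)), hπ]
  have hm0 : 1 - μ (X 0) ≠ 0 := by
    intro h
    apply hχ1
    rw [map_sub, map_one, ← neg_sub, neg_eq_zero]
    exact h
  have hτz : τ (zz n) ≠ 0 := by
    intro h
    have := congrFun h 1
    rw [zz_def, hτcomm, hτX, hτX] at this
    simp only [Pi.add_apply, Pi.smul_apply, ne_eq, one_ne_zero, not_false_eq_true,
      Pi.single_eq_of_ne, smul_eq_mul, mul_zero, Pi.single_eq_same, mul_one, zero_add,
      Pi.zero_apply] at this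
    exact hm0 (by rw [← neg_sub, this, neg_zero])
  let pt : ZMod l → Fin (n + 2) → ZMod l := fun j => (1 - μ (X 0))⁻¹ • (τ (X 0) + j • τ (zz n))
  have hpt : Function.Injective pt := by
    intro j j' h
    have h1 := smul_right_injective _ (inv_ne_zero hm0) h
    exact smul_left_injective _ hτz (add_left_cancel h1)
  obtain ⟨j, hj⟩ : ∃ j, ∀ y ∈ Y, τ (w y) + μ (w y) • pt j ≠ pt j := by
    let bad : Q2 n → Fin (n + 2) → ZMod l := fun y => (1 - μ (w y))⁻¹ • τ (w y)
    obtain ⟨p, h1, h2⟩ := Finset.exists_mem_notMem_of_card_lt_card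
      (s := hY.toFinset.image bad) (t := Finset.univ.image pt) (by
        rw [Finset.card_image_of_injective _ hpt, Finset.card_univ, ZMod.card]
        exact lt_of_le_of_lt Finset.card_image_le hl)
    obtain ⟨j, -, rfl⟩ := Finset.mem_image.mp h1
    refine ⟨j, fun y hy h => ?_⟩
    have h3 : τ (w y) = (1 - μ (w y)) • pt j := by
      rw [sub_smul, one_smul]
      exact eq_sub_of_add_eq h
    by_cases h4 : 1 - μ (w y) = 0
    · apply hχ2 y (by simpa using hy)
      rcases hf' y with h5 | ⟨i, h5⟩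
      · rw [h5, map_sub, map_one, ← neg_sub, neg_eq_zero]
        exact h4
      · rw [h5]
        have := congrFun h3 i
        rw [h4, zero_smul] at this
        exact this
    · apply h2
      refine Finset.mem_image.mpr ⟨y, by simpa using hy, ?_⟩
      simp only [bad]
      rw [h3, smul_smul, inv_mul_cancel₀ h4, one_smul]
  set p := pt j with hpdef
  let S : Subgroup (FG n) :=
    { carrier := {u | τ u + μ u • p = p}
      mul_mem' := by
        intro a b ha hb
        simp only [Set.mem_ofPred_eq] at ha hb ⊢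
        rw [hτmul, hμmul, mul_smul, add_assoc, ← smul_add, hb, ha]
      one_mem' := by
        show τ 1 + μ 1 • p = p
        have : τ 1 = 0 := by
          funext i
          simp [τ, d.D_one]
        rw [this, hμ1 1 (map_one _), one_smul, zero_add]
      inv_mem' := by
        intro a ha
        simp only [Set.mem_ofPred_eq] at ha ⊢
        have h1 : τ 1 = 0 := by
          funext i
          simp [τ, d.D_one]
        have h2 := hτmul a⁻¹ a
        have h3 := hμmul a⁻¹ a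
        rw [inv_mul_cancel] at h2 h3
        rw [h1] at h2
        rw [hμ1 1 (map_one _)] at h3
        conv_lhs => rw [← ha]
        rw [smul_add, ← add_assoc, ← h2, smul_smul, ← h3, one_smul, zero_add] }
  have hS : ∀ u, π1 n u = 1 → τ u = 0 → u ∈ S := by
    intro u h1 h2
    show τ u + μ u • p = p
    rw [h2, hμ1 u h1, one_smul, zero_add]
  let c : Fin (n + 2) → FG n := fun i => ⁅(X 0 : FG n), X i⁆ ^ ((1 - μ (X 0))⁻¹).val *
    zz n ^ (j * (1 - μ (X i)) * (1 - μ (X 0))⁻¹).val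
  have hc : ∀ i, π1 n (c i) = 1 := by
    intro i
    simp only [c, map_mul, map_pow, π1_comm, π1_zz, one_pow, one_mul]
  let hs : List (FG n) := (Finset.univ : Finset (Fin (n + 2))).toList.map (fun i => c i * X i) ++
    (gens n ×ˢ comms' n).map fun r => r.1 * r.2 * r.1⁻¹ * (r.2 ^ (μ r.1).val)⁻¹
  have hle : Subgroup.closure {y | y ∈ hs ∨ π2 n y = 1} ≤ S := by
    rw [Subgroup.closure_le]
    rintro u (hu | hu)
    · rcases List.mem_append.mp hu with h1 | h1
      · obtain ⟨i, -, rfl⟩ := List.mem_map.mp h1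
        show τ (c i * X i) + μ (c i * X i) • p = p
        rw [hτmul (c i), hμmul (c i), hμ1 _ (hc i), one_smul, one_mul]
        simp only [c]
        rw [hτmul, hμ1 (_ ^ _) (by rw [map_pow, π1_comm, one_pow]), one_smul, hτpow _ (π1_comm _ _),
          hτpow _ π1_zz, ZMod.natCast_zmod_val, ZMod.natCast_zmod_val, hτcomm, hpdef]
        simp only [pt]
        funext k
        simp only [Pi.add_apply, Pi.smul_apply, smul_eq_mul]
        field_simp
        ring
      · obtain ⟨⟨y, e⟩, h2, rfl⟩ := List.mem_map.mp h1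
        have he := comms'_ker (List.mem_product.mp h2).2
        refine hS _ (by simp [he]) ?_
        rw [hτmul, hτconj _ _ he, hμ1 _ (π1_conj he _), one_smul,
          hτinv _ (by rw [map_pow, he, one_pow]), hτpow _ he, ZMod.natCast_zmod_val,
          add_neg_cancel]
    · have := (fox1_ker u).mpr hu
      refine hS u this.1 ?_
      funext i
      simp only [τ, d, this.2, Pi.zero_apply, map_zero]
  refine ⟨hs, by simp [hs], fun y hy h => ?_, ?_⟩
  · rw [← hw y, ← mem_closure_iff] at h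
    exact hj y hy (hle h)
  · refine cover _ c hc (fun i => Subgroup.subset_closure ?_) fun y hy e he =>
      ⟨(μ y).val, Subgroup.subset_closure ?_⟩
    · exact List.mem_map_of_mem (List.mem_append_left _ (List.mem_map.mpr ⟨i, by simp, rfl⟩))
    · exact List.mem_map_of_mem (List.mem_append_right _
        (List.mem_map.mpr ⟨(y, e), List.mem_product.mpr ⟨hy, he⟩, rfl⟩))

end Pool.Agent.Lib.MP_9cc2ee_lc
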